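import Pool.Agent.Work.MP_274aea_ag_D34.PrimeB

/-!
# Odd degree unirational parametrisations of Gushel-Mukai fourfolds: definitions

Paper proof: `PROOF.md` in this folder.
-/

set_option autoImplicit false

open Polynomial Matrix Pool.Agent.GM16 Pool.Agent.GM34

namespace Pool.Agent.GMO

section Ring

variable {A : Type*} [CommRing A]

/-- The matrix of the form `ξ ∧ ξ' ∧ f`. -/
def Nm (f : Fin 5 → A) : M10 A :=
  !![0, 0, 0, 0, 0, 0, 0, f 4, -f 3, f 2;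
    0, 0, 0, 0, 0, -f 4, f 3, 0, 0, -f 1;
    0, 0, 0, 0, f 4, 0, -f 2, 0, f 1, 0;
    0, 0, 0, 0, -f 3, f 2, 0, -f 1, 0, 0;
    0, 0, f 4, -f 3, 0, 0, 0, 0, 0, f 0;
    0, -f 4, 0, f 2, 0, 0, 0, 0, -f 0, 0;
    0, f 3, -f 2, 0, 0, 0, 0, f 0, 0, 0;
    f 4, 0, 0, -f 1, 0, 0, f 0, 0, 0, 0;
    -f 3, 0, f 1, 0, 0, -f 0, 0, 0, 0, 0;
    f 2, -f 1, 0, 0, f 0, 0, 0, 0, 0, 0]

/-- Contraction of a bivector with the linear form `f`. -/
def ctM (f : Fin 5 → A) : Matrix (Fin 5) (Fin 10) A :=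
  !![-f 1, -f 2, -f 3, -f 4, 0, 0, 0, 0, 0, 0;
    f 0, 0, 0, 0, -f 2, -f 3, -f 4, 0, 0, 0;
    0, f 0, 0, 0, f 1, 0, 0, -f 3, -f 4, 0;
    0, 0, f 0, 0, 0, f 1, 0, f 2, 0, -f 4;
    0, 0, 0, f 0, 0, 0, f 1, 0, f 2, f 3]

/-- The five diagonals of the pentagon. -/
def ell : Fin 5 → Fin 10 → A :=
  ![![0, 0, 0, 0, 0, 0, 1, 0, 0, 0], ![0, -1, 0, 0, 0, 0, 0, 0, 0, 0],
    ![0, 0, 0, 0, 0, -1, 0, 0, 0, 0], ![0, 0, 0, 0, 0, 0, 0, 0, -1, 0],
    ![0, 0, 1, 0, 0, 0, 0, 0, 0, 0]]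

/-- The five edges of the pentagon. -/
def edg : Fin 5 → Fin 10 → A :=
  ![![0, 0, 0, 0, 0, 0, 0, 1, 0, 0], ![0, 0, 0, 0, 0, 0, 0, 0, 0, 1],
    ![0, 0, 0, -1, 0, 0, 0, 0, 0, 0], ![1, 0, 0, 0, 0, 0, 0, 0, 0, 0],
    ![0, 0, 0, 0, 1, 0, 0, 0, 0, 0]]

def xi0 (f : Fin 5 → A) : Fin 10 → A :=
  ![0, 0, 0, 0, f 1 * f 2, 0, f 1 * f 4, 0, 0, f 3 * f 4]

def sy (a b : Fin 10 → A) : M10 A := vecMulVec a b + vecMulVec b a

def kk (f : Fin 5 → A) : Fin 5 → A :=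
  ![f 4 * f 0 * f 1, f 0 * f 1 * f 2, f 1 * f 2 * f 3, f 2 * f 3 * f 4, f 3 * f 4 * f 0]

def Qk (k : Fin 5 → A) (r : A) : A :=
  4 * k 0 ^ 2 - 2 * k 1 ^ 2 + 2 * k 2 ^ 2 + k 3 ^ 2 - 2 * k 4 ^ 2 - 2 * k 0 * k 1 +
    3 * k 2 * k 3 - k 3 * k 4 + r * k 4 * k 0

/-- The degenerate sextic. -/
def Del (f : Fin 5 → A) (l r : A) : A := Qk (kk f) r - l * (f 0 * f 1 * f 2 * f 3 * f 4)

def q0 : M10 A := vecMulVec (ell 0) (ell 3) + vecMulVec (ell 1) (ell 4)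

def ev2 (i j : Fin 5) : M10 A := vecMulVec (edg i) (edg j)

def qb (r : A) : M10 A :=
  (4 : A) • ev2 0 0 - (2 : A) • ev2 1 1 + (2 : A) • ev2 2 2 + ev2 3 3 - (2 : A) • ev2 4 4 -
    (2 : A) • ev2 0 1 + (3 : A) • ev2 2 3 - ev2 3 4 + r • ev2 4 0

def hS (νh : Fin 10 → A) (σ : A) : Fin 10 → A := ell 1 + ell 2 + σ • νh

def q1 (νq : M10 A) (r σ : A) : M10 A := qb r + σ • νq

def qS (νq : M10 A) (r σ : A) : M10 A := q0 + σ • q1 νq r σ

end Ring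

/-- Unknowns. -/
abbrev Va := Fin 5 ⊕ Unit ⊕ (Fin 5 × Fin 10) ⊕ Unit ⊕ Unit ⊕ (Fin 2 × Fin 6)

/-- Equations. -/
abbrev Eqn := (Fin 5 × Fin 5) ⊕ (Fin 10 × Fin 10) ⊕ (Fin 2 × Fin 2)

/-- Relations between the equations. -/
abbrev Rl := Fin 5 ⊕ (Fin 5 × Fin 10) ⊕ (Fin 10 × Fin 10)

def vS : Va := .inr (.inr (.inr (.inr (.inl ()))))

section Acc

variable {α : Type*}

def xf (x : Va → α) (i : Fin 5) : α := x (.inl i)

def xl (x : Va → α) : α := x (.inr (.inl ()))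

def xe (x : Va → α) (a : Fin 5) (i : Fin 10) : α := x (.inr (.inr (.inl (a, i))))

def xr (x : Va → α) : α := x (.inr (.inr (.inr (.inl ()))))

def xs (x : Va → α) : α := x vS

def xz (x : Va → α) (j : Fin 2) (i : Fin 6) : α := x (.inr (.inr (.inr (.inr (.inr (j, i))))))

def mkV (f : Fin 5 → α) (l : α) (η : Fin 5 → Fin 10 → α) (r σ : α) (z : Fin 2 → Fin 6 → α) :
    Va → α :=
  Sum.elim f (Sum.elim (fun _ => l) (Sum.elim (fun p => η p.1 p.2) (Sum.elim (fun _ => r)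
    (Sum.elim (fun _ => σ) fun p => z p.1 p.2))))

def y1 (y : Eqn → α) (a i : Fin 5) : α := y (.inl (a, i))

def y2 (y : Eqn → α) : Matrix (Fin 10) (Fin 10) α := Matrix.of fun i j => y (.inr (.inl (i, j)))

def y3 (y : Eqn → α) (j k : Fin 2) : α := y (.inr (.inr (j, k)))

def mkE (c : Fin 5 → Fin 5 → α) (Y : Matrix (Fin 10) (Fin 10) α) (w : Fin 2 → Fin 2 → α) :
    Eqn → α :=
  Sum.elim (fun p => c p.1 p.2) (Sum.elim (fun p => Y p.1 p.2) fun p => w p.1 p.2)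

end Acc

def dV (e : ℕ) : Va → ℕ := mkV (fun _ => e) e (fun _ _ => e) 0 0 fun _ _ => 0

def dE (e : ℕ) : Eqn → ℕ := mkE (fun _ _ => 2 * e) (Matrix.of fun _ _ => 2 * e) fun _ _ => 0

section Ring

variable {A : Type*} [CommRing A]

def lp (νh : Fin 10 → A) (σ : A) : Fin 5 → Fin 10 → A := ![hS νh σ, ell 3, ell 0, ell 4, ell 1]

def pe (η : Fin 5 → Fin 10 → A) : Fin 5 → Fin 10 → A := ![0, η 2, η 1, η 4, η 3]

def mm (νh : Fin 10 → A) (x : Va → A) (a : Fin 5) : Fin 10 → A :=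
  Nm (xf x) *ᵥ lp νh (xs x) a + xs x • pe (xe x) a

def Ten (νh : Fin 10 → A) (νq : M10 A) (x : Va → A) : M10 A :=
  Nm (xf x) * (q1 νq (xr x) (xs x) + (q1 νq (xr x) (xs x))ᵀ) * Nm (xf x) - xl x • Nm (xf x) -
    ∑ a, sy (xe x a) (Nm (xf x) *ᵥ lp νh (xs x) a) -
    xs x • (sy (xe x 1) (xe x 2) + sy (xe x 3) (xe x 4))

def FF (νh : Fin 10 → A) (νq : M10 A) (x : Va → A) : Eqn → A :=
  mkE (fun a => ctM (xf x) *ᵥ xe x a) (Ten νh νq x) fun j =>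
    ![hS νh (xs x) ⬝ᵥ pch (xz x j), bq (qS νq (xr x) (xs x)) (pch (xz x j)) (pch (xz x j))]

def Red (νh : Fin 10 → A) (x : Va → A) (y : Eqn → A) : Rl → A :=
  Sum.elim (fun a => xf x ⬝ᵥ y1 y a) (Sum.elim
    (fun p => (ctM (xf x) * y2 y + ∑ a, vecMulVec (y1 y a) (mm νh x a)) p.1 p.2)
    fun p => (y2 y - (y2 y)ᵀ) p.1 p.2)

/-- The forms `· ∧ u ∧ v ∧ e i` for the point `u ∧ v` of the big cell and `i = 2, 3, 4`. -/
def xis (x : Fin 6 → A) : Fin 3 → Fin 10 → A :=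
  ![![x 1 * x 5 - x 2 * x 4, 0, x 2, -x 1, 0, x 5, -x 4, 0, 0, 1],
    ![x 2 * x 3 - x 0 * x 5, -x 2, 0, x 0, -x 5, 0, x 3, 0, -1, 0],
    ![x 0 * x 4 - x 1 * x 3, x 1, -x 0, 0, x 4, -x 3, 0, 1, 0, 0]]

def psi (m : Fin 10 → A) (x : Fin 6 → A) (i : Fin 3) : A := m ⬝ᵥ xis x i

def GG (m : Fin 3 → Fin 10 → A) (x : Fin 6 → A) : A := (Matrix.of fun a => psi (m a) x).det

def G2 (f : Fin 5 → A) (q : M10 A) (m : Fin 3 → Fin 10 → A) (x : Fin 6 → A) : A :=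
  (Matrix.of ![psi (m 0) x, psi (m 1) x, fun i => bs q (pch x) (Nm f *ᵥ xis x i)]).det

def Gam (m : Fin 3 → Fin 10 → A) : A := (Matrix.of fun a b => bs P0 (m a) (m b)).det

def m3 (νh : Fin 10 → A) (x : Va → A) : Fin 3 → Fin 10 → A := ![mm νh x 0, mm νh x 1, mm νh x 3]

/-- The vectors `m3` for `σ = 0`. -/
def n3 (f : Fin 5 → A) : Fin 3 → Fin 10 → A :=
  ![Nm f *ᵥ (ell 1 + ell 2), Nm f *ᵥ ell 3, Nm f *ᵥ ell 4]

def wit (b c d : A) : Fin 6 → A := ![d, b, 0, b, 0, c]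

/-- The algebraic part of the data: a family of conics on the fourfold. -/
def Con (h : Fin 10 → A) (q : M10 A) (f : Fin 5 → A) (l : A) (m μ : Fin 3 → Fin 10 → A) : Prop :=
  m 0 = Nm f *ᵥ h ∧ (∀ a, ctM f *ᵥ m a = 0) ∧
    Nm f * (q + qᵀ) * Nm f = l • Nm f + ∑ a, sy (μ a) (m a)

end Ring

/-- Degree bounds. -/
def Dg {V : Type*} {R : Type*} [CommRing R] (d : V → ℕ) (x : V → R[X]) : Prop :=
  ∀ v, (x v).natDegree ≤ d v

/-- Five pairwise coprime polynomials of degree `e`. -/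
def Pent (e : ℕ) (f : Fin 5 → ℂ[X]) : Prop :=
  (∀ i, f i ≠ 0 ∧ (f i).natDegree = e) ∧ ∀ i j, i ≠ j → IsCoprime (f i) (f j)

/-- Everything the field argument needs. -/
def Data (h : Fin 10 → ℂ) (q : M10 ℂ) : Prop :=
  ∃ (e : ℕ) (f : Fin 5 → ℂ[X]) (l : ℂ[X]) (m μ : Fin 3 → Fin 10 → ℂ[X]) (z : Fin 2 → Fin 6 → ℂ),
    Odd e ∧ (∀ i, (f i).natDegree ≤ e) ∧ (∀ a i, (m a i).natDegree ≤ e) ∧
    Con (C ∘ h) (q.map C) f l m μ ∧
    (∀ j, h ⬝ᵥ pch (z j) = 0 ∧ bq q (pch (z j)) (pch (z j)) = 0) ∧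
    (GG m (C ∘ z 0)).coeff (3 * e) ≠ 0 ∧ IsCoprime (GG m (C ∘ z 0)) (GG m (C ∘ z 1)) ∧
    IsCoprime (GG m (C ∘ z 0)) (G2 f (q.map C) m (C ∘ z 0)) ∧ Gam m ≠ 0 ∧ f 0 ≠ 0

def OddN (h : Fin 10 → ℂ) (q : M10 ℂ) : Prop :=
  ∃ ι : FractionRing (MvPolynomial (Fin 6) ℂ ⧸ JN h q) →ₐ[ℂ] Om, Odd (Module.finrank ι.range Om)

/-- The special values of the parameter. -/
noncomputable def rn (n : ℕ) : ℂ := 2 * (2 ^ (n + 1) - (2 ^ n)⁻¹)

/-- The number `a + ε b`. -/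
def du {R : Type*} [CommRing R] (a b : R) : DualNumber R := TrivSqZeroExt.inl a + TrivSqZeroExt.inr b

/-! Curves on the blown up quadric -/

/-- Index `0, 1, 2, 3` stands for the factors `X, Y, Z, W`. -/
abbrev T8 (α : Type) := Fin 4 → Fin 2 → α

abbrev DP := DualNumber ℂ[X]

def pr {B : Type} [CommRing B] (f : T8 B) (a : Fin 4) : B := f a 0 * f a 1

def Dv {B : Type} [CommRing B] (f p : T8 B) : Prop :=
  ∀ i, f 0 i ∣ pr f 2 - p 0 i * pr f 3 ∧ f 1 i ∣ pr f 2 - p 1 i * pr f 3 ∧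
    f 2 i ∣ pr f 0 - p 2 i * pr f 1 ∧ f 3 i ∣ pr f 0 - p 3 i * pr f 1

structure Good (n : T8 ℕ) (p : T8 ℂ) (f : T8 ℂ[X]) : Prop where
  ne : ∀ a i, f a i ≠ 0
  deg : ∀ a i, (f a i).natDegree = n a i
  bx : n 0 0 + n 0 1 = n 1 0 + n 1 1
  bz : n 2 0 + n 2 1 = n 3 0 + n 3 1
  cx : IsCoprime (pr f 0) (pr f 1)
  cz : IsCoprime (pr f 2) (pr f 3)
  pn : ∀ a i, p a i ≠ 0
  dv : Dv f fun a i => C (p a i)

/-- First order deformations. -/
def Df (n : T8 ℕ) (p : T8 ℂ) (f : T8 ℂ[X]) (l : T8 ℂ) (g : T8 DP) : Prop :=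
  (∀ a i, (g a i).fst = f a i ∧ (g a i).snd.natDegree ≤ n a i) ∧
    Dv g fun a i => du (C (p a i)) (C (p a i * l a i))

noncomputable def wr (a b : DP) : ℂ[X] := a.snd * b.fst - a.fst * b.snd

noncomputable def elf (n : T8 ℕ) (l : T8 ℂ) : ℂ :=
  ∑ i, ((n 0 i : ℂ) * l 0 i - n 1 i * l 1 i - n 2 i * l 2 i + n 3 i * l 3 i)

def Rig (n : T8 ℕ) (p : T8 ℂ) (f : T8 ℂ[X]) : Prop :=
  (∀ l g, Df n p f l g → elf n l = 0) ∧
    ∀ g : Fin 4 → T8 DP, (∀ j, Df n p f 0 (g j)) → ∃ c : Fin 4 → ℂ, c ≠ 0 ∧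
      ∑ j, C (c j) * wr (pr (g j) 0) (pr (g j) 1) = 0 ∧
      ∑ j, C (c j) * wr (pr (g j) 2) (pr (g j) 3) = 0

def GR (n : T8 ℕ) (p : T8 ℂ) : Prop := ∃ f, Good n p f ∧ Rig n p f

def nA (n : ℕ) : T8 ℕ := fun _ => ![n + 1, n]

noncomputable def pA (n : ℕ) : T8 ℂ := ![![-(2 ^ n)⁻¹, 2 ^ (n + 1)], ![1, -1], ![1, -2], ![-1, 2]]

def ph {B : Type} [CommRing B] (f : T8 B) : Fin 5 → B :=
  ![pr f 3 + pr f 1, pr f 3, pr f 0, pr f 2, pr f 1]

/-- The derivative of the degenerate sextic is onto. -/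
def ScalarOnto (e : ℕ) (f : Fin 5 → ℂ[X]) (l : ℂ[X]) (r : ℂ) : Prop :=
  ∀ c : ℂ[X], c.natDegree ≤ 6 * e → ∃ (δf : Fin 5 → ℂ[X]) (δl : ℂ[X]) (δr : ℂ),
    (∀ i, (δf i).natDegree ≤ e) ∧ δl.natDegree ≤ e ∧
      (Del (dn f δf) (du l δl) (du (C r) (C δr))).snd = c

/-! Coefficient spaces -/

abbrev Ix {V : Type} (d : V → ℕ) := (v : V) × Fin (d v + 1)

noncomputable def pv {V : Type} (d : V → ℕ) (c : Ix d → ℂ) (v : V) : ℂ[X] :=
  ∑ i : Fin (d v + 1), monomial i (c ⟨v, i⟩)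

def cf {V : Type} (d : V → ℕ) (x : V → ℂ[X]) (i : Ix d) : ℂ := (x i.1).coeff i.2

def Near {V : Type} (d : V → ℕ) (x0 : V → ℂ[X]) (P : (V → ℂ[X]) → Prop) : Prop :=
  ∀ᶠ c in nhds (cf d x0), P (pv d c)

/-- Adjoin one element to a subfield. -/
def adj {L : Type} [Field L] (F : Subfield L) (θ : L) : Subfield L :=
  Subfield.closure ((F : Set L) ∪ {θ})

/-- The projective point `y` is rational over a simple extension of `F`. -/
def One {L ι : Type} [Field L] (F : Subfield L) (y : ι → L) : Prop :=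
  ∃ θ ρ : L, ρ ≠ 0 ∧ ∀ i, ρ * y i ∈ adj F θ

/-! Naturality -/

section Maps

variable {A B : Type*} [CommRing A] [CommRing B] (g : A →+* B)

theorem map_Nm (f : Fin 5 → A) : (Nm f).map g = Nm (g ∘ f) := by
  simp only [Nm, maps2_of, maps2_cons, maps2_nil, map_zero, map_neg, Function.comp_apply]

theorem map_ctM (f : Fin 5 → A) : (ctM f).map g = ctM (g ∘ f) := by
  simp only [ctM, maps2_of, maps2_cons, maps2_nil, map_zero, map_neg, Function.comp_apply]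

theorem map_ell (j : Fin 5) : g ∘ ell j = ell j := by
  fin_cases j <;> simp only [ell, Fin.reduceFinMk, cons_val, maps2_cons, maps2_nil, map_zero,
    map_neg, map_one, Fin.zero_eta, Fin.mk_one, cons_val_zero, cons_val_one]

theorem map_edg (j : Fin 5) : g ∘ edg j = edg j := by
  fin_cases j <;> simp only [edg, Fin.reduceFinMk, cons_val, maps2_cons, maps2_nil, map_zero,
    map_neg, map_one, Fin.zero_eta, Fin.mk_one, cons_val_zero, cons_val_one]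

theorem map_xi0 (f : Fin 5 → A) : g ∘ xi0 f = xi0 (g ∘ f) := by
  simp only [xi0, maps2_cons, maps2_nil, map_zero, map_mul, Function.comp_apply]

theorem map_vv {ι κ : Type*} (a : ι → A) (b : κ → A) :
    (vecMulVec a b).map g = vecMulVec (g ∘ a) (g ∘ b) :=
  Matrix.ext fun _ _ => map_mul g _ _

theorem map_sy (a b : Fin 10 → A) : (sy a b).map g = sy (g ∘ a) (g ∘ b) := by
  simp only [sy, maps2_add, map_vv]

theorem map_msum {ι κ μ : Type*} [Fintype μ] (M : μ → Matrix ι κ A) :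
    (∑ a, M a).map g = ∑ a, (M a).map g :=
  Matrix.ext fun i j => by simp only [map_apply, Matrix.sum_apply, map_sum]

theorem map_Del (f : Fin 5 → A) (l r : A) : g (Del f l r) = Del (g ∘ f) (g l) (g r) := by
  simp [Del, Qk, kk, map_ofNat]

theorem map_q0 : (q0 : M10 A).map g = q0 := by
  simp only [q0, maps2_add, map_vv, map_ell]

theorem map_qb (r : A) : (qb r).map g = qb (g r) := by
  simp only [qb, ev2, maps2_add, maps2_sub, maps2_smul, map_vv, map_edg, map_ofNat]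

theorem map_hS (νh : Fin 10 → A) (σ : A) : g ∘ hS νh σ = hS (g ∘ νh) (g σ) := by
  simp only [hS, maps2_vadd, maps2_vsmul, map_ell]

theorem map_q1 (νq : M10 A) (r σ : A) : (q1 νq r σ).map g = q1 (νq.map g) (g r) (g σ) := by
  simp only [q1, maps2_add, maps2_smul, map_qb]

theorem map_qS (νq : M10 A) (r σ : A) : (qS νq r σ).map g = qS (νq.map g) (g r) (g σ) := by
  simp only [qS, maps2_add, maps2_smul, map_q0, map_q1]

theorem map_lp (νh : Fin 10 → A) (σ : A) (a : Fin 5) : g ∘ lp νh σ a = lp (g ∘ νh) (g σ) a := by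
  fin_cases a
  exacts [map_hS g _ _, map_ell g 3, map_ell g 0, map_ell g 4, map_ell g 1]

theorem map_pe (η : Fin 5 → Fin 10 → A) (a : Fin 5) : g ∘ pe η a = pe (fun b => g ∘ η b) a := by
  fin_cases a
  exacts [maps2_vzero g, rfl, rfl, rfl, rfl]

theorem map_mm (νh : Fin 10 → A) (x : Va → A) (a : Fin 5) :
    g ∘ mm νh x a = mm (g ∘ νh) (g ∘ x) a := by
  simp only [mm, maps2_vadd, maps2_vsmul, maps2_mulVec, map_Nm, map_lp, map_pe]
  rfl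

theorem map_Ten (νh : Fin 10 → A) (νq : M10 A) (x : Va → A) :
    (Ten νh νq x).map g = Ten (g ∘ νh) (νq.map g) (g ∘ x) := by
  simp only [Ten, maps2_add, maps2_sub, maps2_smul, maps2_mul, maps2_tr, map_msum, map_sy,
    maps2_mulVec, map_Nm, map_lp, map_q1]
  rfl

theorem map_FF (νh : Fin 10 → A) (νq : M10 A) (x : Va → A) :
    g ∘ FF νh νq x = FF (g ∘ νh) (νq.map g) (g ∘ x) := by
  funext k
  rcases k with ⟨a, i⟩ | ⟨i, j⟩ | ⟨j, k⟩
  · have := congrFun (maps2_mulVec g (ctM (xf x)) (xe x a)) i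
    rw [map_ctM] at this
    exact this
  · exact congrFun (congrFun (map_Ten g νh νq x) i) j
  · fin_cases k
    · have := g.map_dotProduct (hS νh (xs x)) (pch (xz x j))
      rw [map_hS, primeb_map_pch] at this
      exact this
    · have := map_bq g (qS νq (xr x) (xs x)) (pch (xz x j)) (pch (xz x j))
      rw [map_qS, primeb_map_pch] at this
      exact this

theorem map_Red (νh : Fin 10 → A) (x : Va → A) (y : Eqn → A) :
    g ∘ Red νh x y = Red (g ∘ νh) (g ∘ x) (g ∘ y) := by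
  funext k
  rcases k with a | ⟨i, j⟩ | ⟨i, j⟩
  · exact g.map_dotProduct (xf x) (y1 y a)
  · have : (ctM (xf x) * y2 y + ∑ a : Fin 5, vecMulVec (y1 y a) (mm νh x a)).map g =
        ctM (xf (g ∘ x)) * y2 (g ∘ y) +
          ∑ a : Fin 5, vecMulVec (y1 (g ∘ y) a) (mm (g ∘ νh) (g ∘ x) a) := by
      simp only [maps2_add, maps2_mul, map_msum, map_vv, map_ctM, map_mm]
      rfl
    exact congrFun (congrFun this i) j
  · exact map_sub g _ _

theorem map_xis (x : Fin 6 → A) (i : Fin 3) : g ∘ xis x i = xis (g ∘ x) i := by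
  fin_cases i <;> simp only [xis, Fin.reduceFinMk, cons_val, maps2_cons, maps2_nil, map_zero,
    map_neg, map_one, map_sub, map_mul, Fin.zero_eta, Fin.mk_one, cons_val_zero, cons_val_one,
    Function.comp_apply]

theorem map_psi (m : Fin 10 → A) (x : Fin 6 → A) : g ∘ psi m x = psi (g ∘ m) (g ∘ x) :=
  funext fun i => (g.map_dotProduct _ _).trans (by rw [map_xis]; rfl)

theorem map_GG (m : Fin 3 → Fin 10 → A) (x : Fin 6 → A) :
    g (GG m x) = GG (fun a => g ∘ m a) (g ∘ x) := by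
  simp only [GG, maps2_det, maps2_of, Function.comp_def]
  exact congrArg (fun M => (Matrix.of M).det) (funext fun a => map_psi g _ _)

theorem map_G2 (f : Fin 5 → A) (q : M10 A) (m : Fin 3 → Fin 10 → A) (x : Fin 6 → A) :
    g (G2 f q m x) = G2 (g ∘ f) (q.map g) (fun a => g ∘ m a) (g ∘ x) := by
  rw [G2, G2, maps2_det, maps2_of, maps2_cons, maps2_cons, maps2_cons, maps2_nil, map_psi, map_psi]
  refine congrArg (fun r => (Matrix.of ![_, _, r]).det) (funext fun i => ?_)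
  rw [Function.comp_apply, map_bs, primeb_map_pch, maps2_mulVec, map_Nm, map_xis]

theorem map_Gam (m : Fin 3 → Fin 10 → A) : g (Gam m) = Gam fun a => g ∘ m a := by
  rw [Gam, Gam, maps2_det]
  refine congrArg det (Matrix.ext fun a b => ?_)
  simp only [map_apply, of_apply, map_bs, map_P0]

theorem map_m3 (νh : Fin 10 → A) (x : Va → A) :
    (fun a => g ∘ m3 νh x a) = m3 (g ∘ νh) (g ∘ x) := by
  funext a
  fin_cases a <;> exact map_mm g _ _ _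

theorem map_Con {h : Fin 10 → A} {q : M10 A} {f : Fin 5 → A} {l : A} {m μ : Fin 3 → Fin 10 → A}
    (H : Con h q f l m μ) :
    Con (g ∘ h) (q.map g) (g ∘ f) (g l) (fun a => g ∘ m a) fun a => g ∘ μ a := by
  refine ⟨?_, fun a => ?_, ?_⟩
  · rw [← map_Nm, ← maps2_mulVec, ← H.1]
  · rw [← map_ctM, ← maps2_mulVec, H.2.1, maps2_vzero]
  · simpa only [maps2_add, maps2_mul, maps2_tr, maps2_smul, map_msum, map_sy, map_Nm] using
      congrArg (·.map g) H.2.2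

end Maps

/-! Basic identities -/

section Ring

variable {A : Type*} [CommRing A]

theorem Nm_tr (f : Fin 5 → A) : (Nm f)ᵀ = Nm f := by
  ext i j
  fin_cases i <;> fin_cases j <;> rfl

theorem ct_Nm (f : Fin 5 → A) : ctM f * Nm f = 0 := by
  ext i j
  fin_cases i <;> fin_cases j <;> simp [ctM, Nm, mul_apply, Fin.sum_univ_succ] <;> ring

theorem dot_ct (f : Fin 5 → A) (y : Fin 10 → A) : f ⬝ᵥ ctM f *ᵥ y = 0 := by
  simp [ctM, dotProduct, mulVec, Fin.sum_univ_succ]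
  ring

theorem sy_tr (a b : Fin 10 → A) : (sy a b)ᵀ = sy a b := by
  rw [sy, transpose_add, transpose_vecMulVec, transpose_vecMulVec, add_comm]

theorem sy_comm (a b : Fin 10 → A) : sy a b = sy b a := add_comm _ _

theorem sy_mulVec (a b w : Fin 10 → A) : sy a b *ᵥ w = (b ⬝ᵥ w) • a + (a ⬝ᵥ w) • b := by
  simp only [sy, add_mulVec, vecMulVec_mulVec, op_smul_eq_smul]

theorem mul_sy {ι : Type*} (M : Matrix ι (Fin 10) A) (a b : Fin 10 → A) :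
    M * sy a b = vecMulVec (M *ᵥ a) b + vecMulVec (M *ᵥ b) a := by
  simp only [sy, Matrix.mul_add, mul_vecMulVec]

theorem xi0_n (f : Fin 5 → A) (j : Fin 5) : xi0 f ⬝ᵥ Nm f *ᵥ ell j = 0 := by
  fin_cases j <;> simp [xi0, Nm, ell, dotProduct, mulVec, Fin.sum_univ_succ] <;> ring

end Ring

end Pool.Agent.GMO
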