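import Pool.Agent.Work.MP_274aea_ag_Odd.Wit

-- merged part: Pool.Agent.Work.MP_274aea_ag_Odd.CurveA
section
/-! # Seed, symmetries and the reflection (PROOF.md, section 2) -/

set_option autoImplicit false

open Polynomial Matrix Pool.Agent.GM16 Pool.Agent.GM34

namespace Pool.Agent.GMO

variable {n : T8 ℕ} {p : T8 ℂ} {f : T8 ℂ[X]}

theorem curvea_tr {n' : T8 ℕ} {p' : T8 ℂ} {f' : T8 ℂ[X]} (h : Rig n p f) {S α β γ δ : ℂ[X]}
    (hS : S ≠ 0) (H : ∀ l' g', Df n' p' f' l' g' → ∃ l g, Df n p f l g ∧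
      (elf n l = 0 → elf n' l' = 0) ∧ (l' = 0 → l = 0 ∧
        S * wr (pr g' 0) (pr g' 1) = α * wr (pr g 0) (pr g 1) + β * wr (pr g 2) (pr g 3) ∧
        S * wr (pr g' 2) (pr g' 3) = γ * wr (pr g 0) (pr g 1) + δ * wr (pr g 2) (pr g 3))) :
    Rig n' p' f' := by
  refine ⟨fun l' g' hg => ?_, fun g' hg => ?_⟩
  · obtain ⟨l, g, h1, h2, -⟩ := H l' g' hg
    exact h2 (h.1 l g h1)
  · choose l g h1 _ h3 using fun j => H 0 (g' j) (hg j)
    obtain ⟨c, hc, e1, e2⟩ := h.2 g fun j => (h3 j rfl).1 ▸ h1 j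
    have a1 := fun j => (h3 j rfl).2.1
    have a2 := fun j => (h3 j rfl).2.2
    rw [Fin.sum_univ_four] at e1 e2
    refine ⟨c, hc, mul_left_cancel₀ hS ?_, mul_left_cancel₀ hS ?_⟩ <;> rw [Fin.sum_univ_four]
    · linear_combination C (c 0) * a1 0 + C (c 1) * a1 1 + C (c 2) * a1 2 + C (c 3) * a1 3 +
        α * e1 + β * e2
    · linear_combination C (c 0) * a2 0 + C (c 1) * a2 1 + C (c 2) * a2 2 + C (c 3) * a2 3 +
        γ * e1 + δ * e2

theorem curvea_pr {l : T8 ℂ} {g : T8 DP} (h : Df n p f l g) (hd : ∀ a i, (f a i).natDegree = n a i)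
    (a : Fin 4) : (pr g a).fst = pr f a ∧ (pr f a).natDegree ≤ n a 0 + n a 1 ∧
      (pr g a).snd.natDegree ≤ n a 0 + n a 1 := by
  refine ⟨by rw [pr, du_mul_fst, (h.1 a 0).1, (h.1 a 1).1, pr],
    natDegree_mul_le_of_le (hd a 0).le (hd a 1).le, ?_⟩
  rw [pr, du_mul_snd, (h.1 a 0).1, (h.1 a 1).1]
  exact natDegree_add_le_of_degree_le (natDegree_mul_le_of_le (hd a 0).le (h.1 a 1).2)
    (natDegree_mul_le_of_le (h.1 a 0).2 (hd a 1).le)

theorem curvea_sub (x y : DP) (u v : ℂ[X]) : (x - du u v * y).fst = x.fst - u * y.fst ∧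
    (x - du u v * y).snd = x.snd - (u * y.snd + v * y.fst) := by
  rw [TrivSqZeroExt.fst_sub, TrivSqZeroExt.snd_sub, du_mul_fst, du_mul_snd, du_fst, du_snd]
  exact ⟨rfl, rfl⟩

theorem curvea_deg {x y z : ℂ[X]} {k : ℕ} (hx : x.natDegree ≤ k) (hy : y.natDegree ≤ k)
    (hz : z.natDegree ≤ k) (u v : ℂ) : (x - (C u * y + C v * z)).natDegree ≤ k :=
  (natDegree_sub_le_of_le hx (natDegree_add_le_of_degree_le ((natDegree_C_mul_le _ _).trans hy)
    ((natDegree_C_mul_le _ _).trans hz))).trans (max_self k).le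

theorem curvea_zero {u w : DP} (h : u ∣ w) (h0 : w.fst = 0) (hu : u.fst.natDegree = 1)
    (hd : w.snd.natDegree ≤ 0) : w.snd = 0 := by
  obtain ⟨c, rfl⟩ := h
  have hu0 : u.fst ≠ 0 := fun e => by simp [e] at hu
  rw [du_mul_fst] at h0
  rw [du_mul_snd, (mul_eq_zero.1 h0).resolve_left hu0, mul_zero, add_zero] at hd ⊢
  exact eq_zero_of_dvd_of_natDegree_lt (dvd_mul_right _ _) (by omega)

theorem curvea_dep (w : Fin 4 → ℂ[X]) (hw : ∀ j, (w j).natDegree ≤ 2) :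
    ∃ c : Fin 4 → ℂ, c ≠ 0 ∧ ∑ j, C (c j) * w j = 0 := by
  obtain ⟨c, hc, h0⟩ := (Submodule.ne_bot_iff _).1 (LinearMap.ker_ne_bot_of_finrank_lt
    (f := (Matrix.of fun (i : Fin 3) j => (w j).coeff i).mulVecLin) (by simp))
  refine ⟨c, h0, Polynomial.ext fun i => ?_⟩
  rw [finsetSum_coeff, coeff_zero]
  simp only [coeff_C_mul]
  by_cases hi : i < 3
  · simpa [mulVec, dotProduct, mul_comm] using congrFun hc ⟨i, hi⟩
  · exact Finset.sum_eq_zero fun j _ => by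
      rw [coeff_eq_zero_of_natDegree_lt ((hw j).trans_lt (by omega)), mul_zero]

/-- `f = ![![X, 1], ![X + 1, 1], ![C (p 0 0), 1], ![1, 1]]`. In a deformation the number
`pr g 2 - p * pr g 3` has first part zero, so its second part is a constant divisible by a linear
polynomial. The four polynomials `wr` have degree at most two. -/
theorem gr_seed (hp : ∀ a i, p a i ≠ 0) (h : p 0 0 = p 1 0) :
    GR ![![1, 0], ![1, 0], ![0, 0], ![0, 0]] p := by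
  have hd : ∀ a i, ((![![X, 1], ![X + 1, 1], ![C (p 0 0), 1], ![1, 1]] : T8 ℂ[X]) a i).natDegree =
      (![![1, 0], ![1, 0], ![0, 0], ![0, 0]] : T8 ℕ) a i := fun a i => by
    fin_cases a <;> fin_cases i
    exacts [natDegree_X, natDegree_one, natDegree_X_add_C 1, natDegree_one, natDegree_C _,
      natDegree_one, natDegree_one, natDegree_one]
  have key : ∀ l g, Df ![![1, 0], ![1, 0], ![0, 0], ![0, 0]] p
      ![![X, 1], ![X + 1, 1], ![C (p 0 0), 1], ![1, 1]] l g → ∀ a : Fin 4, a < 2 →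
      (pr g 2).snd - (C (p 0 0) * (pr g 3).snd + C (p 0 0 * l a 0) * (pr g 3).fst) = 0 := by
    intro l g hg a ha
    obtain ⟨a2, -, c2⟩ := curvea_pr hg hd 2
    obtain ⟨a3, b3, c3⟩ := curvea_pr hg hd 3
    have e := curvea_sub (pr g 2) (pr g 3) (C (p 0 0)) (C (p 0 0 * l a 0))
    rw [← e.2]
    refine curvea_zero (u := g a 0) ?_ ?_ ?_ ?_
    · fin_cases a
      · exact (hg.2 0).1
      · exact h ▸ (hg.2 0).2.1
      all_goals exact absurd ha (by decide)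
    · rw [e.1, a2, a3]
      simp [pr]
    · rw [(hg.1 a 0).1, hd]
      fin_cases a
      exacts [rfl, rfl, absurd ha (by decide), absurd ha (by decide)]
    · rw [e.2]
      exact curvea_deg c2 c3 (a3 ▸ b3) _ _
  have hu : IsUnit (C (p 0 0)) := isUnit_C.2 (hp 0 0).isUnit
  refine ⟨![![X, 1], ![X + 1, 1], ![C (p 0 0), 1], ![1, 1]], ⟨fun a i => ?_, hd, rfl, rfl,
    ⟨-1, 1, by simp [pr]⟩, ⟨0, 1, by simp [pr]⟩, hp, fun i => ?_⟩, fun l g hg => ?_, fun g hg => ?_⟩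
  · fin_cases a <;> fin_cases i
    exacts [X_ne_zero, one_ne_zero, X_add_C_ne_zero 1, one_ne_zero, hu.ne_zero, one_ne_zero,
      one_ne_zero, one_ne_zero]
  · fin_cases i
    · exact ⟨by simp [pr], by simp [pr, h], hu.dvd, one_dvd _⟩
    · exact ⟨one_dvd _, one_dvd _, one_dvd _, one_dvd _⟩
  · have e0 := key l g hg 0 (by decide)
    have e1 := key l g hg 1 (by decide)
    have e3 : (pr g 3).fst = 1 := (curvea_pr hg hd 3).1.trans (by simp [pr])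
    rw [e3] at e0 e1
    have : l 0 0 = l 1 0 := mul_left_cancel₀ (hp 0 0) (C_injective (by linear_combination e1 - e0))
    simp [elf, Fin.sum_univ_two, this]
  · obtain ⟨c, hc, e⟩ := curvea_dep (fun j => wr (pr (g j) 0) (pr (g j) 1)) fun j => by
      obtain ⟨a0, b0, c0⟩ := curvea_pr (hg j) hd 0
      obtain ⟨a1, b1, c1⟩ := curvea_pr (hg j) hd 1
      exact (natDegree_sub_le_of_le (natDegree_mul_le_of_le c0 (a1 ▸ b1))
        (natDegree_mul_le_of_le (a0 ▸ b0) c1)).trans (by decide)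
    refine ⟨c, hc, e, Finset.sum_eq_zero fun j _ => mul_eq_zero_of_right _ ?_⟩
    have e0 := key 0 (g j) (hg j) 0 (by decide)
    rw [wr, (curvea_pr (hg j) hd 2).1, (curvea_pr (hg j) hd 3).1]
    simpa [pr] using e0

theorem gr_tau (h : GR n p) : GR ![n 2, n 3, n 0, n 1] ![p 2, p 3, p 0, p 1] := by
  obtain ⟨f, h, h'⟩ := h
  refine ⟨![f 2, f 3, f 0, f 1], ⟨fun a i => ?_, fun a i => ?_, h.bz, h.bx, h.cz, h.cx,
    fun a i => ?_, fun i => ⟨(h.dv i).2.2.1, (h.dv i).2.2.2, (h.dv i).1, (h.dv i).2.1⟩⟩,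
    curvea_tr h' (α := 0) (β := 1) (γ := 1) (δ := 0) one_ne_zero fun l g hg =>
      ⟨![l 2, l 3, l 0, l 1], ![g 2, g 3, g 0, g 1], ⟨fun a i => ?_, fun i =>
        ⟨(hg.2 i).2.2.1, (hg.2 i).2.2.2, (hg.2 i).1, (hg.2 i).2.1⟩⟩, fun e => ?_, fun e => ?_⟩⟩
  · fin_cases a <;> exact h.ne _ _
  · fin_cases a <;> exact h.deg _ _
  · fin_cases a <;> exact h.pn _ _
  · fin_cases a
    exacts [hg.1 2 i, hg.1 3 i, hg.1 0 i, hg.1 1 i]
  · simp [elf, Fin.sum_univ_two] at e ⊢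
    linear_combination -e
  · subst e
    exact ⟨by ext a; fin_cases a <;> rfl, by simp [pr], by simp [pr]⟩

theorem curvea_sig {B : Type} [CommRing B] {f p : T8 B} (h : Dv f p) :
    Dv ![f 0, f 1, ![f 2 1, f 2 0], ![f 3 1, f 3 0]]
      ![p 0, p 1, ![p 2 1, p 2 0], ![p 3 1, p 3 0]] := by
  have e : ∀ i, f 0 i ∣ f 2 1 * f 2 0 - p 0 i * (f 3 1 * f 3 0) ∧
      f 1 i ∣ f 2 1 * f 2 0 - p 1 i * (f 3 1 * f 3 0) := fun i => by
    rw [mul_comm (f 2 1), mul_comm (f 3 1)]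
    exact ⟨(h i).1, (h i).2.1⟩
  intro i
  fin_cases i
  exacts [⟨(e 0).1, (e 0).2, (h 1).2.2⟩, ⟨(e 1).1, (e 1).2, (h 0).2.2⟩]

theorem gr_sig (h : GR n p) :
    GR ![n 0, n 1, ![n 2 1, n 2 0], ![n 3 1, n 3 0]]
      ![p 0, p 1, ![p 2 1, p 2 0], ![p 3 1, p 3 0]] := by
  obtain ⟨f, h, h'⟩ := h
  refine ⟨![f 0, f 1, ![f 2 1, f 2 0], ![f 3 1, f 3 0]], ⟨fun a i => ?_, fun a i => ?_, h.bx,
    (add_comm _ _).trans (h.bz.trans (add_comm _ _)), h.cx, ?_, fun a i => ?_, fun i => ?_⟩,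
    curvea_tr h' (α := 1) (β := 0) (γ := 0) (δ := 1) one_ne_zero fun l g hg =>
      ⟨![l 0, l 1, ![l 2 1, l 2 0], ![l 3 1, l 3 0]], ![g 0, g 1, ![g 2 1, g 2 0], ![g 3 1, g 3 0]],
        ⟨fun a i => ?_, fun i => ?_⟩, fun e => ?_, fun e => ?_⟩⟩
  · fin_cases a <;> fin_cases i <;> exact h.ne _ _
  · fin_cases a <;> fin_cases i <;> exact h.deg _ _
  · have := h.cz
    rwa [pr, pr, mul_comm, mul_comm (f 3 0)] at this
  · fin_cases a <;> fin_cases i <;> exact h.pn _ _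
  · fin_cases i
    exacts [curvea_sig h.dv 0, curvea_sig h.dv 1]
  · fin_cases a <;> fin_cases i
    exacts [hg.1 0 0, hg.1 0 1, hg.1 1 0, hg.1 1 1, hg.1 2 1, hg.1 2 0, hg.1 3 1, hg.1 3 0]
  · fin_cases i
    exacts [curvea_sig hg.2 0, curvea_sig hg.2 1]
  · simp [elf, Fin.sum_univ_two] at e ⊢
    linear_combination e
  · subst e
    exact ⟨by ext a i; fin_cases a <;> fin_cases i <;> rfl, by simp [pr], by simp [pr, mul_comm]⟩

theorem curvea_scale {B : Type} [CommRing B] {f p : T8 B} (h : Dv f p) {u : B} (hu : IsUnit u) :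
    Dv ![f 0, f 1, ![u * f 2 0, f 2 1], ![u * f 3 0, f 3 1]] p := by
  have e : ∀ i, f 0 i ∣ u * f 2 0 * f 2 1 - p 0 i * (u * f 3 0 * f 3 1) ∧
      f 1 i ∣ u * f 2 0 * f 2 1 - p 1 i * (u * f 3 0 * f 3 1) := fun i =>
    ⟨(h i).1.trans ⟨u, by simp only [pr]; ring⟩, (h i).2.1.trans ⟨u, by simp only [pr]; ring⟩⟩
  intro i
  fin_cases i
  exacts [⟨(e 0).1, (e 0).2, hu.mul_left_dvd.2 (h 0).2.2.1, hu.mul_left_dvd.2 (h 0).2.2.2⟩,
    ⟨(e 1).1, (e 1).2, (h 1).2.2⟩]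

theorem gr_scale (h : Good n p f) (h' : Rig n p f) {t : ℂ} (ht : t ≠ 0) :
    Good n p ![f 0, f 1, ![C t * f 2 0, f 2 1], ![C t * f 3 0, f 3 1]] ∧
      Rig n p ![f 0, f 1, ![C t * f 2 0, f 2 1], ![C t * f 3 0, f 3 1]] := by
  have hu : IsUnit (C t) := isUnit_C.2 ht.isUnit
  have hi : C t⁻¹ * C t = 1 := by rw [← C_mul, inv_mul_cancel₀ ht, C_1]
  have k : ∀ {x : DP} {y : ℂ[X]} {m : ℕ}, x.fst = C t * y ∧ x.snd.natDegree ≤ m →
      (du (C t⁻¹) 0 * x).fst = y ∧ (du (C t⁻¹) 0 * x).snd.natDegree ≤ m := fun e => by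
    rw [du_mul_fst, du_mul_snd, du_fst, du_snd, e.1, ← mul_assoc, hi, one_mul, zero_mul, add_zero]
    exact ⟨rfl, (natDegree_C_mul_le _ _).trans e.2⟩
  refine ⟨⟨fun a i => ?_, fun a i => ?_, h.bx, h.bz, h.cx, ?_, h.pn, curvea_scale h.dv hu⟩,
    curvea_tr h' (S := C t⁻¹ ^ 2) (α := C t⁻¹ ^ 2) (β := 0) (γ := 0) (δ := 1)
      (pow_ne_zero _ (left_ne_zero_of_mul_eq_one hi)) fun l g hg =>
      ⟨l, ![g 0, g 1, ![du (C t⁻¹) 0 * g 2 0, g 2 1], ![du (C t⁻¹) 0 * g 3 0, g 3 1]],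
        ⟨fun a i => ?_, curvea_scale hg.2 ?_⟩, id, fun e => ⟨e, by simp [pr], ?_⟩⟩⟩
  · fin_cases a <;> fin_cases i <;> first | exact h.ne _ _ | exact mul_ne_zero hu.ne_zero (h.ne _ _)
  · fin_cases a <;> fin_cases i <;>
      first | exact h.deg _ _ | exact (natDegree_C_mul ht).trans (h.deg _ _)
  · change IsCoprime (C t * f 2 0 * f 2 1) (C t * f 3 0 * f 3 1)
    rw [mul_assoc, mul_assoc]
    exact (isCoprime_mul_unit_left hu _ _).2 h.cz
  · fin_cases a <;> fin_cases i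
    exacts [hg.1 0 0, hg.1 0 1, hg.1 1 0, hg.1 1 1, k (hg.1 2 0), hg.1 2 1, k (hg.1 3 0), hg.1 3 1]
  · exact TrivSqZeroExt.isUnit_iff_isUnit_fst.2 (by rw [du_fst]; exact .of_mul_eq_one _ hi)
  · change _ = _ + 1 * wr (du (C t⁻¹) 0 * g 2 0 * g 2 1) (du (C t⁻¹) 0 * g 3 0 * g 3 1)
    simp only [wr, pr, du_mul_fst, du_mul_snd, du_fst, du_snd]
    ring

/-- A factor of `x` is coprime to `z1` and `z0` (use `cop_iff`). -/
theorem Good.cross (h : Good n p f) (a b : Fin 4) (ha : a < 2) (hb : 2 ≤ b) (i j : Fin 2) :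
    IsCoprime (f a i) (f b j) := by
  have d : ∀ a i, f a i ∣ pr f a := fun a i => by
    fin_cases i
    exacts [dvd_mul_right _ _, dvd_mul_left _ _]
  have hd : f a i ∣ pr f 2 - C (p a i) * pr f 3 := by
    fin_cases a
    exacts [(h.dv i).1, (h.dv i).2.1, absurd ha (by decide), absurd ha (by decide)]
  refine cop_iff.2 fun s h1 h2 => ?_
  have e1 := eval_eq_zero_of_dvd_of_eval_eq_zero hd h1
  have e2 := eval_eq_zero_of_dvd_of_eval_eq_zero (d b j) h2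
  rw [eval_sub, eval_mul, eval_C, sub_eq_zero] at e1
  have e3 : (pr f 3).eval s = 0 := by
    fin_cases b
    exacts [absurd hb (by decide), absurd hb (by decide),
      (mul_eq_zero.1 (e1.symm.trans e2)).resolve_left (h.pn a i), e2]
  exact cop_iff.1 h.cz s (by rw [e1, e3, mul_zero]) e3

/-- The reflection over any commutative ring. -/
theorem dv_refl {B : Type} [CommRing B] {f p : T8 B} (h : Dv f p) {a b : B} {η : Fin 2 → B}
    (ha : pr f 0 - p 3 0 * pr f 1 = f 3 0 * a) (hb : pr f 0 - p 2 0 * pr f 1 = f 2 0 * b)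
    (hη : ∀ i, η i * p 2 0 = p 0 i * p 3 0) (h0 : ∀ i, IsCoprime (f 0 i) (f 3 0 * f 2 0))
    (h1 : ∀ i, IsCoprime (f 1 i) (f 3 0 * f 2 0)) :
    Dv ![f 0, f 1, ![a, f 2 1], ![b, f 3 1]] ![η, p 1, ![p 3 0, p 2 1], ![p 2 0, p 3 1]] := by
  have d : ∀ a i, f a i ∣ pr f a := fun a i => by
    fin_cases i
    exacts [dvd_mul_right _ _, dvd_mul_left _ _]
  have e : ∀ i, f 0 i ∣ a * f 2 1 - η i * (b * f 3 1) ∧ f 1 i ∣ a * f 2 1 - p 1 i * (b * f 3 1) := by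
    refine fun i => ⟨(h0 i).dvd_of_dvd_mul_left ?_, (h1 i).dvd_of_dvd_mul_left ?_⟩
    · have : f 3 0 * f 2 0 * (a * f 2 1 - η i * (b * f 3 1)) = pr f 0 * (pr f 2 - η i * pr f 3) -
          (pr f 2 - p 0 i * pr f 3) * (p 3 0 * pr f 1) := by
        rw [show pr f 2 = f 2 0 * f 2 1 from rfl, show pr f 3 = f 3 0 * f 3 1 from rfl]
        linear_combination η i * f 3 0 * f 3 1 * hb - f 2 0 * f 2 1 * ha +
          pr f 1 * f 3 0 * f 3 1 * hη i
      exact this ▸ ((d 0 i).mul_right _).sub ((h i).1.mul_right _)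
    · have : f 3 0 * f 2 0 * (a * f 2 1 - p 1 i * (b * f 3 1)) =
          (pr f 2 - p 1 i * pr f 3) * pr f 0 - pr f 1 * (p 3 0 * pr f 2 - p 1 i * p 2 0 * pr f 3) := by
        rw [show pr f 2 = f 2 0 * f 2 1 from rfl, show pr f 3 = f 3 0 * f 3 1 from rfl]
        linear_combination p 1 i * f 3 0 * f 3 1 * hb - f 2 0 * f 2 1 * ha
      exact this ▸ ((h i).2.1.mul_right _).sub ((d 1 i).mul_right _)
  intro i
  fin_cases i
  exacts [⟨(e 0).1, (e 0).2, ⟨f 3 0, ha.trans (mul_comm _ _)⟩, f 2 0, hb.trans (mul_comm _ _)⟩,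
    ⟨(e 1).1, (e 1).2, (h 1).2.2⟩]

theorem curvea_cop {x y : ℂ[X]} (h : IsCoprime x y) {u v : ℂ} (e : u ≠ v) :
    IsCoprime (x - C u * y) (x - C v * y) := by
  refine cop_iff.2 fun s h1 h2 => ?_
  rw [eval_sub, eval_mul, eval_C] at h1 h2
  have : y.eval s = 0 := mul_left_cancel₀ (sub_ne_zero.2 e) (by linear_combination h2 - h1)
  exact cop_iff.1 h s (by linear_combination h1 + u * this) this

theorem curvea_q (h : Good n p f) {a w : ℂ[X]} {u : ℂ} (ha : pr f 0 - C u * pr f 1 = w * a)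
    (c : (pr f 0 - C u * pr f 1).coeff (n 0 0 + n 0 1) ≠ 0) :
    a ≠ 0 ∧ w.natDegree + a.natDegree = n 0 0 + n 0 1 := by
  have e : (pr f 0 - C u * pr f 1).natDegree = n 0 0 + n 0 1 :=
    natDegree_eq_of_le_of_coeff_ne_zero ((natDegree_sub_le_of_le
      (natDegree_mul_le_of_le (h.deg 0 0).le (h.deg 0 1).le) ((natDegree_C_mul_le _ _).trans
        ((natDegree_mul_le_of_le (h.deg 1 0).le (h.deg 1 1).le).trans h.bx.ge))).trans
          (max_self _).le) c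
  rw [ha] at c e
  have := mul_ne_zero_iff.1 fun z : w * a = 0 => c (by rw [z, coeff_zero])
  exact ⟨this.2, (natDegree_mul this.1 this.2).symm.trans e⟩

theorem good_refl (h : Good n p f) {a b : ℂ[X]}
    (ha : pr f 0 - C (p 3 0) * pr f 1 = f 3 0 * a) (hb : pr f 0 - C (p 2 0) * pr f 1 = f 2 0 * b)
    (c3 : (pr f 0 - C (p 3 0) * pr f 1).coeff (n 0 0 + n 0 1) ≠ 0)
    (c2 : (pr f 0 - C (p 2 0) * pr f 1).coeff (n 0 0 + n 0 1) ≠ 0)
    (d1 : p 3 0 ≠ p 2 0) (d2 : p 3 0 ≠ p 3 1) (d3 : p 2 0 ≠ p 2 1) :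
    n 3 0 ≤ n 0 0 + n 0 1 ∧ n 2 0 ≤ n 0 0 + n 0 1 ∧
    Good ![n 0, n 1, ![n 0 0 + n 0 1 - n 3 0, n 2 1], ![n 0 0 + n 0 1 - n 2 0, n 3 1]]
      ![fun i => p 0 i * p 3 0 / p 2 0, p 1, ![p 3 0, p 2 1], ![p 2 0, p 3 1]]
      ![f 0, f 1, ![a, f 2 1], ![b, f 3 1]] := by
  obtain ⟨a0, a1⟩ := curvea_q h ha c3
  obtain ⟨b0, b1⟩ := curvea_q h hb c2
  rw [h.deg] at a1 b1
  have da : a ∣ pr f 0 - C (p 3 0) * pr f 1 := ha ▸ dvd_mul_left _ _
  have db : b ∣ pr f 0 - C (p 2 0) * pr f 1 := hb ▸ dvd_mul_left _ _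
  have bz := h.bz
  have v := dv_refl (η := fun i => C (p 0 i * p 3 0 / p 2 0)) h.dv ha hb
    (fun i => by rw [← C_mul, ← C_mul, div_mul_cancel₀ _ (h.pn 2 0)])
    (fun i => (h.cross 0 3 (by decide) (by decide) i 0).mul_right
      (h.cross 0 2 (by decide) (by decide) i 0))
    fun i => (h.cross 1 3 (by decide) (by decide) i 0).mul_right
      (h.cross 1 2 (by decide) (by decide) i 0)
  refine ⟨by omega, by omega, fun c i => ?_, fun c i => ?_, h.bx, ?_, h.cx, ?_, fun c i => ?_,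
    fun i => ?_⟩
  · fin_cases c <;> fin_cases i <;> first | exact h.ne _ _ | assumption
  · fin_cases c <;> fin_cases i <;>
      first | exact h.deg _ _ | exact Nat.eq_sub_of_add_eq' a1 | exact Nat.eq_sub_of_add_eq' b1
  · change n 0 0 + n 0 1 - n 3 0 + n 2 1 = n 0 0 + n 0 1 - n 2 0 + n 3 1
    omega
  · exact (((curvea_cop h.cx d1).mono da db).mul_right
      ((curvea_cop h.cx d2).mono da (h.dv 1).2.2.2)).mul_left
      (((curvea_cop h.cx d3.symm).mono (h.dv 1).2.2.1 db).mul_right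
        (h.cz.mono (dvd_mul_left _ _) (dvd_mul_left _ _)))
  · fin_cases c <;> fin_cases i <;>
      first | exact h.pn _ _ | exact div_ne_zero (mul_ne_zero (h.pn _ _) (h.pn _ _)) (h.pn _ _)
  · fin_cases i
    exacts [v 0, v 1]

theorem curvea_wr {x y u v A B z w : DP} {ξ ζ : ℂ[X]} (h3 : x - du ξ 0 * y = u * B)
    (h2 : x - du ζ 0 * y = v * A) : A.fst * B.fst * wr (u * z) (v * w) =
      z.fst * w.fst * (ξ - ζ) * wr x y + u.fst * v.fst * wr (A * z) (B * w) := by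
  obtain ⟨a1, a2⟩ := curvea_sub x y ξ 0
  obtain ⟨b1, b2⟩ := curvea_sub x y ζ 0
  have e : (ξ - ζ) * wr x y = (x.snd - (ξ * y.snd + 0 * y.fst)) * (x.fst - ζ * y.fst) -
      (x.fst - ξ * y.fst) * (x.snd - (ζ * y.snd + 0 * y.fst)) := by
    rw [wr]
    ring
  rw [← a1, ← a2, ← b1, ← b2, h3, h2] at e
  simp only [wr, du_mul_fst, du_mul_snd] at e ⊢
  linear_combination -z.fst * w.fst * e

/-- Reflect a deformation `g'` of the new configuration back (`quot_dual`, `dv_refl` over the dual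
numbers, `cop_dual`, `Good.cross` for the new configuration). With `S = f 3 0 * f 2 0`,
`S ^ 2 * w_z' = P_ξ * P_ζ * w_z + z1 * z0 * (ξ - ζ) * w_x`. -/
theorem rig_refl (h : Good n p f) (h' : Rig n p f) {a b : ℂ[X]}
    (ha : pr f 0 - C (p 3 0) * pr f 1 = f 3 0 * a) (hb : pr f 0 - C (p 2 0) * pr f 1 = f 2 0 * b)
    (e3 : n 3 0 ≤ n 0 0 + n 0 1) (e2 : n 2 0 ≤ n 0 0 + n 0 1)
    (hg : Good ![n 0, n 1, ![n 0 0 + n 0 1 - n 3 0, n 2 1], ![n 0 0 + n 0 1 - n 2 0, n 3 1]]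
      ![fun i => p 0 i * p 3 0 / p 2 0, p 1, ![p 3 0, p 2 1], ![p 2 0, p 3 1]]
      ![f 0, f 1, ![a, f 2 1], ![b, f 3 1]]) :
    Rig ![n 0, n 1, ![n 0 0 + n 0 1 - n 3 0, n 2 1], ![n 0 0 + n 0 1 - n 2 0, n 3 1]]
      ![fun i => p 0 i * p 3 0 / p 2 0, p 1, ![p 3 0, p 2 1], ![p 2 0, p 3 1]]
      ![f 0, f 1, ![a, f 2 1], ![b, f 3 1]] := by
  refine curvea_tr h' (S := f 2 0 * f 3 0) (α := f 2 0 * f 3 0) (β := 0)
    (γ := f 2 1 * f 3 1 * (C (p 3 0) - C (p 2 0))) (δ := a * b)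
    (mul_ne_zero (h.ne 2 0) (h.ne 3 0)) fun l g H => ?_
  obtain ⟨x1, x2, x3⟩ := curvea_pr H hg.deg 0
  obtain ⟨y1, y2, y3⟩ := curvea_pr H hg.deg 1
  have ga : (g 2 0).fst = a := (H.1 2 0).1
  have gb : (g 3 0).fst = b := (H.1 3 0).1
  have q : ∀ {u : DP} {w : ℂ[X]} {s t : ℂ} {k : ℕ}, u.fst ≠ 0 → k ≤ n 0 0 + n 0 1 →
      u ∣ pr g 0 - du (C s) (C t) * pr g 1 → pr f 0 - C s * pr f 1 = w * u.fst →
      u.fst.natDegree = n 0 0 + n 0 1 - k → u.snd.natDegree ≤ n 0 0 + n 0 1 - k →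
      w.natDegree = k → ∃ A : DP, pr g 0 - du (C s) (C t) * pr g 1 = u * A ∧ A.fst = w ∧
        A.snd.natDegree ≤ k := fun u0 k1 k2 k3 k4 k5 k6 => by
    refine quot_dual u0 k2 ?_ (k4 ▸ k5) k6.le ?_
    · rw [(curvea_sub ..).1, x1, y1]
      exact k3.trans (mul_comm _ _)
    · rw [(curvea_sub ..).2, k4, Nat.sub_add_cancel k1]
      exact curvea_deg x3 (y3.trans h.bx.ge) (y1 ▸ y2.trans h.bx.ge) _ _
  obtain ⟨A, A1, A2, A3⟩ := q (u := g 3 0) (gb ▸ hg.ne 3 0) e2 (H.2 0).2.2.2 (gb ▸ hb)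
    (gb ▸ hg.deg 3 0) (H.1 3 0).2 (h.deg 2 0)
  obtain ⟨B, B1, B2, B3⟩ := q (u := g 2 0) (ga ▸ hg.ne 2 0) e3 (H.2 0).2.2.1 (ga ▸ ha)
    (ga ▸ hg.deg 2 0) (H.1 2 0).2 (h.deg 3 0)
  have cp : ∀ c : Fin 4, c < 2 → ∀ i, IsCoprime (g c i) (g 3 0 * g 2 0) := fun c hc i =>
    (cop_dual (by rw [(H.1 c i).1, (H.1 3 0).1]; exact hg.cross c 3 hc (by decide) i 0)).mul_right
      (cop_dual (by rw [(H.1 c i).1, (H.1 2 0).1]; exact hg.cross c 2 hc (by decide) i 0))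
  have v := dv_refl (η := fun i => du (C (p 0 i)) (C (p 0 i * (l 0 i + l 3 0 - l 2 0)))) H.2 A1 B1
    (fun i => ?_) (cp 0 (by decide)) (cp 1 (by decide))
  · refine ⟨![fun i => l 0 i + l 3 0 - l 2 0, l 1, ![l 3 0, l 2 1], ![l 2 0, l 3 1]],
      ![g 0, g 1, ![A, g 2 1], ![B, g 3 1]], ⟨fun c i => ?_, fun i => ?_⟩, fun e => ?_, fun e => ?_⟩
    · fin_cases c <;> fin_cases i
      exacts [H.1 0 0, H.1 0 1, H.1 1 0, H.1 1 1, ⟨A2, A3⟩, H.1 2 1, ⟨B2, B3⟩, H.1 3 1]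
    · fin_cases i
      exacts [v 0, v 1]
    · simp [elf, Fin.sum_univ_two, e2, e3] at e ⊢
      linear_combination e
    · subst e
      refine ⟨by ext c i; fin_cases c <;> fin_cases i <;> simp, by simp [pr], ?_⟩
      have := curvea_wr (ξ := C (p 3 0)) (ζ := C (p 2 0)) (z := g 2 1) (w := g 3 1)
        (by simpa using B1) (by simpa using A1)
      rw [A2, B2, ga, gb, (H.1 2 1).1, (H.1 3 1).1] at this
      exact this
  · have k : p 0 i * p 3 0 / p 2 0 * p 2 0 = p 0 i * p 3 0 := div_mul_cancel₀ _ (h.pn 2 0)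
    change _ * du (C (p 3 0)) (C (p 3 0 * l 2 0)) = du (C (p 0 i * p 3 0 / p 2 0))
      (C (p 0 i * p 3 0 / p 2 0 * l 0 i)) * du (C (p 2 0)) (C (p 2 0 * l 3 0))
    refine TrivSqZeroExt.ext ?_ ?_ <;>
      simp only [du_mul_fst, du_mul_snd, du_fst, du_snd, ← C_mul, ← C_add]
    · rw [k]
    · exact congrArg C (by linear_combination -(l 0 i + l 3 0) * k)

end Pool.Agent.GMO
end

-- merged part: Pool.Agent.Work.MP_274aea_ag_Odd.CurveB
section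
/-! # Change of the point at infinity and the recursion (PROOF.md, section 2) -/

set_option autoImplicit false

open Polynomial Matrix Pool.Agent.GM16 Pool.Agent.GM34

namespace Pool.Agent.GMO

variable {n : T8 ℕ} {p : T8 ℂ}

/-- Move the point `a` to infinity. -/
noncomputable def mob (a : ℂ) (k : ℕ) (f : ℂ[X]) : ℂ[X] := reflect k (taylor a f)

/-- The inverse map. -/
noncomputable def mob' (a : ℂ) (k : ℕ) (f : ℂ[X]) : ℂ[X] := taylor (-a) (reflect k f)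

/-- What is used of `mob a` and `mob' a`. -/
structure Mob (T : ℕ → ℂ[X] → ℂ[X]) : Prop where
  add : ∀ k f g, T k (f + g) = T k f + T k g
  smul : ∀ k c f, T k (C c * f) = C c * T k f
  mul : ∀ k m f g, f.natDegree ≤ k → g.natDegree ≤ m → T (k + m) (f * g) = T k f * T m g
  deg : ∀ k f, f.natDegree ≤ k → (T k f).natDegree ≤ k

theorem mob_mob (a : ℂ) : Mob (mob a) := by
  refine ⟨fun k f g => ?_, fun k c f => ?_, fun k m f g hf hg => ?_, fun k f hf => ?_⟩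
  · rw [mob, map_add, reflect_add, mob, mob]
  · rw [mob, taylor_mul, taylor_C, reflect_C_mul, mob]
  · rw [mob, taylor_mul, reflect_mul _ _ (by rwa [natDegree_taylor]) (by rwa [natDegree_taylor]),
      mob, mob]
  · exact natDegree_reflect_le.trans (max_le le_rfl (by rwa [natDegree_taylor]))

theorem mob_mob' (a : ℂ) : Mob (mob' a) := by
  refine ⟨fun k f g => ?_, fun k c f => ?_, fun k m f g hf hg => ?_, fun k f hf => ?_⟩
  · rw [mob', reflect_add, map_add, mob', mob']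
  · rw [mob', reflect_C_mul, taylor_mul, taylor_C, mob']
  · rw [mob', reflect_mul _ _ hf hg, taylor_mul, mob', mob']
  · rw [mob', natDegree_taylor]
    exact natDegree_reflect_le.trans (max_le le_rfl hf)

theorem mob_inv (a : ℂ) (k : ℕ) (f : ℂ[X]) : mob a k (mob' a k f) = f := by
  rw [mob, mob', taylor_taylor, add_neg_cancel, taylor_zero, reflect_reflect]

theorem mob_inv' (a : ℂ) (k : ℕ) (f : ℂ[X]) : mob' a k (mob a k f) = f := by
  rw [mob, mob', reflect_reflect, taylor_taylor, neg_add_cancel, taylor_zero]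

theorem mob_coeff (a : ℂ) (k : ℕ) (f : ℂ[X]) : (mob a k f).coeff k = f.eval a := by
  rw [mob, coeff_reflect, revAt_le le_rfl, Nat.sub_self, taylor_coeff_zero]

theorem mob_cop (a : ℂ) {f g : ℂ[X]} (h : IsCoprime f g) (hf : f ≠ 0) {m : ℕ}
    (hg : g.natDegree ≤ m) : IsCoprime (mob a f.natDegree f) (mob a m g) := by
  obtain ⟨u, v, hu, hv, e⟩ := bez h hf hg
    ((mob_mob' a).deg (f.natDegree + m) 1 (by rw [natDegree_one]; exact Nat.zero_le _))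
  have e' := congrArg (mob a (f.natDegree + m)) e
  rw [mob_inv, (mob_mob a).add, (mob_mob a).mul _ _ _ _ le_rfl hu, add_comm f.natDegree m,
    (mob_mob a).mul _ _ _ _ hg hv] at e'
  exact ⟨_, _, by rw [e', mul_comm, mul_comm (mob a f.natDegree v)]⟩

/-- the map on dual numbers -/
noncomputable def curvebT (T : ℕ → ℂ[X] → ℂ[X]) (k : ℕ) (x : DP) : DP := du (T k x.fst) (T k x.snd)

def curvebB (k : ℕ) (x : DP) : Prop := x.fst.natDegree ≤ k ∧ x.snd.natDegree ≤ k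

theorem curveb_zero {T : ℕ → ℂ[X] → ℂ[X]} (hT : Mob T) (k : ℕ) : T k 0 = 0 := by
  simpa using hT.smul k 0 0

theorem curveb_sub {T : ℕ → ℂ[X] → ℂ[X]} (hT : Mob T) (k : ℕ) (f g : ℂ[X]) :
    T k (f - g) = T k f - T k g := by
  rw [eq_sub_iff_add_eq, ← hT.add, sub_add_cancel]

theorem curveb_Bmul {k m : ℕ} {x y : DP} (hx : curvebB k x) (hy : curvebB m y) :
    curvebB (k + m) (x * y) :=
  ⟨du_mul_fst x y ▸ natDegree_mul_le_of_le hx.1 hy.1, du_mul_snd x y ▸ natDegree_add_le_of_degree_le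
    (natDegree_mul_le_of_le hx.1 hy.2) (natDegree_mul_le_of_le hx.2 hy.1)⟩

theorem curveb_mul {T : ℕ → ℂ[X] → ℂ[X]} (hT : Mob T) {k m : ℕ} {x y : DP} (hx : curvebB k x)
    (hy : curvebB m y) : curvebT T (k + m) (x * y) = curvebT T k x * curvebT T m y := by
  refine TrivSqZeroExt.ext ?_ ?_
  · simp only [curvebT, du_mul_fst, du_fst, hT.mul _ _ _ _ hx.1 hy.1]
  · simp only [curvebT, du_mul_snd, du_fst, du_snd, hT.add, hT.mul _ _ _ _ hx.1 hy.2,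
      hT.mul _ _ _ _ hx.2 hy.1]

theorem curveb_lin {T : ℕ → ℂ[X] → ℂ[X]} (hT : Mob T) (k : ℕ) (x y : DP) (u v : ℂ) :
    curvebT T k (x - du (C u) (C v) * y) = curvebT T k x - du (C u) (C v) * curvebT T k y := by
  refine TrivSqZeroExt.ext ?_ ?_
  · simp only [curvebT, TrivSqZeroExt.fst_sub, du_mul_fst, du_fst, curveb_sub hT, hT.smul]
  · simp only [curvebT, TrivSqZeroExt.snd_sub, du_mul_snd, du_fst, du_snd, curveb_sub hT, hT.add,
      hT.smul]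

theorem curveb_Blin {k : ℕ} {x y : DP} (hx : curvebB k x) (hy : curvebB k y) (u v : ℂ) :
    curvebB k (x - du (C u) (C v) * y) := by
  have h := curveb_Bmul (k := 0) (x := du (C u) (C v))
    ⟨by rw [du_fst, natDegree_C], by rw [du_snd, natDegree_C]⟩ hy
  rw [zero_add] at h
  exact ⟨TrivSqZeroExt.fst_sub x _ ▸ (natDegree_sub_le _ _).trans (max_le hx.1 h.1),
    TrivSqZeroExt.snd_sub x _ ▸ (natDegree_sub_le _ _).trans (max_le hx.2 h.2)⟩

theorem curveb_wr {T : ℕ → ℂ[X] → ℂ[X]} (hT : Mob T) {k : ℕ} {x y : DP} (hx : curvebB k x)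
    (hy : curvebB k y) : wr (curvebT T k x) (curvebT T k y) = T (k + k) (wr x y) := by
  simp only [wr, curvebT, du_fst, du_snd, curveb_sub hT, hT.mul _ _ _ _ hx.2 hy.1,
    hT.mul _ _ _ _ hx.1 hy.2]

theorem curveb_pr {T : ℕ → ℂ[X] → ℂ[X]} (hT : Mob T) {g : T8 DP} (B : ∀ b i, curvebB (n b i) (g b i))
    (b : Fin 4) : pr (fun b i => curvebT T (n b i) (g b i)) b =
      curvebT T (n b 0 + n b 1) (pr g b) :=
  (curveb_mul hT (B b 0) (B b 1)).symm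

theorem curveb_map {A B : Type} [CommRing A] [CommRing B] (φ : A →+* B) {f q : T8 A}
    (h : Dv f q) : Dv (fun b i => φ (f b i)) fun b i => φ (q b i) := fun i => by
  obtain ⟨h0, h1, h2, h3⟩ := h i
  simpa only [pr, map_sub, map_mul] using
    And.intro (map_dvd φ h0) (And.intro (map_dvd φ h1) (And.intro (map_dvd φ h2) (map_dvd φ h3)))

/-- If `k ≤ e` use `quot_dual`; otherwise `P = 0`. -/
theorem Mob.dvd {T : ℕ → ℂ[X] → ℂ[X]} (hT : Mob T) {w P : DP} {k e : ℕ} (h0 : w.fst ≠ 0)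
    (h1 : w.fst.natDegree = k) (h2 : w.snd.natDegree ≤ k) (h3 : P.fst.natDegree ≤ e)
    (h4 : P.snd.natDegree ≤ e) (h : w ∣ P) :
    du (T k w.fst) (T k w.snd) ∣ du (T e P.fst) (T e P.snd) := by
  obtain ⟨c, hc⟩ := h
  have e1 : P.fst = w.fst * c.fst := by rw [hc, du_mul_fst]
  rcases le_or_gt k e with hk | hk
  · obtain ⟨m, rfl⟩ := Nat.exists_eq_add_of_le hk
    obtain ⟨b, hb, b1, b2⟩ := quot_dual (k := m) h0 ⟨c, hc⟩ e1 (h1 ▸ h2)
      (deg_quot h0 (by rw [← e1, h1]; exact h3)) (h1 ▸ h4)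
    have b0 : b.fst.natDegree ≤ m := b1 ▸ deg_quot h0 (by rw [← e1, h1]; exact h3)
    exact ⟨curvebT T m b, hb ▸ curveb_mul hT ⟨h1.le, h2⟩ ⟨b0, b2⟩⟩
  · have z : ∀ x : ℂ[X], (w.fst * x).natDegree ≤ e → x = 0 := fun x hx => by
      by_contra hx0
      rw [natDegree_mul h0 hx0] at hx
      omega
    have c1 : c.fst = 0 := z _ (e1 ▸ h3)
    have e2 : P.snd = w.fst * c.snd := by rw [hc, du_mul_snd, c1, mul_zero, add_zero]
    have c2 : c.snd = 0 := z _ (e2 ▸ h4)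
    rw [e1, e2, c1, c2, mul_zero, curveb_zero hT]
    exact ⟨0, TrivSqZeroExt.ext (by simp) (by simp)⟩

theorem curveb_dv {T : ℕ → ℂ[X] → ℂ[X]} (hT : Mob T) (bx : n 0 0 + n 0 1 = n 1 0 + n 1 1)
    (bz : n 2 0 + n 2 1 = n 3 0 + n 3 1) {g : T8 DP} {u v : T8 ℂ} (h0 : ∀ b i, (g b i).fst ≠ 0)
    (h1 : ∀ b i, (g b i).fst.natDegree = n b i) (h2 : ∀ b i, (g b i).snd.natDegree ≤ n b i)
    (h : Dv g fun b i => du (C (u b i)) (C (v b i))) :
    Dv (fun b i => curvebT T (n b i) (g b i)) fun b i => du (C (u b i)) (C (v b i)) := by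
  have B : ∀ b i, curvebB (n b i) (g b i) := fun b i => ⟨(h1 b i).le, h2 b i⟩
  have K : ∀ (b c d : Fin 4) (i : Fin 2), n c 0 + n c 1 = n d 0 + n d 1 →
      g b i ∣ pr g c - du (C (u b i)) (C (v b i)) * pr g d →
      curvebT T (n b i) (g b i) ∣ pr (fun b i => curvebT T (n b i) (g b i)) c -
        du (C (u b i)) (C (v b i)) * pr (fun b i => curvebT T (n b i) (g b i)) d := by
    intro b c d i e hd
    have hB := curveb_Blin (curveb_Bmul (B c 0) (B c 1)) (e ▸ curveb_Bmul (B d 0) (B d 1))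
      (u b i) (v b i)
    rw [curveb_pr hT B, curveb_pr hT B, ← e, ← curveb_lin hT]
    exact hT.dvd (h0 b i) (h1 b i) (h2 b i) hB.1 hB.2 hd
  exact fun i => ⟨K 0 2 3 i bz (h i).1, K 1 2 3 i bz (h i).2.1, K 2 0 1 i bx (h i).2.2.1,
    K 3 0 1 i bx (h i).2.2.2⟩

/-- Choose `a` outside the roots of the eight factors and of the two nonzero polynomials
`pr f 0 - C v * pr f 1`, `pr f 0 - C w * pr f 1`; the new factors are `mob a (n b i) (f b i)`. A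
deformation `g'` is carried back by `mob' a`. -/
theorem gr_mob (h : GR n p) (hn : 0 < n 0 0 + n 0 1) (v w : ℂ) :
    ∃ f, Good n p f ∧ Rig n p f ∧ (pr f 0 - C v * pr f 1).coeff (n 0 0 + n 0 1) ≠ 0 ∧
      (pr f 0 - C w * pr f 1).coeff (n 0 0 + n 0 1) ≠ 0 := by
  obtain ⟨f, hg, r1, r2⟩ := h
  have hpr : ∀ b, pr f b ≠ 0 ∧ (pr f b).natDegree = n b 0 + n b 1 := fun b =>
    ⟨mul_ne_zero (hg.ne b 0) (hg.ne b 1), by rw [pr, natDegree_mul (hg.ne b 0) (hg.ne b 1),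
      hg.deg, hg.deg]⟩
  have hU : ∀ u : ℂ, pr f 0 - C u * pr f 1 ≠ 0 := fun u hu => by
    have h1 : IsUnit (pr f 1) := hg.cx.isUnit_of_dvd' ⟨C u, by rw [sub_eq_zero.1 hu, mul_comm]⟩
      dvd_rfl
    have h2 := natDegree_eq_zero_of_isUnit h1
    rw [(hpr 1).2, ← hg.bx] at h2
    omega
  obtain ⟨a, ha⟩ : ∃ a, ((∏ b, ∏ i, f b i) * ((pr f 0 - C v * pr f 1) *
      (pr f 0 - C w * pr f 1))).eval a ≠ 0 := by
    by_contra hc
    exact mul_ne_zero (Finset.prod_ne_zero_iff.2 fun b _ => Finset.prod_ne_zero_iff.2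
      fun i _ => hg.ne b i) (mul_ne_zero (hU v) (hU w))
      (zero_of_eval_zero _ fun a => not_not.1 fun h => hc ⟨a, h⟩)
  rw [eval_mul, eval_mul, eval_prod, mul_ne_zero_iff, mul_ne_zero_iff,
    Finset.prod_ne_zero_iff] at ha
  have ha1 : ∀ b i, (mob a (n b i) (f b i)).coeff (n b i) ≠ 0 := fun b i => by
    have := ha.1 b (Finset.mem_univ _)
    rw [eval_prod, Finset.prod_ne_zero_iff] at this
    rw [mob_coeff]
    exact this i (Finset.mem_univ _)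
  have hT := mob_mob a
  have hT' := mob_mob' a
  have ne' : ∀ b i, mob a (n b i) (f b i) ≠ 0 := fun b i h0 => ha1 b i (by rw [h0, coeff_zero])
  have dg' : ∀ b i, (mob a (n b i) (f b i)).natDegree = n b i := fun b i =>
    natDegree_eq_of_le_of_coeff_ne_zero (hT.deg _ _ (hg.deg b i).le) (ha1 b i)
  have pr' : ∀ b, pr (fun b i => mob a (n b i) (f b i)) b = mob a (n b 0 + n b 1) (pr f b) :=
    fun b => (hT.mul _ _ _ _ (hg.deg b 0).le (hg.deg b 1).le).symm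
  have cf' : ∀ u : ℂ, (pr (fun b i => mob a (n b i) (f b i)) 0 -
      C u * pr (fun b i => mob a (n b i) (f b i)) 1).coeff (n 0 0 + n 0 1) =
      (pr f 0 - C u * pr f 1).eval a := fun u => by
    rw [pr', pr', ← hg.bx, ← hT.smul, ← curveb_sub hT, mob_coeff]
  have back : ∀ l g, Df n p (fun b i => mob a (n b i) (f b i)) l g →
      Df n p f l fun b i => curvebT (mob' a) (n b i) (g b i) := fun l g hd =>
    ⟨fun b i => ⟨by simp only [curvebT, du_fst, (hd.1 b i).1, mob_inv'],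
        by simp only [curvebT, du_snd]; exact hT'.deg _ _ (hd.1 b i).2⟩,
      curveb_dv hT' hg.bx hg.bz (fun b i => by rw [(hd.1 b i).1]; exact ne' b i)
        (fun b i => by rw [(hd.1 b i).1]; exact dg' b i) (fun b i => (hd.1 b i).2) hd.2⟩
  refine ⟨fun b i => mob a (n b i) (f b i), ⟨ne', dg', hg.bx, hg.bz, ?_, ?_, hg.pn, ?_⟩,
    ⟨fun l g hd => r1 l _ (back l g hd), fun g hd => ?_⟩, cf' v ▸ ha.2.1, cf' w ▸ ha.2.2⟩
  · rw [pr', pr', ← hg.bx, ← (hpr 0).2]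
    exact mob_cop a hg.cx (hpr 0).1 (by rw [(hpr 0).2, (hpr 1).2, hg.bx])
  · rw [pr', pr', ← hg.bz, ← (hpr 2).2]
    exact mob_cop a hg.cz (hpr 2).1 (by rw [(hpr 2).2, (hpr 3).2, hg.bz])
  · have h1 : Dv (fun b i => du (f b i) 0) fun b i => du (C (p b i)) (C 0) := by
      simpa only [du, map_zero, TrivSqZeroExt.inr_zero, add_zero, RingHom.coe_coe,
        TrivSqZeroExt.inlAlgHom_apply] using
        curveb_map (TrivSqZeroExt.inlAlgHom ℂ ℂ[X] ℂ[X] : ℂ[X] →+* DP) hg.dv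
    have h2 := curveb_dv hT hg.bx hg.bz (fun b i => by rw [du_fst]; exact hg.ne b i)
      (fun b i => by rw [du_fst]; exact hg.deg b i)
      (fun b i => by rw [du_snd, natDegree_zero]; exact Nat.zero_le _) h1
    simpa only [curvebT, du_fst, RingHom.coe_coe, TrivSqZeroExt.fstHom_apply] using
      curveb_map (TrivSqZeroExt.fstHom ℂ ℂ[X] ℂ[X] : DP →+* ℂ[X]) h2
  · obtain ⟨c, hc, s1, s2⟩ := r2 _ fun j => back 0 (g j) (hd j)
    have B : ∀ j b i, curvebB (n b i) (g j b i) := fun j b i =>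
      ⟨by rw [((hd j).1 b i).1]; exact (dg' b i).le, ((hd j).1 b i).2⟩
    have S : ∀ b b' : Fin 4, n b 0 + n b 1 = n b' 0 + n b' 1 →
        ∑ j, C (c j) * wr (pr (fun b i => curvebT (mob' a) (n b i) (g j b i)) b)
          (pr (fun b i => curvebT (mob' a) (n b i) (g j b i)) b') = 0 →
        ∑ j, C (c j) * wr (pr (g j) b) (pr (g j) b') = 0 := fun b b' e hs => by
      have h1 : ∀ j, wr (pr (fun b i => curvebT (mob' a) (n b i) (g j b i)) b)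
          (pr (fun b i => curvebT (mob' a) (n b i) (g j b i)) b') =
          mob' a (n b 0 + n b 1 + (n b 0 + n b 1)) (wr (pr (g j) b) (pr (g j) b')) := fun j => by
        rw [curveb_pr hT' (B j), curveb_pr hT' (B j), ← e]
        exact curveb_wr hT' (curveb_Bmul (B j b 0) (B j b 1))
          (e ▸ curveb_Bmul (B j b' 0) (B j b' 1))
      simp only [h1, Fin.sum_univ_four, ← hT'.smul, ← hT'.add] at hs
      rw [Fin.sum_univ_four, ← mob_inv a (n b 0 + n b 1 + (n b 0 + n b 1)) (_ + _ + _ + _), hs,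
        curveb_zero hT]
    exact ⟨c, hc, S 0 1 hg.bx s1, S 2 3 hg.bz s2⟩

theorem gr_refl (h : GR n p) (hn : 0 < n 0 0 + n 0 1) (d1 : p 3 0 ≠ p 2 0) (d2 : p 3 0 ≠ p 3 1)
    (d3 : p 2 0 ≠ p 2 1) :
    GR ![n 0, n 1, ![n 0 0 + n 0 1 - n 3 0, n 2 1], ![n 0 0 + n 0 1 - n 2 0, n 3 1]]
      ![fun i => p 0 i * p 3 0 / p 2 0, p 1, ![p 3 0, p 2 1], ![p 2 0, p 3 1]] := by
  obtain ⟨f, h1, h2, c3, c2⟩ := gr_mob h hn (p 3 0) (p 2 0)
  obtain ⟨a, ha⟩ := (h1.dv 0).2.2.2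
  obtain ⟨b, hb⟩ := (h1.dv 0).2.2.1
  obtain ⟨e3, e2, hg⟩ := good_refl h1 ha hb c3 c2 d1 d2 d3
  exact ⟨_, hg, rig_refl h1 h2 ha hb e3 e2 hg⟩

section Tables

variable {a0 a1 b0 b1 c0 c1 d0 d1 : ℕ} {x0 x1 y0 y1 z0 z1 w0 w1 : ℝ}

theorem curveb_r (h : GR ![![a0, a1], ![b0, b1], ![c0, c1], ![d0, d1]]
      ![![(x0 : ℂ), x1], ![y0, y1], ![z0, z1], ![w0, w1]]) {c' d' : ℕ} {x0' x1' : ℝ}
    (hn : 0 < a0 + a1) (e1 : w0 ≠ z0) (e2 : w0 ≠ w1) (e3 : z0 ≠ z1) (hc : a0 + a1 = c' + d0)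
    (hd : a0 + a1 = d' + c0) (hx0 : x0' = x0 * w0 / z0) (hx1 : x1' = x1 * w0 / z0) :
    GR ![![a0, a1], ![b0, b1], ![c', c1], ![d', d1]]
      ![![(x0' : ℂ), x1'], ![y0, y1], ![w0, z1], ![z0, w1]] := by
  obtain rfl : c' = a0 + a1 - d0 := by omega
  obtain rfl : d' = a0 + a1 - c0 := by omega
  have e : (fun i : Fin 2 => ![(x0 : ℂ), x1] i * w0 / z0) = ![(x0' : ℂ), x1'] := by
    rw [hx0, hx1, Complex.ofReal_div, Complex.ofReal_mul, Complex.ofReal_div, Complex.ofReal_mul]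
    funext i
    fin_cases i <;> rfl
  rw [← e]
  exact gr_refl h hn (Complex.ofReal_injective.ne e1) (Complex.ofReal_injective.ne e2)
    (Complex.ofReal_injective.ne e3)

theorem curveb_s (h : GR ![![a0, a1], ![b0, b1], ![c0, c1], ![d0, d1]]
      ![![(x0 : ℂ), x1], ![y0, y1], ![z0, z1], ![w0, w1]]) :
    GR ![![a0, a1], ![b0, b1], ![c1, c0], ![d1, d0]]
      ![![(x0 : ℂ), x1], ![y0, y1], ![z1, z0], ![w1, w0]] := gr_sig h

theorem curveb_t (h : GR ![![a0, a1], ![b0, b1], ![c0, c1], ![d0, d1]]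
      ![![(x0 : ℂ), x1], ![y0, y1], ![z0, z1], ![w0, w1]]) :
    GR ![![c0, c1], ![d0, d1], ![a0, a1], ![b0, b1]]
      ![![(z0 : ℂ), z1], ![w0, w1], ![x0, x1], ![y0, y1]] := gr_tau h

end Tables

theorem curveb_ne {x y : ℝ} (h : x * y < 0) : x ≠ y := fun e =>
  absurd (e ▸ h) (not_lt.2 (mul_self_nonneg y))

theorem curveb_P (k : ℕ) (θ0 θ1 ζ0 ζ1 ξ0 ξ1 : ℝ) (hθ : θ0 * θ1 < 0) (h00 : ξ0 * ζ0 < 0)
    (h01 : ξ0 * ζ1 < 0) (h10 : ξ1 * ζ0 < 0) (h11 : ξ1 * ζ1 < 0) (hξ : ξ0 ≠ ξ1) (hζ : ζ0 ≠ ζ1) :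
    GR ![![k + 1, k], ![k + 1, k], ![k, k], ![k, k]]
      ![![((θ0 / 2 ^ k : ℝ) : ℂ), (2 ^ (k + 1) * θ1 * ζ0 * ζ1 / (ξ0 * ξ1) : ℝ)], ![θ0, θ1],
        ![ζ0, ζ1], ![ξ0, ξ1]] := by
  induction k generalizing θ0 θ1 ζ0 ζ1 ξ0 ξ1 with
  | zero =>
    have t0 := left_ne_zero_of_mul hθ.ne
    have t1 := right_ne_zero_of_mul hθ.ne
    have x0 := left_ne_zero_of_mul h00.ne
    have z0 := right_ne_zero_of_mul h00.ne
    have x1 := left_ne_zero_of_mul h11.ne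
    have z1 := right_ne_zero_of_mul h11.ne
    refine gr_seed (fun a i => ?_) (by simp)
    fin_cases a <;> fin_cases i <;> simp [*]
  | succ k ih =>
    have t0 := left_ne_zero_of_mul hθ.ne
    have x0 := left_ne_zero_of_mul h00.ne
    have z0 := right_ne_zero_of_mul h00.ne
    have x1 := left_ne_zero_of_mul h11.ne
    have z1 := right_ne_zero_of_mul h11.ne
    have hq1 : (1 : ℝ) < 2 ^ (k + 1) := one_lt_pow₀ (by norm_num) k.succ_ne_zero
    have hq : (0 : ℝ) < 2 ^ (k + 1) := by positivity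
    have s : ∀ {x z : ℝ}, x * z < 0 → 2 ^ (k + 1) * z * x < 0 := fun {x z} h => by
      rw [mul_assoc, mul_comm z]
      exact mul_neg_of_pos_of_neg hq h
    have st : θ0 / 2 ^ (k + 1) * θ1 < 0 := by
      rw [div_mul_eq_mul_div]
      exact div_neg_of_neg_of_pos hθ hq
    have g0 := ih θ1 (θ0 / 2 ^ (k + 1)) ξ1 ξ0 (2 ^ (k + 1) * ζ1) (2 ^ (k + 1) * ζ0)
      (mul_comm θ1 _ ▸ st) (s h11) (s h01) (s h10) (s h00)
      (fun e => hζ (mul_left_cancel₀ hq.ne' e).symm) hξ.symm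
    have g1 := curveb_r g0 (c' := k + 1) (d' := k + 1) (x0' := 2 * θ1 * ζ1 / ξ1)
      (x1' := θ0 * ξ0 / (2 ^ (k + 1) * ζ0)) (by omega) (curveb_ne (s h11))
      (fun e => hζ (mul_left_cancel₀ hq.ne' e).symm) hξ.symm rfl rfl (by field_simp; ring)
      (by field_simp)
    have g2 := curveb_r (curveb_s g1) (c' := k + 1) (d' := k + 1)
      (x0' := 2 ^ (k + 1 + 1) * θ1 * ζ0 * ζ1 / (ξ0 * ξ1)) (x1' := θ0) (by omega)
      (curveb_ne (s h00)) (curveb_ne (s h10)) (curveb_ne (s h01)).symm rfl rfl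
      (by field_simp; ring) (by field_simp)
    have s3 : θ0 * (2 ^ (k + 1 + 1) * θ1 * ζ0 * ζ1 / (ξ0 * ξ1)) < 0 := by
      have e : θ0 * (2 ^ (k + 1 + 1) * θ1 * ζ0 * ζ1 / (ξ0 * ξ1)) =
          2 ^ (k + 1 + 1) * (ξ0 * ζ0 * (ξ1 * ζ1)) / (ξ0 * ξ1) ^ 2 * (θ0 * θ1) := by field_simp
      rw [e]
      exact mul_neg_of_pos_of_neg (div_pos (mul_pos (by positivity) (mul_pos_of_neg_of_neg h00 h11))
        (by positivity)) hθ
    exact curveb_t (curveb_r (curveb_s (curveb_t g2)) (c' := k + 1 + 1) (d' := k + 1 + 1)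
      (x0' := ζ0) (x1' := ζ1) (by omega) (fun e => hq1.ne' (mul_left_cancel₀ t0 ((div_eq_iff hq.ne').1 e |>.symm.trans
        (mul_one _).symm)))
      (curveb_ne st) (curveb_ne s3) (by omega) (by omega) (by field_simp) (by field_simp))

/-- Induction on `k`. Apply `gr_refl`, `gr_sig`, `gr_refl`, `gr_tau`, `gr_sig`, `gr_refl`, `gr_tau`
in this order to the case `k` with `θ = (θ1, θ0 / 2 ^ (k + 1))`, `ζ = (ξ1, ξ0)`,
`ξ = (2 ^ (k + 1) * ζ1, 2 ^ (k + 1) * ζ0)`. After each step restate degrees and parameters as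
explicit tables. -/
theorem gr_P (k : ℕ) (θ0 θ1 ζ0 ζ1 ξ0 ξ1 : ℝ) (hθ : θ0 * θ1 < 0) (h00 : ξ0 * ζ0 < 0)
    (h01 : ξ0 * ζ1 < 0) (h10 : ξ1 * ζ0 < 0) (h11 : ξ1 * ζ1 < 0) (hξ : ξ0 ≠ ξ1) (hζ : ζ0 ≠ ζ1) :
    GR ![![k + 1, k], ![k + 1, k], ![k, k], ![k, k]]
      ![![(θ0 : ℂ) / 2 ^ k, 2 ^ (k + 1) * θ1 * ζ0 * ζ1 / (ξ0 * ξ1)], ![θ0, θ1], ![ζ0, ζ1],
        ![ξ0, ξ1]] := by
  simpa only [Complex.ofReal_div, Complex.ofReal_mul, Complex.ofReal_pow, Complex.ofReal_ofNat]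
    using curveb_P k θ0 θ1 ζ0 ζ1 ξ0 ξ1 hθ h00 h01 h10 h11 hξ hζ

/-- One reflection of `gr_P k 1 (-1) (-1) (-2) 1 2`. -/
theorem gr_A (k : ℕ) : GR (nA k) (pA k) := by
  have h := curveb_r (curveb_P k 1 (-1) (-1) (-2) 1 2 (by norm_num) (by norm_num) (by norm_num)
    (by norm_num) (by norm_num) (by norm_num) (by norm_num)) (c' := k + 1) (d' := k + 1)
    (x0' := -(2 ^ k)⁻¹) (x1' := 2 ^ (k + 1)) (by omega) (by norm_num) (by norm_num) (by norm_num)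
    rfl rfl (by ring) (by ring)
  have e : nA k = ![![k + 1, k], ![k + 1, k], ![k + 1, k], ![k + 1, k]] := by
    funext a
    fin_cases a <;> rfl
  rw [e, pA]
  simpa only [Complex.ofReal_neg, Complex.ofReal_inv, Complex.ofReal_pow, Complex.ofReal_ofNat,
    Complex.ofReal_one] using h

end Pool.Agent.GMO
end

-- merged part: Pool.Agent.Work.MP_274aea_ag_Odd.Scalar
section
/-! # The special curves on the degenerate sextic (PROOF.md, sections 2 and 3) -/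

set_option autoImplicit false

open Polynomial Matrix Pool.Agent.GM16 Pool.Agent.GM34

namespace Pool.Agent.GMO

section Ring

variable {A : Type*} [CommRing A]

def PP (f : Fin 5 → A) (r : A) : Fin 5 → A :=
  ![(f 1 + f 4) * (2 * f 1 + f 4), (f 2 + f 0) * (f 2 - 2 * f 0),
    4 * f 1 ^ 2 + r * f 1 * f 3 - 2 * f 3 ^ 2, -2 * ((f 2 - f 4) * (f 2 + 2 * f 4)),
    2 * ((f 3 - f 0) * (f 3 + f 0))]

theorem Qk_mod (f : Fin 5 → A) (r : A) (i : Fin 5) :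
    f i ∣ Qk (kk f) r - (f (i + 2) * f (i + 3)) ^ 2 * PP f r i := by
  fin_cases i
  · exact ⟨4 * f 0 * f 1 ^ 2 * f 4 ^ 2 + f 0 * f 1 * f 3 * f 4 ^ 2 * r - f 2 * f 3 ^ 2 * f 4 ^ 2 -
      2 * f 0 * f 1 ^ 2 * f 2 * f 4 - 2 * f 0 * f 1 ^ 2 * f 2 ^ 2 - 2 * f 0 * f 3 ^ 2 * f 4 ^ 2,
      by simp [Qk, kk, PP]; ring⟩
  · exact ⟨4 * f 0 ^ 2 * f 1 * f 4 ^ 2 + 3 * f 2 ^ 2 * f 3 ^ 2 * f 4 + 2 * f 1 * f 2 ^ 2 * f 3 ^ 2 +
      f 0 ^ 2 * f 3 * f 4 ^ 2 * r - 2 * f 0 ^ 2 * f 1 * f 2 * f 4 - 2 * f 0 ^ 2 * f 1 * f 2 ^ 2,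
      by simp [Qk, kk, PP]; ring⟩
  · exact ⟨3 * f 1 * f 2 * f 3 ^ 2 * f 4 + 2 * f 1 ^ 2 * f 2 * f 3 ^ 2 + f 2 * f 3 ^ 2 * f 4 ^ 2 -
      f 0 * f 3 ^ 2 * f 4 ^ 2 - 2 * f 0 ^ 2 * f 1 ^ 2 * f 2 - 2 * f 0 ^ 2 * f 1 ^ 2 * f 4,
      by simp [Qk, kk, PP]; ring⟩
  · exact ⟨3 * f 1 * f 2 ^ 2 * f 3 * f 4 + 2 * f 1 ^ 2 * f 2 ^ 2 * f 3 +
      f 0 ^ 2 * f 1 * f 4 ^ 2 * r + f 2 ^ 2 * f 3 * f 4 ^ 2 - f 0 * f 2 * f 3 * f 4 ^ 2 -
      2 * f 0 ^ 2 * f 3 * f 4 ^ 2, by simp [Qk, kk, PP]; ring⟩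
  · exact ⟨4 * f 0 ^ 2 * f 1 ^ 2 * f 4 + 3 * f 1 * f 2 ^ 2 * f 3 ^ 2 +
      f 0 ^ 2 * f 1 * f 3 * f 4 * r + f 2 ^ 2 * f 3 ^ 2 * f 4 - f 0 * f 2 * f 3 ^ 2 * f 4 -
      2 * f 0 ^ 2 * f 1 ^ 2 * f 2 - 2 * f 0 ^ 2 * f 3 ^ 2 * f 4, by simp [Qk, kk, PP]; ring⟩

theorem scalar_num (k : ℕ) [k.AtLeastTwo] :
    (OfNat.ofNat k : DualNumber A).fst = OfNat.ofNat k ∧ (OfNat.ofNat k : DualNumber A).snd = 0 :=
  ⟨rfl, rfl⟩

theorem scalar_two : (2 : DualNumber A).fst = 2 ∧ (2 : DualNumber A).snd = 0 := scalar_num 2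

theorem scalar_nsmul (f : Fin 5 → A) (l r : A) : Del f l r =
    4 • (kk f 0 * kk f 0) - 2 • (kk f 1 * kk f 1) + 2 • (kk f 2 * kk f 2) + kk f 3 * kk f 3 -
      2 • (kk f 4 * kk f 4) - 2 • (kk f 0 * kk f 1) + 3 • (kk f 2 * kk f 3) - kk f 3 * kk f 4 +
      r * (kk f 4 * kk f 0) - l * (f 0 * f 1 * f 2 * f 3 * f 4) := by
  simp only [Del, Qk, nsmul_eq_mul, Nat.cast_ofNat]
  ring

theorem scalar_fst (F : Fin 5 → DualNumber A) (L R : DualNumber A) :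
    (Del F L R).fst = Del (fun i => (F i).fst) L.fst R.fst :=
  map_Del (TrivSqZeroExt.fstHom ℤ A A).toRingHom F L R

theorem scalar_grad (f : Fin 5 → A) (l r : A) : ∃ (G : Fin 5 → A) (k : A), ∀ δf δl δr,
    (Del (dn f δf) (du l δl) (du r δr)).snd =
      ∑ i, G i * δf i - f 0 * f 1 * f 2 * f 3 * f 4 * δl + k * δr := by
  refine ⟨fun i => (Del (dn f (Pi.single i 1)) (du l 0) (du r 0)).snd, kk f 4 * kk f 0,
    fun δf δl δr => ?_⟩
  simp [Del, Qk, kk, dn_du, Fin.sum_univ_five, scalar_two.1, scalar_two.2, (scalar_num 3).1,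
    (scalar_num 3).2, (scalar_num 4).1, (scalar_num 4).2, pow_two]
  ring

theorem scalar_cop {U V a : A} {p q w : A} (h : IsCoprime U V) (hw : w * (p - q) = 1)
    (ha : a ∣ U - p * V) : IsCoprime a (U - q * V) := by
  obtain ⟨s, t, h⟩ := h
  refine IsCoprime.of_isCoprime_of_dvd_left ⟨-w * (s * q + t), w * (s * p + t), ?_⟩ ha
  linear_combination h + (s * U + t * V) * hw

end Ring

/-- Both parts have degree at most `k`. -/
def scalar_Dg (k : ℕ) : AddSubgroup DP where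
  carrier := {a | a.fst.natDegree ≤ k ∧ a.snd.natDegree ≤ k}
  add_mem' ha hb :=
    ⟨natDegree_add_le_of_degree_le ha.1 hb.1, natDegree_add_le_of_degree_le ha.2 hb.2⟩
  zero_mem' := by simp
  neg_mem' ha := ⟨(natDegree_neg _).trans_le ha.1, (natDegree_neg _).trans_le ha.2⟩

theorem scalar_mul {k m : ℕ} {a b : DP} (ha : a ∈ scalar_Dg k) (hb : b ∈ scalar_Dg m) {s : ℕ}
    (h : k + m = s) : a * b ∈ scalar_Dg s := by
  subst h
  refine ⟨natDegree_mul_le_of_le ha.1 hb.1, ?_⟩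
  rw [du_mul_snd]
  exact natDegree_add_le_of_degree_le (natDegree_mul_le_of_le ha.1 hb.2)
    (natDegree_mul_le_of_le ha.2 hb.1)

theorem scalar_du {k : ℕ} {a b : ℂ[X]} (ha : a.natDegree ≤ k) (hb : b.natDegree ≤ k) :
    du a b ∈ scalar_Dg k :=
  ⟨by rwa [du_fst], by rwa [du_snd]⟩

theorem scalar_deg {e : ℕ} {F : Fin 5 → DP} {L R : DP} (hF : ∀ i, F i ∈ scalar_Dg e)
    (hL : L ∈ scalar_Dg e) (hR : R ∈ scalar_Dg 0) : Del F L R ∈ scalar_Dg (6 * e) := by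
  have h3 : ∀ i j k, F i * F j * F k ∈ scalar_Dg (3 * e) := fun i j k =>
    scalar_mul (scalar_mul (hF i) (hF j) rfl) (hF k) (by ring)
  have hk : ∀ i, kk F i ∈ scalar_Dg (3 * e) := fun i => by fin_cases i <;> exact h3 _ _ _
  have h : ∀ i j, kk F i * kk F j ∈ scalar_Dg (6 * e) := fun i j =>
    scalar_mul (hk i) (hk j) (by ring)
  have h2 := fun i j => nsmul_mem (h i j)
  rw [scalar_nsmul]
  exact sub_mem (add_mem (sub_mem (add_mem (sub_mem (sub_mem (add_mem (add_mem (sub_mem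
    (h2 _ _ _) (h2 _ _ _)) (h2 _ _ _)) (h _ _)) (h2 _ _ _)) (h2 _ _ _)) (h2 _ _ _)) (h _ _))
    (scalar_mul hR (h _ _) (zero_add _))) (scalar_mul hL (scalar_mul (scalar_mul (h3 _ _ _)
      (hF _) rfl) (hF _) rfl) (by ring))

theorem scalar_cop' {U V a : ℂ[X]} {p q : ℂ} (h : IsCoprime U V) (hp : p ≠ q)
    (ha : a ∣ U - C p * V) : IsCoprime a (U - C q * V) :=
  scalar_cop (w := C (p - q)⁻¹) h
    (by rw [← C_sub, ← C_mul, inv_mul_cancel₀ (sub_ne_zero.2 hp), C_1]) ha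

/-- A deformation that divides the product of two deformed members of a pencil splits. -/
theorem scalar_split {U V P : DP} {q : Fin 2 → DP} {p : Fin 2 → ℂ} {w : Fin 2 → ℂ[X]}
    {m : Fin 2 → ℕ} (h : IsCoprime U.fst V.fst) (hp : p 0 ≠ p 1) (hq : ∀ i, (q i).fst = C (p i))
    (hw : ∀ i, w i ∣ U.fst - C (p i) * V.fst) (h0 : w 0 ≠ 0) (hm : ∀ i, (w i).natDegree = m i)
    (hP : P.fst = w 0 * w 1) (hd : P.snd.natDegree ≤ m 0 + m 1)
    (hv : P ∣ 2 * ((U - q 0 * V) * (U - q 1 * V))) :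
    ∃ g : Fin 2 → DP, g 0 * g 1 = P ∧
      ∀ i, (g i).fst = w i ∧ (g i).snd.natDegree ≤ m i ∧ g i ∣ U - q i * V := by
  have c0 := scalar_cop' h hp (hw 0)
  have c1 := scalar_cop' h hp.symm (hw 1)
  obtain ⟨a, b, e, ha, hb, da, db⟩ := bez_dual (c0.of_isCoprime_of_dvd_right (hw 1)) h0 hP
    (by rwa [hm, hm])
  have hu : IsUnit (2 : DP) := by
    simpa only [map_ofNat] using (Ne.isUnit (two_ne_zero (α := ℂ))).map (algebraMap ℂ DP)
  rw [hu.dvd_mul_left, e] at hv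
  have k : ∀ i, (U - q i * V).fst = U.fst - C (p i) * V.fst := fun i => by
    rw [TrivSqZeroExt.fst_sub, du_mul_fst, hq]
  refine ⟨![a, b], e.symm, Fin.forall_fin_two.2 ⟨⟨ha, hm 0 ▸ da, ?_⟩, hb, hm 1 ▸ db, ?_⟩⟩
  · exact (cop_dual (a := a) (by rw [ha, k]; exact c0)).dvd_of_dvd_mul_right (dvd_of_mul_right_dvd hv)
  · exact (cop_dual (a := b) (by rw [hb, k]; exact c1)).dvd_of_dvd_mul_left (dvd_of_mul_left_dvd hv)

theorem scalar_zero {a b A B : ℂ[X]} {e : ℕ} (h : IsCoprime b a) (hb : b ≠ 0)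
    (he : b.natDegree = e) (h0 : A * b - a * B = 0) (hB : B.natDegree ≤ e) (hc : B.coeff e = 0) :
    A = 0 ∧ B = 0 := by
  have h1 : B = 0 := by
    refine eq_zero_of_dvd_of_degree_lt (h.dvd_of_dvd_mul_left ⟨A, by linear_combination -h0⟩) ?_
    rw [degree_eq_natDegree hb, he, degree_lt_iff_coeff_zero]
    intro m hm
    rcases hm.eq_or_lt with rfl | hm
    exacts [hc, coeff_eq_zero_of_natDegree_lt (hB.trans_lt hm)]
  simpa [h1, hb] using h0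

variable {n : ℕ} {f : T8 ℂ[X]}

theorem scalar_pr (h : Good (nA n) (pA n) f) (a : Fin 4) :
    pr f a ≠ 0 ∧ (pr f a).natDegree = 2 * n + 1 :=
  ⟨mul_ne_zero (h.ne a 0) (h.ne a 1), by
    rw [pr, natDegree_mul (h.ne a 0) (h.ne a 1), h.deg, h.deg]; simp [nA]; ring⟩

theorem scalar_cross (h : Good (nA n) (pA n) f) (a b : Fin 4) (ha : a < 2) (hb : 2 ≤ b) :
    IsCoprime (pr f a) (pr f b) :=
  ((h.cross a b ha hb 0 0).mul_right (h.cross a b ha hb 0 1)).mul_left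
    ((h.cross a b ha hb 1 0).mul_right (h.cross a b ha hb 1 1))

theorem scalar_pent (h : Good (nA n) (pA n) f) (hc : (pr f 3 + pr f 1).coeff (2 * n + 1) ≠ 0)
    (h0 : IsCoprime (pr f 3 + pr f 1) (pr f 0)) (h2 : IsCoprime (pr f 3 + pr f 1) (pr f 2)) :
    Pent (2 * n + 1) (ph f) := by
  have c := scalar_cross h
  have c13 := c 1 3 (by decide) (by decide)
  have h3 : IsCoprime (pr f 3 + pr f 1) (pr f 3) := by
    simpa [add_comm] using c13.add_mul_left_left 1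
  have h1 : IsCoprime (pr f 3 + pr f 1) (pr f 1) := by simpa using c13.symm.add_mul_left_left 1
  have c02 := c 0 2 (by decide) (by decide)
  have c03 := c 0 3 (by decide) (by decide)
  have c12 := c 1 2 (by decide) (by decide)
  refine ⟨fun i => ?_, fun i j hij => ?_⟩
  · fin_cases i
    exacts [⟨fun e => hc (by rw [show pr f 3 + pr f 1 = 0 from e, coeff_zero]),
      natDegree_eq_of_le_of_coeff_ne_zero (natDegree_add_le_of_degree_le (scalar_pr h 3).2.le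
        (scalar_pr h 1).2.le) hc⟩, scalar_pr h 3, scalar_pr h 0, scalar_pr h 2, scalar_pr h 1]
  · fin_cases i <;> fin_cases j
    exacts [absurd rfl hij, h3, h0, h2, h1, h3.symm, absurd rfl hij, c03.symm, h.cz.symm, c13.symm,
      h0.symm, c03, absurd rfl hij, c02, h.cx, h2.symm, h.cz, c02.symm, absurd rfl hij, c12.symm,
      h1.symm, c13, h.cx.symm, c12, absurd rfl hij]

theorem scalar_eta (n : ℕ) : pA n 0 0 ≠ pA n 0 1 ∧ pA n 0 0 * pA n 0 1 = -2 ∧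
    rn n = 2 * (pA n 0 0 + pA n 0 1) := by
  have h : pA n 0 0 * pA n 0 1 = -2 := by
    show -((2 : ℂ) ^ n)⁻¹ * 2 ^ (n + 1) = -2
    field_simp
    ring
  refine ⟨fun e => ?_, h, by simp only [rn, pA, cons_val_zero, cons_val_one]; ring⟩
  rw [e] at h
  have h1 : ((2 : ℂ) ^ (n + 1)) * 2 ^ (n + 1) = -2 := h
  have h2 : ((2 : ℝ) ^ (n + 1)) * 2 ^ (n + 1) = -2 := by exact_mod_cast h1
  nlinarith [mul_self_nonneg ((2 : ℝ) ^ (n + 1))]

/-- `gr_A`, then `gr_scale` with `t` from `gen_cop`, `gen_coeff` for `pr f 1 + C t * pr f 3`;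
the other pairs are coprime by `Good.cross`, `cx`, `cz`. -/
theorem sc_pent (n : ℕ) :
    ∃ f, Good (nA n) (pA n) f ∧ Rig (nA n) (pA n) f ∧ Pent (2 * n + 1) (ph f) := by
  obtain ⟨f, h, h'⟩ := gr_A n
  have p := scalar_pr h
  have e0 := gen_cop (U := pr f 1) (V := pr f 3) (H := pr f 0)
    (fun s a b => absurd b (cop_iff.1 h.cx s a)) (p 0).1
  have e2 := gen_cop (U := pr f 1) (V := pr f 3) (H := pr f 2)
    (fun s a _ => cop_iff.1 h.cz s a) (p 2).1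
  have e1 := gen_coeff (pr f 1) (V := pr f 3) (e := 2 * n + 1)
    (by rw [← (p 3).2]; exact leadingCoeff_ne_zero.2 (p 3).1)
  obtain ⟨t, ⟨t0, t2⟩, t1, ht⟩ :=
    ((e0.and e2).and (e1.and (Filter.eventually_cofinite_ne 0))).exists
  obtain ⟨g, g'⟩ := gr_scale h h' ht
  have e : pr ![f 0, f 1, ![C t * f 2 0, f 2 1], ![C t * f 3 0, f 3 1]] 3 +
      pr ![f 0, f 1, ![C t * f 2 0, f 2 1], ![C t * f 3 0, f 3 1]] 1 = pr f 1 + C t * pr f 3 := by
    simp [pr]; ring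
  refine ⟨_, g, g', scalar_pent g (e ▸ t1) (e ▸ t0) (e ▸ ?_)⟩
  have : pr ![f 0, f 1, ![C t * f 2 0, f 2 1], ![C t * f 3 0, f 3 1]] 2 = C t * pr f 2 := by
    simp [pr]; ring
  rw [this]
  exact (isCoprime_mul_unit_left_right (isUnit_C.2 ht.isUnit) _ _).2 t2

/-- Each `ph f i` divides `PP (ph f) r i` (`mul_dvd_mul`), so it divides `Qk`; the five are pairwise
coprime. -/
theorem sc_lam (h : Good (nA n) (pA n) f) (hp : Pent (2 * n + 1) (ph f)) :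
    ∃ l : ℂ[X], l.natDegree ≤ 2 * n + 1 ∧ Del (ph f) l (C (rn n)) = 0 := by
  obtain ⟨-, e1, e2⟩ := scalar_eta n
  have d0 : pr f 0 ∣ _ := mul_dvd_mul (h.dv 0).1 (h.dv 1).1
  have d1 : pr f 1 ∣ _ := mul_dvd_mul (h.dv 0).2.1 (h.dv 1).2.1
  have d2 : pr f 2 ∣ _ := mul_dvd_mul (h.dv 0).2.2.1 (h.dv 1).2.2.1
  have d3 : pr f 3 ∣ _ := mul_dvd_mul (h.dv 0).2.2.2 (h.dv 1).2.2.2
  have k1 : C (pA n 0 0) * C (pA n 0 1) = -2 := by rw [← C_mul, e1, C_neg, map_ofNat]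
  have k2 : C (rn n) = 2 * (C (pA n 0 0) + C (pA n 0 1)) := by rw [e2, C_mul, C_add, map_ofNat]
  obtain ⟨a0, d0⟩ := d0
  obtain ⟨a1, d1⟩ := d1
  obtain ⟨a2, d2⟩ := d2
  obtain ⟨a3, d3⟩ := d3
  simp only [pA, cons_val, cons_val_zero, cons_val_one, C_1, C_neg, map_ofNat] at d1 d2 d3
  have hP : ∀ i, ph f i ∣ PP (ph f) (C (rn n)) i := fun i => by
    fin_cases i
    · exact Dvd.intro _ rfl
    · exact ⟨a3 - pr f 0 - 4 * pr f 1 - 2 * pr f 3, by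
        simp only [ph, PP, Fin.reduceFinMk, cons_val]; linear_combination d3⟩
    · exact ⟨-2 * a0, by
        simp only [ph, PP, Fin.reduceFinMk, cons_val]
        linear_combination -2 * d0 + 2 * pr f 3 ^ 2 * k1 + pr f 3 * pr f 2 * k2⟩
    · exact ⟨-2 * a2, by
        simp only [ph, PP, Fin.reduceFinMk, cons_val]; linear_combination -2 * d2⟩
    · exact ⟨2 * (a1 - 2 * pr f 3 - pr f 1), by
        simp only [ph, PP, Fin.reduceFinMk, cons_val]; linear_combination 2 * d1⟩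
  obtain ⟨l, hl⟩ := Fintype.prod_dvd_of_coprime (s := ph f) hp.2 fun i =>
    (dvd_iff_dvd_of_dvd_sub (Qk_mod (ph f) (C (rn n)) i)).2 ((hP i).mul_left _)
  have hd := (scalar_deg (F := dn (ph f) 0) (L := 0) (R := du (C (rn n)) 0)
    (fun i => scalar_du (hp.1 i).2.le (by simp)) (zero_mem _) (scalar_du (by simp) (by simp))).1
  have h5 : (∏ i, ph f i).natDegree = 5 * (2 * n + 1) := by
    rw [natDegree_prod _ _ fun i _ => (hp.1 i).1]; simp [(hp.1 _).2]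
  refine ⟨l, deg_quot (f := ∏ i, ph f i) (Finset.prod_ne_zero_iff.2 fun i _ => (hp.1 i).1) ?_, ?_⟩
  · rw [← hl, h5]
    refine le_trans ?_ (hd.trans (by omega))
    rw [scalar_fst]
    simp [dn_du, Del]
  · rw [Del, hl, Fin.prod_univ_five]; ring

/-- An element of the kernel gives a deformation. Over the dual numbers `Del = 0`, so
`F i ∣ PP F r i` for `F = dn (ph f) δf`. From `i = 0`: `F 1 + F 4 = F 0 * du 1 (C c)`. Split
`F 1, F 2, F 3, F 4` by `bez_dual`; each factor is coprime to the other factor of `PP`. Here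
`u = δr / (2 * (pA n 0 0 - pA n 0 1))`. -/
theorem sc_def (h : Good (nA n) (pA n) f) (hp : Pent (2 * n + 1) (ph f)) {l δl : ℂ[X]}
    (hl : Del (ph f) l (C (rn n)) = 0) {δf : Fin 5 → ℂ[X]} {δr : ℂ}
    (hd : ∀ i, (δf i).natDegree ≤ 2 * n + 1)
    (h0 : (Del (dn (ph f) δf) (du l δl) (du (C (rn n)) (C δr))).snd = 0) :
    ∃ (c u : ℂ) (g : T8 DP),
      Df (nA n) (pA n) f ![![u, -u], ![-c, -c], ![0, 0], ![-c, -c]] g ∧
      pr g 3 = du (pr f 3) (δf 1) ∧ pr g 0 = du (pr f 0) (δf 2) ∧ pr g 2 = du (pr f 2) (δf 3) ∧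
      pr g 1 = du (pr f 1) (δf 4) ∧ δf 1 + δf 4 = δf 0 + C c * ph f 0 ∧
      δr = 2 * (pA n 0 0 - pA n 0 1) * u := by
  obtain ⟨e0, e1, e2⟩ := scalar_eta n
  obtain ⟨u, hu⟩ : ∃ u, δr = 2 * (pA n 0 0 - pA n 0 1) * u :=
    ⟨_, (mul_div_cancel₀ δr (mul_ne_zero two_ne_zero (sub_ne_zero.2 e0))).symm⟩
  obtain ⟨F, hF⟩ : ∃ F, F = dn (ph f) δf := ⟨_, rfl⟩
  obtain ⟨R, hR⟩ : ∃ R, R = du (C (rn n)) (C δr) := ⟨_, rfl⟩
  have F1 : ∀ i, (F i).fst = ph f i := fun i => by rw [hF, dn_du, du_fst]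
  have F2 : ∀ i, (F i).snd = δf i := fun i => by rw [hF, dn_du, du_snd]
  have hD : Del F (du l δl) R = 0 := TrivSqZeroExt.ext
    (by rw [scalar_fst, funext F1, hR, du_fst, du_fst]; exact hl) (by rw [hF, hR]; exact h0)
  have cp : ∀ i j, i ≠ j → IsCoprime (F i) (F j) := fun i j hij =>
    cop_dual (by rw [F1, F1]; exact hp.2 i j hij)
  have hP : ∀ i, F i ∣ PP F R i := fun i => by
    have a : F i ∣ Qk (kk F) R := by
      rw [sub_eq_zero.1 hD, ← Fin.prod_univ_five]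
      exact (Finset.dvd_prod_of_mem _ (Finset.mem_univ i)).mul_left _
    have ne : ∀ i : Fin 5, i ≠ i + 2 ∧ i ≠ i + 3 := by decide
    exact ((cp i _ (ne i).1).mul_right (cp i _ (ne i).2)).pow_right.dvd_of_dvd_mul_left
      ((dvd_iff_dvd_of_dvd_sub (Qk_mod F R i)).1 a)
  have c0 : IsCoprime (F 0) (2 * F 1 + F 4) := cop_dual (by
    have := (hp.2 0 1 (by decide)).add_mul_left_right 1
    rw [TrivSqZeroExt.fst_add, du_mul_fst, scalar_two.1, F1, F1, F1]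
    rwa [show ph f 1 + ph f 0 * 1 = 2 * ph f 1 + ph f 4 by
      simp only [ph, cons_val]; ring] at this)
  obtain ⟨b, b0, b1, b2⟩ := quot_dual (a := 1) (k := 0) (by rw [F1]; exact (hp.1 0).1)
    (c0.dvd_of_dvd_mul_right (hP 0)) (by rw [TrivSqZeroExt.fst_add, F1, F1, F1, mul_one]; rfl)
    (by rw [F1, F2, (hp.1 0).2]; exact hd 0) (by simp) (by
      rw [F1, (hp.1 0).2, TrivSqZeroExt.snd_add, F2, F2]
      exact natDegree_add_le_of_degree_le (hd 1) (hd 4))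
  obtain ⟨c, hc⟩ : ∃ c, b.snd = C c := ⟨_, eq_C_of_natDegree_le_zero b2⟩
  obtain ⟨β, hβ⟩ : ∃ β : DP, β = du 1 (-C c) := ⟨_, rfl⟩
  have hb : b * β = 1 := TrivSqZeroExt.ext (by simp [hβ, b1]) (by simp [hβ, b1, hc])
  have hF0 : F 0 = β * (F 1 + F 4) := by linear_combination -β * b0 - F 0 * hb
  have dm : ∀ i, (F i).snd.natDegree ≤ n + 1 + n := fun i => by rw [F2]; linarith [hd i]
  have cx : IsCoprime (F 2).fst (F 4).fst := by rw [F1, F1]; exact h.cx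
  have cz : IsCoprime (F 3).fst (F 1).fst := by rw [F1, F1]; exact h.cz
  obtain ⟨q, hq⟩ : ∃ q : T8 DP, q = fun a i => du (C (pA n a i))
    (C (pA n a i * ![![u, -u], ![-c, -c], ![0, 0], ![-c, -c]] a i)) := ⟨_, rfl⟩
  have q1 : ∀ a i, (q a i).fst = C (pA n a i) := fun a i => by rw [hq, du_fst]
  have k1 : q 0 0 * q 0 1 = -2 := TrivSqZeroExt.ext
    (by rw [du_mul_fst, q1, q1, ← C_mul, e1, C_neg, map_ofNat]; rfl)
    (by simp [hq, scalar_two.2]; ring)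
  have k2 : R = 2 * (q 0 0 + q 0 1) := TrivSqZeroExt.ext
    (by simp [hR, e2, q1, scalar_two.1, map_ofNat])
    (by simp [hR, hu, hq, scalar_two.1, scalar_two.2, map_ofNat]; ring)
  have k3 : q 1 0 = β ∧ q 1 1 = -β ∧ q 2 0 = 1 ∧ q 2 1 = -2 ∧ q 3 0 = -β ∧ q 3 1 = 2 * β := by
    refine ⟨?_, ?_, ?_, ?_, ?_, ?_⟩ <;> refine TrivSqZeroExt.ext ?_ ?_ <;>
      simp [hq, hβ, pA, scalar_two.1, scalar_two.2, map_ofNat]
  obtain ⟨k3, k4, k5, k6, k7, k8⟩ := k3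
  obtain ⟨a1, d1⟩ := hP 1
  obtain ⟨a2, d2⟩ := hP 2
  obtain ⟨a3, d3⟩ := hP 3
  obtain ⟨a4, d4⟩ := hP 4
  simp only [PP, cons_val, hF0] at d1 d2 d3 d4
  obtain ⟨g0, s0, t0⟩ := scalar_split (P := F 2) (q := q 0) cz e0 (q1 0)
    (fun i => by rw [F1, F1]; exact (h.dv i).1) (h.ne 0 0) (h.deg 0) (F1 2) (dm 2)
    ⟨-a2, by linear_combination -d2 + 2 * F 1 ^ 2 * k1 + F 1 * F 3 * k2⟩
  obtain ⟨g1, s1, t1⟩ := scalar_split (P := F 4) (q := q 1) cz (by simp [pA]; norm_num) (q1 1)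
    (fun i => by rw [F1, F1]; exact (h.dv i).2.1) (h.ne 1 0) (h.deg 1) (F1 4) (dm 4)
    ⟨a4 + 2 * β ^ 2 * (2 * F 1 + F 4), by rw [k3, k4]; linear_combination d4⟩
  obtain ⟨g2, s2, t2⟩ := scalar_split (P := F 3) (q := q 2) cx (by simp [pA]; norm_num) (q1 2)
    (fun i => by rw [F1, F1]; exact (h.dv i).2.2.1) (h.ne 2 0) (h.deg 2) (F1 3) (dm 3)
    ⟨-a3, by rw [k5, k6]; linear_combination -d3⟩
  obtain ⟨g3, s3, t3⟩ := scalar_split (P := F 1) (q := q 3) cx (by simp [pA]; norm_num) (q1 3)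
    (fun i => by rw [F1, F1]; exact (h.dv i).2.2.2) (h.ne 3 0) (h.deg 3) (F1 1) (dm 1)
    ⟨2 * (a1 + β * F 2 + 2 * β ^ 2 * (F 1 + 2 * F 4)), by rw [k7, k8]; linear_combination 2 * d1⟩
  have r0 : pr ![g0, g1, g2, g3] 0 = F 2 := s0
  have r1 : pr ![g0, g1, g2, g3] 1 = F 4 := s1
  have r2 : pr ![g0, g1, g2, g3] 2 = F 3 := s2
  have r3 : pr ![g0, g1, g2, g3] 3 = F 1 := s3
  refine ⟨c, u, ![g0, g1, g2, g3], ⟨fun a i => ?_, fun i => ?_⟩, r3.trans (congrFun hF 1),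
    r0.trans (congrFun hF 2), r2.trans (congrFun hF 3), r1.trans (congrFun hF 4), ?_, hu⟩
  · fin_cases a
    exacts [⟨(t0 i).1, (t0 i).2.1⟩, ⟨(t1 i).1, (t1 i).2.1⟩, ⟨(t2 i).1, (t2 i).2.1⟩,
      ⟨(t3 i).1, (t3 i).2.1⟩]
  · rw [r0, r1, r2, r3, ← hq]
    exact ⟨(t0 i).2.2, (t1 i).2.2, (t2 i).2.2, (t3 i).2.2⟩
  · have := congrArg TrivSqZeroExt.snd b0
    rw [TrivSqZeroExt.snd_add, du_mul_snd, F1, F2, F2, F2, b1, hc] at this
    linear_combination this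

/-- Four kernel elements with `c = 0` and vanishing top coefficients of `δf 1`, `δf 4` are
dependent. The first part of `Rig` gives `u = 0`, so `δr = 0`. -/
theorem sc_four (h : Good (nA n) (pA n) f) (h' : Rig (nA n) (pA n) f)
    (hp : Pent (2 * n + 1) (ph f)) {l : ℂ[X]} (hl : Del (ph f) l (C (rn n)) = 0)
    (δf : Fin 4 → Fin 5 → ℂ[X]) (δl : Fin 4 → ℂ[X]) (δr : Fin 4 → ℂ)
    (hd : ∀ j i, (δf j i).natDegree ≤ 2 * n + 1)
    (h0 : ∀ j, (Del (dn (ph f) (δf j)) (du l (δl j)) (du (C (rn n)) (C (δr j)))).snd = 0)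
    (h1 : ∀ j, (δf j 0).coeff (2 * n + 1) = 0 ∧ (δf j 1).coeff (2 * n + 1) = 0 ∧
      (δf j 4).coeff (2 * n + 1) = 0) :
    ∃ c : Fin 4 → ℂ, c ≠ 0 ∧ ∑ j, c j • δf j = 0 ∧ ∑ j, c j • δl j = 0 ∧ ∀ j, δr j = 0 := by
  choose c u g hg g3 g0 g2 g1 hs hr using fun j => sc_def h hp hl (hd j) (h0 j)
  have hc : ∀ j, c j = 0 := fun j => by
    have := congrArg (coeff · (2 * n + 1)) (hs j)
    simp only [coeff_add, coeff_C_mul, h1 j, zero_add] at this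
    exact (mul_eq_zero.1 this.symm).resolve_right
      ((hp.1 0).2 ▸ leadingCoeff_ne_zero.2 (hp.1 0).1)
  have hu : ∀ j, u j = 0 := fun j => by
    have := h'.1 _ _ (hg j)
    simp [elf, nA, hc] at this
    linear_combination this
  have hr0 : ∀ j, δr j = 0 := fun j => by rw [hr, hu, mul_zero]
  obtain ⟨a, a0, ax, az⟩ := h'.2 g fun j => by
    have := hg j
    rwa [hc, hu, show (![![0, -0], ![-0, -0], ![0, 0], ![-0, -0]] : T8 ℂ) = 0 by simp] at this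
  obtain ⟨A, hA⟩ : ∃ A : Fin 5 → ℂ[X], A = fun i => ∑ j, C (a j) * δf j i := ⟨_, rfl⟩
  have dA : ∀ i, (A i).natDegree ≤ 2 * n + 1 := fun i => hA ▸
    natDegree_sum_le_of_forall_le _ _ fun j _ => (natDegree_C_mul_le _ _).trans (hd j i)
  have p := scalar_pr h
  obtain ⟨A2, A4⟩ := scalar_zero (A := A 2) h.cx.symm (p 1).1 (p 1).2
    (by simp only [hA, ← ax, wr, g0, g1, du_fst, du_snd, Fin.sum_univ_four]; ring) (dA 4)
    (by simp [hA, h1])
  obtain ⟨A3, A1⟩ := scalar_zero (A := A 3) h.cz.symm (p 3).1 (p 3).2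
    (by simp only [hA, ← az, wr, g2, g3, du_fst, du_snd, Fin.sum_univ_four]; ring) (dA 1)
    (by simp [hA, h1])
  have A0 : A 0 = A 1 + A 4 := by
    simp only [hA, ← Finset.sum_add_distrib, ← mul_add, hs, hc, C_0, zero_mul, add_zero]
  have hA0 : ∀ i, A i = 0 := fun i => by
    fin_cases i
    exacts [by rw [A1, A4, add_zero] at A0; exact A0, A1, A2, A3, A4]
  refine ⟨a, a0, funext fun i => ?_, ?_, hr0⟩
  · simpa [hA, smul_eq_C_mul] using hA0 i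
  · obtain ⟨G, k, hG⟩ := scalar_grad (ph f) l (C (rn n))
    have z := fun i => (hp.1 i).1
    refine mul_left_cancel₀ (mul_ne_zero (mul_ne_zero (mul_ne_zero (mul_ne_zero (z 0) (z 1)) (z 2))
      (z 3)) (z 4)) ?_
    simp only [hG, hr0, Fin.sum_univ_five] at h0
    simp only [hA, Fin.sum_univ_four] at hA0
    simp only [smul_eq_C_mul, Fin.sum_univ_four, C_0] at h0 ⊢
    linear_combination G 0 * hA0 0 + G 1 * hA0 1 + G 2 * hA0 2 + G 3 * hA0 3 + G 4 * hA0 4 -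
      C (a 0) * h0 0 - C (a 1) * h0 1 - C (a 2) * h0 2 - C (a 3) * h0 3

/-- The linear map from `(Fin 6 → degreeLT ℂ (e + 1)) × ℂ` (dimension `6 * e + 7`) to
`degreeLT ℂ (6 * e + 1)`, joined with the three top coefficients to a map into a space of dimension
`6 * e + 4`, has a kernel of dimension at most three by `sc_four`, so it is onto. For linearity write
`Del` as `aeval` of a polynomial in seven variables (`map_Del`, `snd_add`, `snd_smul`, `snd_deg`), or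
expand the second part. -/
theorem sc_onto (h : Good (nA n) (pA n) f) (h' : Rig (nA n) (pA n) f)
    (hp : Pent (2 * n + 1) (ph f)) {l : ℂ[X]} (hd : l.natDegree ≤ 2 * n + 1)
    (hl : Del (ph f) l (C (rn n)) = 0) : ScalarOnto (2 * n + 1) (ph f) l (rn n) := by
  classical
  obtain ⟨G, k, hG⟩ := scalar_grad (ph f) l (C (rn n))
  have h4 := sc_four h h' hp hl
  generalize 2 * n + 1 = e at *
  have o : ∀ v : Fin (e + 1) → ℂ, (ofFn (e + 1) v).natDegree ≤ e := fun v =>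
    Nat.lt_succ_iff.1 (ofFn_natDegree_lt (by omega) v)
  let S : (Fin 5 → Fin (e + 1) → ℂ) × (Fin (e + 1) → ℂ) × ℂ → ℂ[X] := fun v =>
    (Del (dn (ph f) fun i => ofFn (e + 1) (v.1 i)) (du l (ofFn (e + 1) v.2.1))
      (du (C (rn n)) (C v.2.2))).snd
  have hS : ∀ v, (S v).natDegree < 6 * e + 1 := fun v => Nat.lt_succ_iff.2
    (scalar_deg (fun i => scalar_du (hp.1 i).2.le (o _)) (scalar_du hd (o _))
      (scalar_du (by simp) (by simp))).2
  have S1 : ∀ v w, S (v + w) = S v + S w := fun v w => by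
    simp only [S, hG, Fin.sum_univ_five, Prod.fst_add, Prod.snd_add, Pi.add_apply, map_add]
    ring
  have S2 : ∀ (c : ℂ) v, S (c • v) = c • S v := fun c v => by
    simp only [S, hG, Fin.sum_univ_five, Prod.smul_fst, Prod.smul_snd, Pi.smul_apply, map_smul,
      smul_eq_C_mul, smul_eq_mul, C_mul]
    ring
  let Φ : ((Fin 5 → Fin (e + 1) → ℂ) × (Fin (e + 1) → ℂ) × ℂ) →ₗ[ℂ]
      (Fin (6 * e + 1) → ℂ) × ℂ × ℂ × ℂ :=
    { toFun := fun v => (toFn _ (S v), v.1 0 (Fin.last e), v.1 1 (Fin.last e), v.1 4 (Fin.last e))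
      map_add' := fun v w => Prod.ext ((congrArg _ (S1 v w)).trans (map_add _ _ _)) rfl
      map_smul' := fun c v => Prod.ext ((congrArg _ (S2 c v)).trans (map_smul _ _ _)) rfl }
  have hk : Module.finrank ℂ (LinearMap.ker Φ) ≤ 3 := by
    by_contra hc
    obtain ⟨v, hv⟩ := exists_linearIndependent_of_le_finrank (n := 4) (not_le.1 hc)
    have hz : ∀ j, Φ (v j) = 0 := fun j => (v j).2
    obtain ⟨c, c0, c1, c2, c3⟩ := h4 (fun j i => ofFn (e + 1) ((v j).1.1 i))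
      (fun j => ofFn (e + 1) (v j).1.2.1) (fun j => (v j).1.2.2) (fun _ _ => o _)
      (fun j => (ofFn_comp_toFn_eq_id_of_natDegree_lt (hS (v j))).symm.trans
        (by rw [show toFn _ (S (v j)) = 0 from congrArg Prod.fst (hz j), map_zero]))
      (fun j => by
        simp only [ofFn_coeff_eq_val_of_lt _ e.lt_succ_self]
        exact ⟨congrArg (·.2.1) (hz j), congrArg (·.2.2.1) (hz j), congrArg (·.2.2.2) (hz j)⟩)
    refine c0 (funext (Fintype.linearIndependent_iff.1 hv c (Subtype.ext ?_)))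
    refine Prod.ext (funext fun i => injective_ofFn _ ?_) (Prod.ext (injective_ofFn _ ?_) ?_)
    · simpa [Prod.fst_sum] using congrFun c1 i
    · simpa [Prod.fst_sum, Prod.snd_sum] using c2
    · simp [Prod.snd_sum, c3]
  have hr : LinearMap.range Φ = ⊤ := by
    have := Φ.finrank_range_add_finrank_ker
    refine Submodule.eq_top_of_finrank_eq (le_antisymm (Submodule.finrank_le _) ?_)
    simp [Module.finrank_pi_fintype] at this ⊢
    omega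
  intro c hc
  obtain ⟨v, hv⟩ := LinearMap.range_eq_top.1 hr (toFn _ c, 0)
  refine ⟨_, _, v.2.2, fun i => o (v.1 i), o v.2.1, ?_⟩
  exact (ofFn_comp_toFn_eq_id_of_natDegree_lt (hS v)).symm.trans ((congrArg (ofFn _ ·.1) hv).trans
    (ofFn_comp_toFn_eq_id_of_natDegree_lt (Nat.lt_succ_iff.2 hc)))

theorem curve (n : ℕ) : ∃ (f : Fin 5 → ℂ[X]) (l : ℂ[X]), Pent (2 * n + 1) f ∧
    l.natDegree ≤ 2 * n + 1 ∧ Del f l (C (rn n)) = 0 ∧ ScalarOnto (2 * n + 1) f l (rn n) := by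
  obtain ⟨f, h, h', hp⟩ := sc_pent n
  obtain ⟨l, hd, hl⟩ := sc_lam h hp
  exact ⟨_, l, hp, hd, hl, sc_onto h h' hp hd hl⟩

end Pool.Agent.GMO
end
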