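import Pool.Agent.Work.MP_274aea_ag_Odd.Wit

/-! # The system of equations and its derivative (PROOF.md, section 5) -/

set_option autoImplicit false

open Polynomial Matrix Pool.Agent.GM16 Pool.Agent.GM34

namespace Pool.Agent.GMO

section Ring

variable {A : Type*} [CommRing A] (νh : Fin 10 → A) (νq : M10 A)

theorem Ten_tr (x : Va → A) : (Ten νh νq x)ᵀ = Ten νh νq x := by
  simp only [Ten, transpose_sub, transpose_mul, transpose_add, transpose_smul, transpose_sum, Nm_tr,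
    sy_tr, transpose_transpose, Matrix.mul_assoc, add_comm (q1 νq _ _)ᵀ]

/-- `dot_ct`, `ct_Nm`, `mul_sy`, `Ten_tr`. -/
theorem red_FF (x : Va → A) : Red νh x (FF νh νq x) = 0 := by
  funext k
  rcases k with a | ⟨i, j⟩ | ⟨i, j⟩
  · exact dot_ct _ _
  · have h : ∀ v, ctM (xf x) *ᵥ Nm (xf x) *ᵥ v = 0 := fun v => by rw [mulVec_mulVec, ct_Nm, zero_mulVec]
    have : ctM (xf x) * Ten νh νq x + ∑ a, vecMulVec (ctM (xf x) *ᵥ xe x a) (mm νh x a) = 0 := by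
      simp only [Ten, Matrix.mul_sub, Matrix.mul_add, Matrix.mul_smul, Matrix.mul_sum,
        ← Matrix.mul_assoc, ct_Nm, Matrix.zero_mul, mul_sy, h, zero_vecMulVec, mm, vecMulVec_add,
        vecMulVec_smul, Fin.sum_univ_five, pe, cons_val, vecMulVec_zero, smul_add, smul_zero]
      rw [zero_add 0, Matrix.zero_mul, show vecMulVec _ (0 : Fin 10 → A) = 0 from
        Matrix.ext fun _ _ => mul_zero _, smul_zero]
      abel
    exact congrFun (congrFun this i) j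
  · exact sub_eq_zero.2 (congrFun (congrFun (Ten_tr νh νq x).symm i) j)

theorem red_add (x : Va → A) (y y' : Eqn → A) :
    Red νh x (y + y') = Red νh x y + Red νh x y' := by
  funext k
  rcases k with a | ⟨i, j⟩ | ⟨i, j⟩
  · exact dotProduct_add _ (y1 y a) (y1 y' a)
  · simp only [Red, Sum.elim_inl, Sum.elim_inr, Pi.add_apply, Matrix.add_apply, mul_apply, y1, y2,
      of_apply, Matrix.sum_apply, vecMulVec_apply, mul_add, add_mul, Finset.sum_add_distrib]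
    ring
  · simp only [Red, Sum.elim_inr, Pi.add_apply, Matrix.sub_apply, y2, transpose_apply, of_apply]
    ring

theorem red_smul (x : Va → A) (c : A) (y : Eqn → A) : Red νh x (c • y) = c • Red νh x y := by
  funext k
  rcases k with a | ⟨i, j⟩ | ⟨i, j⟩
  · exact dotProduct_smul c _ (y1 y a)
  · simp only [Red, Sum.elim_inl, Sum.elim_inr, Pi.smul_apply, Matrix.add_apply, mul_apply, y1, y2,
      of_apply, Matrix.sum_apply, vecMulVec_apply, smul_eq_mul, mul_add, Finset.mul_sum,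
      mul_left_comm c, mul_assoc]
  · simp only [Red, Sum.elim_inr, Pi.smul_apply, Matrix.sub_apply, y2, transpose_apply, of_apply,
      smul_eq_mul, mul_sub]

theorem surj_N (f : Fin 5 → A) (a b : Fin 10 → A) :
    Nm f * sy a b * Nm f = sy (Nm f *ᵥ a) (Nm f *ᵥ b) := by
  rw [mul_sy, Matrix.add_mul, vecMulVec_mul, vecMulVec_mul, ← mulVec_transpose, ← mulVec_transpose,
    Nm_tr, sy]

theorem surj_add (a b c : Fin 10 → A) : sy (a + b) c = sy a c + sy b c := by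
  simp only [sy, add_vecMulVec, vecMulVec_add]
  abel

theorem surj_smul (t : A) (a c : Fin 10 → A) : sy (t • a) c = t • sy a c := by
  simp only [sy, smul_vecMulVec, vecMulVec_smul, smul_add]

theorem surj_add' (a b c : Fin 10 → A) : sy c (a + b) = sy c a + sy c b := by
  simp only [sy_comm c, surj_add]

theorem surj_smul' (t : A) (a c : Fin 10 → A) : sy c (t • a) = t • sy c a := by
  simp only [sy_comm c, surj_smul]

/-- `Nm f * sy a b * Nm f = sy (Nm f *ᵥ a) (Nm f *ᵥ b)`. -/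
theorem con_of {x : Va → A} (h : FF νh νq x = 0) :
    Con (hS νh (xs x)) (qS νq (xr x) (xs x)) (xf x) (xs x * xl x) (m3 νh x)
      ![xs x • xe x 0, mm νh x 2, mm νh x 4] := by
  have h1 : ∀ a, ctM (xf x) *ᵥ xe x a = 0 := fun a => funext fun i => congrFun h (.inl (a, i))
  have h2 : Ten νh νq x = 0 := Matrix.ext fun i j => congrFun h (.inr (.inl (i, j)))
  refine ⟨by simp [m3, mm, pe, lp], fun a => ?_, ?_⟩
  · fin_cases a <;> simp [m3, mm, pe, mulVec_add, mulVec_smul, h1, ct_Nm]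
  · have e : qS νq (xr x) (xs x) + (qS νq (xr x) (xs x))ᵀ = sy (ell 0) (ell 3) + sy (ell 1) (ell 4) +
        xs x • (q1 νq (xr x) (xs x) + (q1 νq (xr x) (xs x))ᵀ) := by
      simp only [qS, q0, sy, transpose_add, transpose_smul, transpose_vecMulVec, smul_add]
      abel
    rw [Ten, sub_sub, sub_sub, sub_eq_zero] at h2
    rw [e, Matrix.mul_add, Matrix.add_mul, Matrix.mul_smul, Matrix.smul_mul, h2, Matrix.mul_add,
      Matrix.add_mul, surj_N, surj_N]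
    simp only [Fin.sum_univ_three, Fin.sum_univ_five, m3, mm, lp, pe, cons_val, surj_add, surj_add',
      surj_smul, surj_smul', smul_zero, add_zero, sy_comm (Nm _ *ᵥ ell 0) (xe x _),
      sy_comm (Nm _ *ᵥ ell 1) (xe x _), sy_comm (xe x 2) (xe x 1), sy_comm (xe x 4) (xe x 3)]
    module

theorem edg_xi (f : Fin 5 → A) (j : Fin 5) : edg j ⬝ᵥ Nm f *ᵥ xi0 f = kk f j := by
  fin_cases j <;> simp [edg, Nm, xi0, kk, dotProduct, mulVec, Fin.sum_univ_succ] <;> ring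

theorem xi_xi (f : Fin 5 → A) : xi0 f ⬝ᵥ Nm f *ᵥ xi0 f = 2 * (f 0 * f 1 * f 2 * f 3 * f 4) := by
  simp [Nm, xi0, dotProduct, mulVec, Fin.sum_univ_succ]
  ring

/-- `xi0_n` kills the terms with `xe`. -/
theorem xi_Ten {x : Va → A} (h : xs x = 0) :
    xi0 (xf x) ⬝ᵥ Ten νh νq x *ᵥ xi0 (xf x) = 2 * Del (xf x) (xl x) (xr x) := by
  have h1 : ∀ a, xi0 (xf x) ⬝ᵥ Nm (xf x) *ᵥ lp νh 0 a = 0 := fun a => by
    fin_cases a <;> simp [lp, hS, mulVec_add, xi0_n]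
  have h2 : ∀ M : M10 A, xi0 (xf x) ⬝ᵥ (Nm (xf x) * M * Nm (xf x)) *ᵥ xi0 (xf x) =
      Nm (xf x) *ᵥ xi0 (xf x) ⬝ᵥ M *ᵥ Nm (xf x) *ᵥ xi0 (xf x) := fun M => by
    rw [← mulVec_mulVec, ← mulVec_mulVec, dotProduct_mulVec, ← mulVec_transpose, Nm_tr]
  have h3 : ∀ i j, ∀ v : Fin 10 → A, v ⬝ᵥ ev2 i j *ᵥ v = edg i ⬝ᵥ v * edg j ⬝ᵥ v := fun i j v => by
    simp [ev2, vecMulVec_mulVec, dotProduct_comm v, mul_comm]
  have h4 : ∀ (M : M10 A) v, v ⬝ᵥ (M + Mᵀ) *ᵥ v = 2 * v ⬝ᵥ M *ᵥ v := fun M v => by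
    rw [add_mulVec, dotProduct_add, mulVec_transpose, dotProduct_comm v (v ᵥ* M),
      ← dotProduct_mulVec, two_mul]
  simp only [Ten, h, zero_smul, sub_zero, sub_mulVec, dotProduct_sub, h2, h4]
  simp only [sub_mulVec, dotProduct_sub, zero_smul, dotProduct_zero, smul_mulVec,
    dotProduct_smul, xi_xi, sum_mulVec, dotProduct_sum, sy_mulVec, dotProduct_add, h1,
    dotProduct_comm (Nm _ *ᵥ lp _ _ _), q1, add_zero, qb, add_mulVec, h3, edg_xi, Del, Qk,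
    smul_eq_mul, mul_zero, zero_mul, Finset.sum_const_zero]
  ring

/-- For `σ = 0` the system is affine in `η`. -/
theorem FF_eta {x : Va → A} (h : xs x = 0) (w : Fin 5 → Fin 10 → A) :
    FF νh νq (x + mkV 0 0 w 0 0 0) = FF νh νq x +
      mkE (fun a => ctM (xf x) *ᵥ w a) (-∑ a, sy (w a) (Nm (xf x) *ᵥ lp νh 0 a)) 0 := by
  have e1 : xf (x + mkV 0 0 w 0 0 0) = xf x := funext fun _ => add_zero _
  have e2 : xl (x + mkV 0 0 w 0 0 0) = xl x := add_zero _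
  have e3 : xe (x + mkV 0 0 w 0 0 0) = xe x + w := rfl
  have e4 : xr (x + mkV 0 0 w 0 0 0) = xr x := add_zero _
  have e5 : xs (x + mkV 0 0 w 0 0 0) = 0 := (add_zero _).trans h
  have e6 : xz (x + mkV 0 0 w 0 0 0) = xz x := funext fun _ => funext fun _ => add_zero _
  simp only [FF, Ten, e1, e2, e3, e4, e5, e6, h, zero_smul, sub_zero, Pi.add_apply, surj_add,
    Finset.sum_add_distrib, mulVec_add]
  funext k
  rcases k with ⟨a, i⟩ | ⟨i, j⟩ | ⟨j, k⟩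
  · rfl
  · simp only [mkE, Sum.elim_inl, Sum.elim_inr, Pi.add_apply, Matrix.sub_apply, Matrix.add_apply,
      Matrix.neg_apply]
    ring
  · exact (add_zero _).symm

theorem surj_z {x : Va → A} (hs : xs x = 0) {j : Fin 2} {b c d a a' : A}
    (hz : xz x j = wit b c d + ![0, a, a', 0, 0, 0]) (k : Fin 2) :
    FF νh νq x (.inr (.inr (j, k))) = ![a, a' * (d * c - a' * b)] k := by
  simp only [FF, mkE, Sum.elim_inr, hs, hz, hS, qS, zero_smul, add_zero, wit_h, wit_q]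

theorem m3_zero {x : Va → A} (h : xs x = 0) : m3 νh x = n3 (xf x) := by
  simp [m3, n3, mm, lp, hS, h]

end Ring

variable {νh : Fin 10 → ℂ} {νq : M10 ℂ} {e : ℕ}

theorem surj_c {ι : Type} {A B : Type} [CommRing A] [CommRing B] (g : A →+* B) (v : ι → A)
    (i : ι) : (g ∘ v) i = g (v i) := rfl

theorem surj_const {x : Va → ℂ[X]} (hx : Dg (dV e) x) : ∃ (r σ : ℂ) (z : Fin 2 → Fin 6 → ℂ),
    xr x = C r ∧ xs x = C σ ∧ ∀ j, xz x j = C ∘ z j :=
  ⟨_, _, fun j i => (xz x j i).coeff 0, eq_C_of_natDegree_le_zero (hx _),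
    eq_C_of_natDegree_le_zero (hx vS), fun _ => funext fun _ => eq_C_of_natDegree_le_zero (hx _)⟩

theorem surj_n {f : Fin 5 → ℂ[X]} (hf : ∀ i, (f i).natDegree ≤ e) (σ : ℂ) (a : Fin 5) (i : Fin 10) :
    ((Nm f *ᵥ lp (C ∘ νh) (C σ) a) i).natDegree ≤ e := by
  rw [← map_lp]
  exact deg_mulVec (n := 0) (deg_Nm hf) (fun _ => (natDegree_C _).le) i

theorem dg_mm {x : Va → ℂ[X]} (hx : Dg (dV e) x) (a : Fin 5) (i : Fin 10) :
    (mm (C ∘ νh) x a i).natDegree ≤ e := by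
  obtain ⟨r, σ, z, -, h2, -⟩ := surj_const hx
  have he : ∀ a i, (xe x a i).natDegree ≤ e := fun a i => hx (.inr (.inr (.inl (a, i))))
  rw [mm, h2]
  refine poly_add (surj_n (fun i => hx (.inl i)) _ _ _) ((natDegree_C_mul_le _ _).trans ?_)
  fin_cases a
  exacts [Nat.zero_le _, he _ _, he _ _, he _ _, he _ _]

theorem dg_FF {x : Va → ℂ[X]} (hx : Dg (dV e) x) : Dg (dE e) (FF (C ∘ νh) (νq.map C) x) := by
  obtain ⟨r, σ, z, h1, h2, h3⟩ := surj_const hx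
  have he : ∀ a i, (xe x a i).natDegree ≤ e := fun a i => hx (.inr (.inr (.inl (a, i))))
  have hf : ∀ i, (xf x i).natDegree ≤ e := fun i => hx (.inl i)
  rintro (⟨a, i⟩ | ⟨i, j⟩ | ⟨j, k⟩)
  · exact (deg_mulVec (deg_ctM hf) (he a) i).trans_eq (two_mul e).symm
  · show (Ten _ _ x i j).natDegree ≤ 2 * e
    rw [Ten, h1, h2, two_mul, ← map_q1]
    refine poly_sub (poly_sub (poly_sub (deg_mul (deg_mul (n := 0) (deg_Nm hf) fun i j =>
      poly_add (natDegree_C _).le (natDegree_C _).le) (deg_Nm hf) i j)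
      (natDegree_mul_le_of_le (hx (.inr (.inl ()))) (deg_Nm hf i j))) ?_)
      ((natDegree_C_mul_le _ _).trans (poly_add (deg_sy (he _) (he _) i j)
        (deg_sy (he _) (he _) i j)))
    rw [Matrix.sum_apply]
    exact natDegree_sum_le_of_forall_le _ _ fun a _ => deg_sy (he a) (surj_n hf _ _) i j
  · fin_cases k
    · show natDegree (hS _ _ ⬝ᵥ _) ≤ 0
      rw [h2, h3, ← map_hS, ← primeb_map_pch, ← RingHom.map_dotProduct, natDegree_C]
    · show natDegree (bq _ _ _) ≤ 0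
      rw [h1, h2, h3, ← map_qS, ← primeb_map_pch, ← map_bq, natDegree_C]

/-- The point of the boundary. -/
structure Base (νh : Fin 10 → ℂ) (νq : M10 ℂ) (e : ℕ) (x : Va → ℂ[X]) (r b : ℂ)
    (c d : Fin 2 → ℂ) : Prop where
  dg : Dg (dV e) x
  pent : Pent e (xf x)
  s0 : xs x = 0
  r0 : xr x = C r
  z0 : ∀ j, xz x j = C ∘ wit b (c j) (d j)
  ne : ∀ j, c j ≠ 0 ∧ d j ≠ 0
  eq : FF (C ∘ νh) (νq.map C) x = 0
  onto : ScalarOnto e (xf x) (xl x) r

theorem surj_dg {f : Fin 5 → ℂ[X]} {l r σ : ℂ[X]} {η : Fin 5 → Fin 10 → ℂ[X]}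
    {z : Fin 2 → Fin 6 → ℂ[X]} (h1 : ∀ i, (f i).natDegree ≤ e) (h2 : l.natDegree ≤ e)
    (h3 : ∀ a i, (η a i).natDegree ≤ e) (h4 : r.natDegree ≤ 0) (h5 : σ.natDegree ≤ 0)
    (h6 : ∀ j i, (z j i).natDegree ≤ 0) : Dg (dV e) (mkV f l η r σ z) := by
  rintro (i | _ | ⟨a, i⟩ | _ | _ | ⟨j, i⟩)
  exacts [h1 i, h2, h3 a i, h4, h5, h6 j i]

theorem surj_wit {A B : Type} [CommRing A] [CommRing B] (g : A →+* B) (b c d : A) :
    g ∘ wit b c d = wit (g b) (g c) (g d) := by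
  simp only [wit, maps2_cons, maps2_nil, map_zero]

theorem surj_red {A : Type} [CommRing A] {νh : Fin 10 → A} {x : Va → A} {y : Eqn → A}
    (h : Red νh x y = 0) : (∀ a, xf x ⬝ᵥ y1 y a = 0) ∧ (y2 y)ᵀ = y2 y ∧
      ((∀ a, y1 y a = 0) → ctM (xf x) * y2 y = 0) := by
  refine ⟨fun a => congrFun h (.inl a), Matrix.ext fun i j =>
    (sub_eq_zero.1 (congrFun h (.inr (.inr (i, j))))).symm, fun h' => Matrix.ext fun i j => ?_⟩
  simpa [Red, h'] using congrFun h (.inr (.inl (i, j)))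

/-- Apply `lemB'` to `Ten` at the point with `η = 0`; `FF_eta`, `wit_h`, `wit_q`. -/
theorem base_ex {f : Fin 5 → ℂ[X]} {l : ℂ[X]} {r : ℂ} (hf : Pent e f) (hl : l.natDegree ≤ e)
    (h0 : Del f l (C r) = 0) (ho : ScalarOnto e f l r) (b : ℂ) {c d : Fin 2 → ℂ}
    (hn : ∀ j, c j ≠ 0 ∧ d j ≠ 0) : ∃ x, Base νh νq e x r b c d ∧ xf x = f := by
  set x := mkV f l 0 (C r) 0 fun j => C ∘ wit b (c j) (d j) with hx
  have z : ∀ k, (0 : ℂ[X]).natDegree ≤ k := fun k => Nat.zero_le k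
  have h1 : Dg (dV e) x := surj_dg (fun i => (hf.1 i).2.le) hl (fun _ _ => z _) (natDegree_C _).le
    (z _) fun _ _ => (natDegree_C _).le
  obtain ⟨-, r2, r3⟩ := surj_red (red_FF (C ∘ νh) (νq.map C) x)
  obtain ⟨η, d1, d2, d3⟩ := lemB' hf (C ∘ νh) r2 (r3 fun a => mulVec_zero (ctM f))
    (fun i j => dg_FF h1 (.inr (.inl (i, j))))
    ((xi_Ten (C ∘ νh) (νq.map C) (x := x) rfl).trans (mul_eq_zero_of_right 2 h0))
  have e1 : x + mkV 0 0 η 0 0 0 = mkV f l η (C r) 0 fun j => C ∘ wit b (c j) (d j) := by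
    funext k
    rcases k with i | _ | ⟨a, i⟩ | _ | _ | ⟨j, i⟩
    exacts [add_zero _, add_zero _, zero_add _, add_zero _, add_zero _, add_zero _]
  refine ⟨mkV f l η (C r) 0 fun j => C ∘ wit b (c j) (d j), ⟨surj_dg (fun i => (hf.1 i).2.le) hl d1
    (natDegree_C _).le (z _) fun _ _ => (natDegree_C _).le, hf, rfl, rfl, fun _ => rfl, hn, ?_, ho⟩,
    rfl⟩
  rw [← e1, FF_eta _ _ rfl]
  funext k
  rcases k with ⟨a, i⟩ | ⟨i, j⟩ | ⟨j, k⟩
  · exact congrFun (show ctM f *ᵥ 0 + ctM f *ᵥ η a = 0 by rw [d2, mulVec_zero, add_zero]) i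
  · exact add_neg_eq_zero.2 (congrFun (congrFun d3 i) j)
  · refine (add_zero _).trans ((surj_z _ _ (x := x) (j := j) (b := C b) (c := C (c j))
      (d := C (d j)) (a := 0) (a' := 0) rfl ?_ k).trans ?_)
    · rw [show (![0, 0, 0, 0, 0, 0] : Fin 6 → ℂ[X]) = 0 by simp, add_zero]
      exact surj_wit C b (c j) (d j)
    · fin_cases k <;> simp

/-- The derivative of the system. -/
noncomputable def dF (νh : Fin 10 → ℂ) (νq : M10 ℂ) (x v : Va → ℂ[X]) (k : Eqn) : ℂ[X] :=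
  (FF (algebraMap ℂ DP ∘ νh) (νq.map (algebraMap ℂ DP)) (dn x v) k).snd

theorem aeval_FF {A : Type} [CommRing A] [Algebra ℂ A] (x : Va → A) (k : Eqn) :
    MvPolynomial.aeval x (FF (MvPolynomial.C ∘ νh) (νq.map MvPolynomial.C) MvPolynomial.X k) =
      FF (algebraMap ℂ A ∘ νh) (νq.map (algebraMap ℂ A)) x k := by
  have := congrFun (map_FF ((MvPolynomial.aeval x : MvPolynomial Va ℂ →ₐ[ℂ] A) :
    MvPolynomial Va ℂ →+* A) (MvPolynomial.C ∘ νh) (νq.map MvPolynomial.C) MvPolynomial.X) k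
  simpa only [Function.comp_def, Matrix.map_map, RingHom.coe_coe, MvPolynomial.aeval_X,
    MvPolynomial.aeval_C] using this

theorem dF_add (x v w : Va → ℂ[X]) : dF νh νq x (v + w) = dF νh νq x v + dF νh νq x w := by
  funext k
  simp only [dF, Pi.add_apply, ← aeval_FF, snd_add]

theorem dF_deg {x v : Va → ℂ[X]} (hx : Dg (dV e) x) (hv : Dg (dV e) v) :
    Dg (dE e) (dF νh νq x v) := by
  intro k
  rw [dF, ← aeval_FF]
  exact snd_deg hx hv fun x hx => by rw [aeval_FF]; exact dg_FF hx k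

/-- At a solution `FF (dn x v) = ε • inl ∘ dF x v`. -/
theorem FF_dn {x : Va → ℂ[X]} (h : FF (C ∘ νh) (νq.map C) x = 0) (v : Va → ℂ[X]) :
    FF (algebraMap ℂ DP ∘ νh) (νq.map (algebraMap ℂ DP)) (dn x v) =
      (DualNumber.eps : DP) • fun k => TrivSqZeroExt.inl (dF νh νq x v k) := by
  funext k
  refine TrivSqZeroExt.ext ?_ (by simp [dF])
  rw [← aeval_FF, fst_dn, aeval_FF]
  simpa using congrFun h k

theorem surj_fst {ι : Type} (x v : ι → ℂ[X]) :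
    (TrivSqZeroExt.fstHom ℂ[X] ℂ[X] ℂ[X] : DP →+* ℂ[X]) ∘ dn x v = x :=
  funext fun i => du_fst (x i) (v i)

theorem surj_eps {a : DP} {b : ℂ[X]} (h : (DualNumber.eps : DP) * a = du 0 b) : a.fst = b := by
  simpa using congrArg TrivSqZeroExt.snd h

/-- `red_FF`, `red_smul` over the dual numbers, `map_Red` for `fstHom`. -/
theorem dF_red {x : Va → ℂ[X]} (h : FF (C ∘ νh) (νq.map C) x = 0) (v : Va → ℂ[X]) :
    Red (C ∘ νh) x (dF νh νq x v) = 0 := by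
  have h1 := red_FF (algebraMap ℂ DP ∘ νh) (νq.map (algebraMap ℂ DP)) (dn x v)
  rw [FF_dn h, red_smul] at h1
  have h2 := map_Red (TrivSqZeroExt.fstHom ℂ[X] ℂ[X] ℂ[X] : DP →+* ℂ[X]) (algebraMap ℂ DP ∘ νh)
    (dn x v) fun k => TrivSqZeroExt.inl (dF νh νq x v k)
  rw [surj_fst] at h2
  funext k
  exact (congrFun h2 k).symm.trans (surj_eps ((congrFun h1 k).trans (by simp [du])))

theorem dF_xi {x v : Va → ℂ[X]} (h : FF (C ∘ νh) (νq.map C) x = 0) (hs : xs x = 0)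
    (hv : xs v = 0) : xi0 (xf x) ⬝ᵥ y2 (dF νh νq x v) *ᵥ xi0 (xf x) =
      2 * (Del (dn (xf x) (xf v)) (du (xl x) (xl v)) (du (xr x) (xr v))).snd := by
  have h1 := xi_Ten (algebraMap ℂ DP ∘ νh) (νq.map (algebraMap ℂ DP)) (x := dn x v)
    (show du (xs x) (xs v) = 0 by simp [hs, hv, du])
  have h2 : Ten (algebraMap ℂ DP ∘ νh) (νq.map (algebraMap ℂ DP)) (dn x v) =
      (DualNumber.eps : DP) • (y2 (dF νh νq x v)).map TrivSqZeroExt.inl :=
    Matrix.ext fun i j => congrFun (FF_dn h v) (.inr (.inl (i, j)))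
  rw [h2, smul_mulVec, dotProduct_smul] at h1
  have h3 := (TrivSqZeroExt.fstHom ℂ[X] ℂ[X] ℂ[X] : DP →+* ℂ[X]).map_dotProduct
    (xi0 (xf (dn x v))) ((y2 (dF νh νq x v)).map TrivSqZeroExt.inl *ᵥ xi0 (xf (dn x v)))
  rw [maps2_mulVec, map_xi0, show xf (dn x v) = dn (xf x) (xf v) from rfl, surj_fst,
    show ((y2 (dF νh νq x v)).map TrivSqZeroExt.inl).map
      (TrivSqZeroExt.fstHom ℂ[X] ℂ[X] ℂ[X] : DP →+* ℂ[X]) = y2 (dF νh νq x v) from rfl] at h3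
  have h4 := congrArg TrivSqZeroExt.snd h1
  rw [smul_eq_mul, du_mul_snd, two_mul, TrivSqZeroExt.snd_add, ← two_mul, DualNumber.fst_eps,
    DualNumber.snd_eps, zero_mul, one_mul, zero_add,
    show xf (dn x v) = dn (xf x) (xf v) from rfl, show xl (dn x v) = du (xl x) (xl v) from rfl,
    show xr (dn x v) = du (xr x) (xr v) from rfl] at h4
  rw [← h3, ← h4, RingHom.coe_coe, TrivSqZeroExt.fstHom_apply]

theorem surj_dn (x v : Va → ℂ[X]) : dn x v =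
    TrivSqZeroExt.inlHom ℂ[X] ℂ[X] ∘ x + (TrivSqZeroExt.inr : ℂ[X] → DP) ∘ v := rfl

theorem surj_inl (x : Va → ℂ[X]) : FF (algebraMap ℂ DP ∘ νh) (νq.map (algebraMap ℂ DP))
    (TrivSqZeroExt.inlHom ℂ[X] ℂ[X] ∘ x) =
      TrivSqZeroExt.inlHom ℂ[X] ℂ[X] ∘ FF (C ∘ νh) (νq.map C) x := by
  rw [map_FF, Matrix.map_map]
  rfl

theorem dF_eta {x : Va → ℂ[X]} (hs : xs x = 0) (w : Fin 5 → Fin 10 → ℂ[X]) :
    dF νh νq x (mkV 0 0 w 0 0 0) =
      mkE (fun a => ctM (xf x) *ᵥ w a) (-∑ a, sy (w a) (Nm (xf x) *ᵥ lp (C ∘ νh) 0 a)) 0 := by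
  have e : (TrivSqZeroExt.inr : ℂ[X] → DP) ∘ mkV 0 0 w 0 0 0 =
      mkV 0 0 (fun a => (DualNumber.eps : DP) • TrivSqZeroExt.inlHom ℂ[X] ℂ[X] ∘ w a) 0 0 0 := by
    funext k
    rcases k with i | _ | ⟨a, i⟩ | _ | _ | ⟨j, i⟩ <;> simp [mkV, TrivSqZeroExt.ext_iff]
  have h0 : xs (TrivSqZeroExt.inlHom ℂ[X] ℂ[X] ∘ x) = 0 :=
    (congrArg (TrivSqZeroExt.inlHom ℂ[X] ℂ[X]) hs).trans (map_zero _)
  have e1 : xf (TrivSqZeroExt.inlHom ℂ[X] ℂ[X] ∘ x) = TrivSqZeroExt.inlHom ℂ[X] ℂ[X] ∘ xf x := rfl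
  have e2 : ∀ a, lp (algebraMap ℂ DP ∘ νh) 0 a =
      TrivSqZeroExt.inlHom ℂ[X] ℂ[X] ∘ lp (C ∘ νh) 0 a := fun a => by
    rw [map_lp, map_zero]
    rfl
  funext k
  rw [dF, surj_dn, e, FF_eta _ _ h0, surj_inl, e1]
  simp only [e2, ← map_ctM, ← map_Nm, mulVec_smul, surj_smul, ← maps2_mulVec, ← map_sy,
    ← Finset.smul_sum, ← map_msum]
  rcases k with ⟨a, i⟩ | ⟨i, j⟩ | ⟨j, k⟩ <;> simp [mkE]

theorem surj_FF {A : Type} [CommRing A] (νh : Fin 10 → A) (νq : M10 A) {x x' : Va → A}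
    (h1 : xf x = xf x') (h2 : xl x = xl x') (h3 : xe x = xe x') (h4 : xr x = xr x')
    (h5 : xs x = xs x') : (∀ p, FF νh νq x (.inl p) = FF νh νq x' (.inl p)) ∧
      ∀ p, FF νh νq x (.inr (.inl p)) = FF νh νq x' (.inr (.inl p)) := by
  simp only [FF, Ten, h1, h2, h3, h4, h5, mkE, Sum.elim_inl, Sum.elim_inr, implies_true, and_self]

theorem dF_z {x : Va → ℂ[X]} {r b : ℂ} {c d : Fin 2 → ℂ} (h : Base νh νq e x r b c d)
    (a a' : Fin 2 → ℂ[X]) : dF νh νq x (mkV 0 0 0 0 0 fun j => ![0, a j, a' j, 0, 0, 0]) =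
      mkE 0 0 fun j => ![a j, C (d j * c j) * a' j] := by
  have z : ∀ t : ℂ[X], du t 0 = TrivSqZeroExt.inlHom ℂ[X] ℂ[X] t := fun t => by simp [du]
  obtain ⟨h1, h2⟩ := surj_FF (algebraMap ℂ DP ∘ νh) (νq.map (algebraMap ℂ DP))
    (x := dn x (mkV 0 0 0 0 0 fun j => ![0, a j, a' j, 0, 0, 0]))
    (x' := TrivSqZeroExt.inlHom ℂ[X] ℂ[X] ∘ x) (funext fun _ => z _) (z _)
    (funext fun _ => funext fun _ => z _) (z _) (z _)
  rw [surj_inl, h.eq] at h1 h2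
  funext k
  rcases k with p | p | ⟨j, k⟩
  · rw [dF, h1]; simp [mkE]
  · rw [dF, h2]; simp [mkE]
  · rw [dF, surj_z _ _ (x := dn x (mkV 0 0 0 0 0 fun j => ![0, a j, a' j, 0, 0, 0]))
      ((z (xs x)).trans ((congrArg _ h.s0).trans (map_zero _))) (b := du (C b) 0)
      (c := du (C (c j)) 0) (d := du (C (d j)) 0) (a := du 0 (a j)) (a' := du 0 (a' j))]
    · fin_cases k <;> simp [mkE, mul_comm]
    · funext i
      refine Eq.trans (congrArg (du · _) (congrFun (h.z0 j) i)) ?_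
      fin_cases i <;> simp [wit, mkV, du]

/-- Four steps: `onto` for half of `xi0 ⬝ᵥ y2 y *ᵥ xi0`, `lemA`, `lemB'`, `dF_z`. -/
theorem surj {x : Va → ℂ[X]} {r b : ℂ} {c d : Fin 2 → ℂ} (h : Base νh νq e x r b c d)
    {y : Eqn → ℂ[X]} (hy : Dg (dE e) y) (hr : Red (C ∘ νh) x y = 0) :
    ∃ v, Dg (dV e) v ∧ v vS = 0 ∧ dF νh νq x v = y := by
  have z : ∀ k, (0 : ℂ[X]).natDegree ≤ k := fun k => Nat.zero_le k
  have hf : ∀ i, (xf x i).natDegree ≤ e := fun i => h.dg (.inl i)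
  have sub : ∀ {y : Eqn → ℂ[X]} {v : Va → ℂ[X]}, Dg (dE e) y → Red (C ∘ νh) x y = 0 → Dg (dV e) v →
      Dg (dE e) (y - dF νh νq x v) ∧ Red (C ∘ νh) x (y - dF νh νq x v) = 0 := fun hy hr hv =>
    ⟨fun k => poly_sub (hy k) (dF_deg h.dg hv k), by
      rw [sub_eq_add_neg, ← neg_one_smul ℂ[X], red_add, red_smul, hr, dF_red h.eq, smul_zero,
        add_zero]⟩
  have ad : ∀ {v w : Va → ℂ[X]}, Dg (dV e) v → Dg (dV e) w → Dg (dV e) (v + w) :=
    fun hv hw k => poly_add (hv k) (hw k)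
  obtain ⟨δf, δl, δr, k1, k2, k3⟩ := h.onto (C 2⁻¹ * (xi0 (xf x) ⬝ᵥ y2 y *ᵥ xi0 (xf x)))
    ((natDegree_C_mul_le _ _).trans ((deg_dot (deg_xi0 hf) (deg_mulVec
      (fun i j => hy (.inr (.inl (i, j)))) (deg_xi0 hf))).trans_eq (show 2 * e + (2 * e + 2 * e) = _
        by ring)))
  have g1 : Dg (dV e) (mkV δf δl 0 (C δr) 0 0) :=
    surj_dg k1 k2 (fun _ _ => z _) (natDegree_C _).le (z _) fun _ _ => z _
  have x1 := dF_xi (v := mkV δf δl 0 (C δr) 0 0) h.eq h.s0 rfl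
  rw [h.r0, show xf (mkV δf δl 0 (C δr) 0 0) = δf from rfl,
    show xl (mkV δf δl 0 (C δr) 0 0) = δl from rfl,
    show xr (mkV δf δl 0 (C δr) 0 0) = C δr from rfl, k3, ← mul_assoc, ← C_ofNat, ← C_mul,
    mul_inv_cancel₀ two_ne_zero, C_1, one_mul] at x1
  obtain ⟨hy1, hr1⟩ := sub hy hr g1
  have x2 : xi0 (xf x) ⬝ᵥ y2 (y - dF νh νq x (mkV δf δl 0 (C δr) 0 0)) *ᵥ xi0 (xf x) = 0 := by
    rw [show ∀ y y' : Eqn → ℂ[X], y2 (y - y') = y2 y - y2 y' from fun _ _ => rfl, sub_mulVec,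
      dotProduct_sub, x1, sub_self]
  generalize ey : y - dF νh νq x (mkV δf δl 0 (C δr) 0 0) = y' at hy1 hr1 x2
  choose η d1 d2 using fun a => lemA h.pent (fun i => hy1 (.inl (a, i))) ((surj_red hr1).1 a)
  have g2 : Dg (dV e) (mkV 0 0 η 0 0 0) :=
    surj_dg (fun _ => z _) (z _) d1 (z _) (z _) fun _ _ => z _
  obtain ⟨hy2, hr2⟩ := sub hy1 hr1 g2
  have e2 := dF_eta (νh := νh) (νq := νq) h.s0 η
  have t1 : ∀ a, y1 (y' - dF νh νq x (mkV 0 0 η 0 0 0)) a = 0 := fun a => by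
    rw [e2]
    exact funext fun i => sub_eq_zero.2 (congrFun (d2 a) i).symm
  have t2 : xi0 (xf x) ⬝ᵥ y2 (y' - dF νh νq x (mkV 0 0 η 0 0 0)) *ᵥ xi0 (xf x) = 0 := by
    have h1 : ∀ a, xi0 (xf x) ⬝ᵥ Nm (xf x) *ᵥ lp (C ∘ νh) 0 a = 0 := fun a => by
      fin_cases a <;> simp [lp, hS, mulVec_add, xi0_n]
    rw [e2, show ∀ (y : Eqn → ℂ[X]) c Y w, y2 (y - mkE c Y w) = y2 y - Y from fun _ _ _ _ => rfl,
      sub_mulVec, dotProduct_sub, x2]
    simp only [neg_mulVec, sum_mulVec, sy_mulVec, dotProduct_neg, dotProduct_sum, dotProduct_add,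
      dotProduct_smul, h1, dotProduct_comm (Nm _ *ᵥ lp _ _ _), zero_smul, smul_zero, add_zero,
      Finset.sum_const_zero, neg_zero, sub_zero, dotProduct_zero]
  generalize ey' : y' - dF νh νq x (mkV 0 0 η 0 0 0) = y'' at hy2 hr2 t1 t2
  obtain ⟨ζ, f1, f2, f3⟩ := lemB' h.pent (C ∘ νh) (surj_red hr2).2.1 ((surj_red hr2).2.2 t1)
    (fun i j => hy2 (.inr (.inl (i, j)))) t2
  have g3 : Dg (dV e) (mkV 0 0 (fun a => (-1 : ℂ[X]) • ζ a) 0 0 0) :=
    surj_dg (fun _ => z _) (z _) (fun a i => by simpa using f1 a i) (z _) (z _) fun _ _ => z _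
  have g4 : Dg (dV e) (mkV 0 0 0 0 0 fun j =>
      ![0, y3 y'' j 0, C (d j * c j)⁻¹ * y3 y'' j 1, 0, 0, 0]) :=
    surj_dg (fun _ => z _) (z _) (fun _ _ => z _) (z _) (z _) fun j i => by
      fin_cases i
      exacts [z _, hy2 (.inr (.inr (j, 0))),
        (natDegree_C_mul_le _ _).trans (hy2 (.inr (.inr (j, 1)))), z _, z _, z _]
  refine ⟨_, ad g1 (ad g2 (ad g3 g4)), by simp [mkV, vS], ?_⟩
  rw [dF_add, dF_add, dF_add, ← eq_sub_iff_add_eq', ey, ← eq_sub_iff_add_eq', ey', dF_eta h.s0,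
    dF_z h]
  simp only [surj_smul, mulVec_smul, f2]
  simp only [neg_one_smul, Finset.sum_neg_distrib, neg_neg, ← f3]
  funext k
  rcases k with ⟨a, i⟩ | ⟨i, j⟩ | ⟨j, k⟩
  · exact (add_zero _).trans (neg_zero.trans (congrFun (t1 a) i).symm)
  · exact add_zero _
  · have := mul_ne_zero (h.ne j).2 (h.ne j).1
    fin_cases k
    · exact zero_add _
    · refine (zero_add _).trans ?_
      show C _ * (C _ * _) = _
      rw [← mul_assoc, ← C_mul, mul_inv_cancel₀ this, C_1, one_mul]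
      rfl

end Pool.Agent.GMO
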