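import Pool.Agent.Work.MP_274aea_ag_Odd.Wit
import Pool.Agent.Work.MP_60d5ce_nt.Qt.Tsen
import Pool.Agent.Work.MP_ffcd14_ag.Cyc.KR
import Pool.Agent.Work.MP_274aea_ag_Odd.Scalar
import Pool.Agent.Work.MP_274aea_ag_Odd.Surj

-- merged part: Pool.Agent.Work.MP_274aea_ag_Odd.FieldA
section
/-! # Rational points over simple extensions (PROOF.md, section 6) -/

set_option autoImplicit false

open Polynomial Matrix Pool.Agent.GM16 Pool.Agent.GM34

namespace Pool.Agent.GMO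

variable {L : Type} [Field L] {F : Subfield L}

theorem le_adj (θ : L) : F ≤ adj F θ := fun _ h => Subfield.subset_closure (Or.inl h)

theorem mem_adj (θ : L) : θ ∈ adj F θ := Subfield.subset_closure (Or.inr rfl)

theorem adj_le {F' : Subfield L} {θ : L} (h : F ≤ F') (h' : θ ∈ F') : adj F θ ≤ F' :=
  Subfield.closure_le.2 (Set.union_subset h (Set.singleton_subset_iff.2 h'))

/-- `θ = a / b`, `ρ = b⁻¹`; the cases `b = 0` and `a = b = 0`. -/
theorem one_of_two {ι : Type} {y : ι → L} (a b : L)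
    (h : ∀ i, ∃ α ∈ F, ∃ β ∈ F, y i = α * a + β * b) : One F y := by
  by_cases hb : b = 0
  · by_cases ha : a = 0
    · refine ⟨0, 1, one_ne_zero, fun i => ?_⟩
      obtain ⟨α, -, β, -, e⟩ := h i
      rw [e, ha, hb, mul_zero, mul_zero, add_zero, mul_zero]
      exact zero_mem _
    · refine ⟨0, a⁻¹, inv_ne_zero ha, fun i => ?_⟩
      obtain ⟨α, hα, β, -, e⟩ := h i
      rw [e, hb, mul_zero, add_zero, mul_comm α, inv_mul_cancel_left₀ ha]
      exact le_adj _ hα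
  · refine ⟨a / b, b⁻¹, inv_ne_zero hb, fun i => ?_⟩
    obtain ⟨α, hα, β, hβ, e⟩ := h i
    rw [e, show b⁻¹ * (α * a + β * b) = α * (a / b) + β by field_simp]
    exact add_mem (mul_mem (le_adj _ hα) (mem_adj _)) (le_adj _ hβ)

/-- The `F`-linear map `(ι → F) → L`, `c ↦ ∑ c i * y i` has the independent vectors `r a` in its
kernel, so its range has dimension at most two. -/
theorem co2 {ι κ : Type} [Fintype ι] [Fintype κ] {y : ι → L} {r : κ → ι → L}
    (hr : ∀ a i, r a i ∈ F) (hi : LinearIndependent L r) (h0 : ∀ a, r a ⬝ᵥ y = 0)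
    (hc : Fintype.card ι ≤ Fintype.card κ + 2) : One F y := by
  classical
  let φ : (ι → F) →ₗ[F] L := Fintype.linearCombination F y
  let r' : κ → LinearMap.ker φ := fun a => ⟨fun i => ⟨r a i, hr a i⟩, h0 a⟩
  have h1 : LinearIndependent F r' := by
    refine LinearIndependent.of_comp
      ((LinearMap.compLeft (Algebra.linearMap F L) ι).comp (LinearMap.ker φ).subtype) ?_
    exact hi.restrict_scalars' F
  have h2 := h1.fintype_card_le_finrank
  have h3 := φ.finrank_range_add_finrank_ker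
  rw [Module.finrank_fintype_fun_eq_card] at h3
  obtain ⟨f, hf⟩ := (finrank_le_iff_exists_linearMap (R := F) (M := LinearMap.range φ)
    (M' := Fin 2 → F)).1 (by rw [Module.finrank_fin_fun]; omega)
  obtain ⟨g, hg⟩ := f.exists_leftInverse_of_injective (LinearMap.ker_eq_bot.2 hf)
  refine one_of_two (g (Pi.single 0 1)).1 (g (Pi.single 1 1)).1 fun i => ?_
  have hy : y i ∈ LinearMap.range φ := ⟨Pi.single i 1, by simp [φ]⟩
  have e1 : g (f ⟨y i, hy⟩) = ⟨y i, hy⟩ := LinearMap.congr_fun hg _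
  generalize f ⟨y i, hy⟩ = v at e1
  have e2 : v = v 0 • Pi.single 0 1 + v 1 • Pi.single 1 1 := by
    ext k
    fin_cases k <;> simp
  rw [e2, map_add, map_smul, map_smul] at e1
  exact ⟨v 0, (v 0).2, v 1, (v 1).2, (congrArg Subtype.val e1).symm⟩

theorem fielda_single {ι : Type} [DecidableEq ι] (i k : ι) : (Pi.single i 1 : ι → L) k ∈ F := by
  rw [Pi.single_apply]
  split_ifs
  exacts [one_mem _, zero_mem _]

theorem fielda_dp {n : ℕ} {x y : Fin n → L} (hx : ∀ i, x i ∈ F) (hy : ∀ i, y i ∈ F) :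
    x ⬝ᵥ y ∈ F := by
  unfold dotProduct
  exact sum_mem fun i _ => mul_mem (hx i) (hy i)

theorem fielda_bq {n : ℕ} {β : Matrix (Fin n) (Fin n) L} (hβ : ∀ i j, β i j ∈ F) {x y : Fin n → L}
    (hx : ∀ i, x i ∈ F) (hy : ∀ i, y i ∈ F) : bq β x y ∈ F :=
  fielda_dp hx fun i => fielda_dp (hβ i) hy

/-- The second point of a conic on a line through a rational point. Take `i` with `e i ≠ 0`, apply
`co2` to `c' = c - (c i / e i) • e` with the new relation `Pi.single i 1` (it is independent of the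
others, which kill `e`). With `d = ρ • c'` and `ρ • c = μ • e + d`: `μ * bs β e d + bq β d d = 0`
and `bs β e d ≠ 0`. -/
theorem cs {n : ℕ} {κ : Type} [Fintype κ] {β : Matrix (Fin n) (Fin n) L} (hβ : ∀ i j, β i j ∈ F)
    {c e : Fin n → L} (he : ∀ i, e i ∈ F) {r : κ → Fin n → L} (hr : ∀ a i, r a i ∈ F)
    (hi : LinearIndependent L r) (hn : n ≤ Fintype.card κ + 3) (hc0 : ∀ a, r a ⬝ᵥ c = 0)
    (he0 : ∀ a, r a ⬝ᵥ e = 0) (hcc : bq β c c = 0) (hee : bq β e e = 0) (hec : bs β e c ≠ 0) :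
    One F c := by
  obtain ⟨i, hi0⟩ : ∃ i, e i ≠ 0 := Function.ne_iff.1 fun h0 : e = 0 => hec (by simp [h0, bs, bq])
  have hind : LinearIndependent L fun a : Option κ => a.elim (Pi.single i (1 : L)) r := by
    refine linearIndependent_option.2 ⟨hi, fun hm => hi0 ?_⟩
    obtain ⟨d, hd⟩ := (Submodule.mem_span_range_iff_exists_fun L).1 hm
    have := congrArg (· ⬝ᵥ e) hd
    simpa [sum_dotProduct, he0] using this.symm
  obtain ⟨θ, ρ, hρ, hd⟩ : One F (c - (c i / e i) • e) := by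
    refine co2 (fun a k => ?_) hind (fun a => ?_) (by simp; omega)
    · cases a with
      | none => exact fielda_single i k
      | some a => exact hr a k
    · cases a with
      | none => simp [hi0]
      | some a => simp [hc0, he0]
  have hd' : ∀ k, (ρ • (c - (c i / e i) • e)) k ∈ adj F θ := hd
  have hβ' : ∀ i j, β i j ∈ adj F θ := fun i j => le_adj θ (hβ i j)
  have he' : ∀ k, e k ∈ adj F θ := fun k => le_adj θ (he k)
  have a1 := fielda_bq hβ' hd' hd'
  have a2 := add_mem (fielda_bq hβ' he' hd') (fielda_bq hβ' hd' he')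
  generalize c i / e i = μ at hd a1 a2
  rw [bs] at hec
  simp only [bq, mulVec_smul, mulVec_sub, smul_dotProduct, dotProduct_smul, sub_dotProduct,
    dotProduct_sub, smul_eq_mul] at a1 a2 hec hcc hee
  rw [hcc, hee] at a1
  rw [hee] at a2
  generalize e ⬝ᵥ β *ᵥ c = x at a1 a2 hec
  generalize c ⬝ᵥ β *ᵥ e = z at a1 a2 hec
  have a3 : ρ * μ ∈ adj F θ := by
    have h2 : ρ * (x - μ * 0) + ρ * (z - μ * 0) ≠ 0 := by
      rw [mul_zero, sub_zero, sub_zero, ← mul_add]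
      exact mul_ne_zero hρ hec
    have := neg_mem (div_mem a1 a2)
    rwa [← neg_div, (div_eq_iff h2).2 (?_ : _ = ρ * μ * _)] at this
    ring
  refine ⟨θ, ρ, hρ, fun k => ?_⟩
  have := add_mem (hd k) (mul_mem a3 (he' k))
  simp only [Pi.sub_apply, Pi.smul_apply, smul_eq_mul] at this
  rwa [show ρ * (c k - μ * e k) + ρ * μ * e k = ρ * c k by ring] at this

/-- The kernel of the map `(Fin 6 → ℂ[X]) → (Fin 3 → ℂ[X])` has rank at least three; apply
`Pool.Agent.Quad.tsen_poly` to three independent vectors of it. -/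
theorem tsen6 (r : Fin 3 → Fin 6 → ℂ[X]) : ∃ e : Fin 6 → ℂ[X], e ≠ 0 ∧ (∀ a, r a ⬝ᵥ e = 0) ∧
    e 0 * e 5 - e 1 * e 4 + e 2 * e 3 = 0 := by
  let φ := (Matrix.of r).mulVecLin
  have h1 := φ.rank_range_add_rank_ker
  have h2 := (LinearMap.range φ).rank_le
  rw [rank_fin_fun] at h1 h2
  have h3 : ((3 : ℕ) : Cardinal) ≤ Module.rank ℂ[X] (LinearMap.ker φ) := by
    rw [← Cardinal.add_nat_le_add_nat_iff 3, ← Nat.cast_add, ← h1, add_comm]
    exact add_le_add le_rfl h2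
  obtain ⟨v, hv⟩ := Module.le_rank_iff.1 h3
  obtain ⟨x, hx, hq⟩ := Pool.Agent.Quad.tsen_poly (𝕜 := ℂ) (ι := Fin 3) (κ := Unit) (by simp)
    fun _ a b => (v a).1 0 * (v b).1 5 - (v a).1 1 * (v b).1 4 + (v a).1 2 * (v b).1 3
  refine ⟨(∑ a, x a • v a : LinearMap.ker φ), fun h => hx (funext ?_), fun a => ?_, ?_⟩
  · exact Fintype.linearIndependent_iff.1 hv x (Subtype.ext h)
  · exact congrFun (∑ a, x a • v a : LinearMap.ker φ).2 a
  · have := hq ()
    simp only [Fin.sum_univ_three, Submodule.coe_add, Submodule.coe_smul, Pi.add_apply,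
      Pi.smul_apply, smul_eq_mul] at this ⊢
    linear_combination this

section Six

variable {A B : Type*} [CommRing A] [CommRing B]

def fielda_tl {α : Type*} (t : Fin 10 → α) : Fin 6 → α := fun i => t (Fin.natAdd 4 i)

def fielda_rv (x : Fin 6 → A) : Fin 6 → A := ![x 5, -x 4, x 3, x 2, -x 1, x 0]

def fielda_B : Matrix (Fin 6) (Fin 6) A := Matrix.of fun i j =>
  if i = 0 ∧ j = 5 then 1 else if i = 1 ∧ j = 4 then -1 else if i = 2 ∧ j = 3 then 1 else 0

theorem fielda_dot (x y : Fin 6 → A) : fielda_rv x ⬝ᵥ y =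
    x 0 * y 5 - x 1 * y 4 + x 2 * y 3 + (y 0 * x 5 - y 1 * x 4 + y 2 * x 3) := by
  simp [fielda_rv, dotProduct, Fin.sum_univ_succ]
  ring

theorem fielda_P0 (x y : Fin 10 → A) : fielda_rv (fielda_tl x) ⬝ᵥ fielda_tl y = bs P0 x y :=
  (fielda_dot _ _).trans (bs_P0 x y).symm

theorem fielda_rv_comm (x y : Fin 6 → A) : fielda_rv x ⬝ᵥ y = fielda_rv y ⬝ᵥ x := by
  rw [fielda_dot, fielda_dot, add_comm]

theorem fielda_Bq (x y : Fin 6 → A) : bq fielda_B x y = x 0 * y 5 - x 1 * y 4 + x 2 * y 3 := by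
  simp [bq, fielda_B, dotProduct, mulVec, Fin.sum_univ_succ]
  ring

theorem fielda_Bs (x y : Fin 6 → A) : bs fielda_B x y = fielda_rv x ⬝ᵥ y := by
  rw [bs, fielda_Bq, fielda_Bq, fielda_dot]

theorem fielda_rv_map (g : A →+* B) (x : Fin 10 → A) :
    g ∘ fielda_rv (fielda_tl x) = fielda_rv (fielda_tl (g ∘ x)) := by
  simp only [fielda_rv, fielda_tl, maps2_cons, maps2_nil, map_neg, Function.comp_apply]

theorem fielda_rv_zero {x : Fin 6 → A} (h : fielda_rv x = 0) (i : Fin 6) : x i = 0 := by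
  fin_cases i
  exacts [congrFun h 5, neg_eq_zero.1 (congrFun h 4), congrFun h 3, congrFun h 2,
    neg_eq_zero.1 (congrFun h 1), congrFun h 0]

theorem fielda_ct {f : Fin 5 → A} {t : Fin 10 → A} (h : ctM f *ᵥ t = 0) :
    f 0 * t 0 = f 2 * t 4 + f 3 * t 5 + f 4 * t 6 ∧
    f 0 * t 1 = -f 1 * t 4 + f 3 * t 7 + f 4 * t 8 ∧
    f 0 * t 2 = -f 1 * t 5 + -f 2 * t 7 + f 4 * t 9 ∧
    f 0 * t 3 = -f 1 * t 6 + -f 2 * t 8 + -f 3 * t 9 := by
  have h1 := congrFun h 1
  have h2 := congrFun h 2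
  have h3 := congrFun h 3
  have h4 := congrFun h 4
  simp [ctM, mulVec, dotProduct, Fin.sum_univ_succ] at h1 h2 h3 h4
  exact ⟨by linear_combination h1, by linear_combination h2, by linear_combination h3,
    by linear_combination h4⟩

end Six

theorem fielda_rv_mem {x : Fin 6 → L} (h : ∀ i, x i ∈ F) (i : Fin 6) : fielda_rv x i ∈ F := by
  fin_cases i
  exacts [h 5, neg_mem (h 4), h 3, h 2, neg_mem (h 1), h 0]

/-- Work with the last six coordinates, where `bs P0` is the hyperbolic form (`bs_P0`). The relations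
are `r a = ![m a 9, -m a 8, m a 7, m a 6, -m a 5, m a 4]`; they are independent since `Gam m ≠ 0`
at `s`. Take `e` from `tsen6`. If `e` is not orthogonal to `t` use `cs`; otherwise `co2` with the
fourth relation given by `e`. The first four coordinates follow from `ht` and `f 0 ≠ 0` at `s`. -/
theorem step1 [Algebra ℂ L] {s : L} (hs : Transcendental ℂ s) {f : Fin 5 → ℂ[X]}
    {m : Fin 3 → Fin 10 → ℂ[X]} (hG : Gam m ≠ 0) (hf : f 0 ≠ 0) {t : Fin 10 → L}
    (ht : ctM (aeval s ∘ f) *ᵥ t = 0) (hp : plk t 0 = 0)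
    (ho : ∀ a, bs P0 (aeval s ∘ m a) t = 0) (hF : ∀ c, algebraMap ℂ L c ∈ F) (hsF : s ∈ F) :
    One F t := by
  have hinj := transcendental_iff_injective.1 hs
  let g : ℂ[X] →+* L := (aeval s : ℂ[X] →ₐ[ℂ] L)
  have hg : ∀ p, g p ∈ F := fun p => by
    change aeval s p ∈ F
    rw [aeval_eq_sum_range]
    exact sum_mem fun k _ => by rw [Algebra.smul_def]; exact mul_mem (hF _) (pow_mem hsF _)
  have hne : ∀ p, p ≠ 0 → g p ≠ 0 := fun p hp h => hp (hinj (h.trans (map_zero _).symm))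
  have hG' := hne _ hG
  rw [map_Gam, Gam] at hG'
  have key : ∀ c : Fin 3 → L,
      (∀ b, (∑ a, c a • fielda_rv (fielda_tl (g ∘ m a))) ⬝ᵥ fielda_tl (g ∘ m b) = 0) → c = 0 :=
    fun c hc => eq_zero_of_vecMul_eq_zero hG' (funext fun b => by
      have := hc b
      simp only [sum_dotProduct, smul_dotProduct, smul_eq_mul, fielda_P0] at this
      exact this)
  have hi : LinearIndependent L fun a => fielda_rv (fielda_tl (g ∘ m a)) :=
    Fintype.linearIndependent_iff.2 fun c hc => congrFun (key c fun b => by rw [hc, zero_dotProduct])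
  have hr : ∀ a i, fielda_rv (fielda_tl (g ∘ m a)) i ∈ F := fun a =>
    fielda_rv_mem fun i => hg _
  have ht0 : ∀ a, fielda_rv (fielda_tl (g ∘ m a)) ⬝ᵥ fielda_tl t = 0 := fun a =>
    (fielda_P0 _ _).trans (ho a)
  obtain ⟨e, he, he0, hee⟩ := tsen6 fun a => fielda_rv (fielda_tl (m a))
  have he0' : ∀ a, fielda_rv (fielda_tl (g ∘ m a)) ⬝ᵥ (g ∘ e) = 0 := fun a => by
    have := congrArg g (he0 a)
    rwa [map_zero, g.map_dotProduct, fielda_rv_map] at this
  obtain ⟨θ, ρ, hρ, h6⟩ : One F (fielda_tl t) := by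
    by_cases h : fielda_rv (g ∘ e) ⬝ᵥ fielda_tl t = 0
    · refine co2 (r := fun a : Option (Fin 3) =>
        a.elim (fielda_rv (g ∘ e)) fun a => fielda_rv (fielda_tl (g ∘ m a))) (fun a => ?_)
        (linearIndependent_option.2 ⟨hi, fun hm => he ?_⟩) (fun a => ?_) (by simp)
      · cases a with
        | none => exact fielda_rv_mem fun i => hg _
        | some a => exact hr a
      · obtain ⟨d, hd⟩ := (Submodule.mem_span_range_iff_exists_fun L).1 hm
        have hd' : ∑ a, d a • fielda_rv (fielda_tl (g ∘ m a)) = fielda_rv (g ∘ e) := hd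
        have h0 := key d fun b => by rw [hd', fielda_rv_comm, he0']
        simp only [h0, Pi.zero_apply, zero_smul, Finset.sum_const_zero] at hd'
        exact funext fun i => by_contra fun hi => hne _ hi (fielda_rv_zero hd'.symm i)
      · cases a with
        | none => exact h
        | some a => exact ht0 a
    · refine cs (β := fielda_B) (fun i j => ?_) (fun i => hg (e i)) hr hi (by simp) ht0 he0'
        ((fielda_Bq _ _).trans hp) ((fielda_Bq _ _).trans ?_) (by rwa [fielda_Bs])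
      · simp only [fielda_B, of_apply]
        split_ifs
        exacts [one_mem _, neg_mem (one_mem _), one_mem _, zero_mem _]
      · simpa only [map_add, map_sub, map_mul, map_zero] using congrArg g hee
  have hf0 := hne _ hf
  have hf' : ∀ i, g (f i) ∈ adj F θ := fun i => le_adj θ (hg _)
  have t4 : ρ * t 4 ∈ adj F θ := h6 0
  have t5 : ρ * t 5 ∈ adj F θ := h6 1
  have t6 : ρ * t 6 ∈ adj F θ := h6 2
  have t7 : ρ * t 7 ∈ adj F θ := h6 3
  have t8 : ρ * t 8 ∈ adj F θ := h6 4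
  have t9 : ρ * t 9 ∈ adj F θ := h6 5
  obtain ⟨c1, c2, c3, c4⟩ := fielda_ct (f := g ∘ f) ht
  have k : ∀ x z, g (f 0) * x = z → ρ * z ∈ adj F θ → ρ * x ∈ adj F θ := fun x z h1 h2 => by
    have := div_mem h2 (hf' 0)
    rwa [← h1, mul_left_comm, mul_div_cancel_left₀ _ hf0] at this
  have k3 : ∀ a b c x y z, a ∈ adj F θ → b ∈ adj F θ → c ∈ adj F θ → ρ * x ∈ adj F θ →
      ρ * y ∈ adj F θ → ρ * z ∈ adj F θ → ρ * (a * x + b * y + c * z) ∈ adj F θ :=
    fun a b c x y z ha hb hc hx hy hz => by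
      rw [show ρ * (a * x + b * y + c * z) = a * (ρ * x) + b * (ρ * y) + c * (ρ * z) by ring]
      exact add_mem (add_mem (mul_mem ha hx) (mul_mem hb hy)) (mul_mem hc hz)
  refine ⟨θ, ρ, hρ, fun i => ?_⟩
  fin_cases i
  exacts [k _ _ c1 (k3 _ _ _ _ _ _ (hf' 2) (hf' 3) (hf' 4) t4 t5 t6),
    k _ _ c2 (k3 _ _ _ _ _ _ (neg_mem (hf' 1)) (hf' 3) (hf' 4) t4 t7 t8),
    k _ _ c3 (k3 _ _ _ _ _ _ (neg_mem (hf' 1)) (neg_mem (hf' 2)) (hf' 4) t5 t7 t9),
    k _ _ c4 (k3 _ _ _ _ _ _ (neg_mem (hf' 1)) (neg_mem (hf' 2)) (neg_mem (hf' 3)) t6 t8 t9),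
    t4, t5, t6, t7, t8, t9]

/-- All minors lie in `F` (`tau_pw`, antisymmetry). -/
theorem minor_mem {p y : Fin 5 → L} {ρ : L} (h : ∀ i, ρ * pw p y i ∈ F) (i j : Fin 5) :
    ρ * (p i * y j - p j * y i) ∈ F := by
  have k : ∀ i j : Fin 5, i < j → ρ * (p i * y j - p j * y i) ∈ F := fun i j hij => by
    obtain ⟨s, rfl, rfl⟩ := (by decide : ∀ i j : Fin 5, i < j →
      ∃ s, (ee s).1.1 = i ∧ (ee s).1.2 = j) i j hij
    exact tau_pw p y s ▸ h s
  rcases lt_trichotomy i j with hij | rfl | hij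
  · exact k i j hij
  · rw [sub_self, mul_zero]
    exact zero_mem _
  · rw [← neg_sub, mul_neg]
    exact neg_mem (k j i hij)

/-- `p k * T i j = p i * T k j + p j * T i k` for the minors `T`; `tau_ne`, `one_of_two`. -/
theorem step2 {p y : Fin 5 → L} {ρ : L} (hρ : ρ ≠ 0) (h : ∀ i, ρ * pw p y i ∈ F)
    (h0 : pw p y ≠ 0) : One F p := by
  obtain ⟨i, j, hij⟩ := tau_ne h0
  refine one_of_two (p i) (p j) fun k => ⟨_, div_mem (minor_mem h k j) (minor_mem h i j), _,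
    div_mem (minor_mem h i k) (minor_mem h i j), ?_⟩
  rw [div_mul_eq_mul_div, div_mul_eq_mul_div, ← add_div, eq_div_iff (mul_ne_zero hρ hij)]
  ring

theorem fielda_pw {p y : Fin 5 → L} (hp : ∀ i, p i ∈ F) (hy : ∀ i, y i ∈ F) (s : Fin 10) :
    pw p y s ∈ F := by
  rw [tau_pw]
  exact sub_mem (mul_mem (hp _) (hy _)) (mul_mem (hp _) (hy _))

def fielda_P (p : Fin 5 → L) : Matrix (Fin 10) (Fin 5) L :=
  Matrix.of fun s k => pw p (Pi.single k 1) s

theorem fielda_Pv (p x : Fin 5 → L) : fielda_P p *ᵥ x = pw p x := by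
  funext s
  have := smgen_right (Pi.single s 1) p x
  simp only [single_dotProduct, one_mul] at this
  rw [this]
  exact dotProduct_comm (fun k => pw p (Pi.single k 1) s) x

theorem fielda_pp (p : Fin 5 → L) : pw p p = 0 := funext fun s => by
  rw [tau_pw, mul_comm, sub_self, Pi.zero_apply]

theorem fielda_line (p y : Fin 5 → L) (a b : L) : fielda_P p *ᵥ (a • y - b • p) = a • pw p y := by
  rw [mulVec_sub, mulVec_smul, mulVec_smul, fielda_Pv, fielda_Pv, fielda_pp, smul_zero, sub_zero]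

theorem fielda_smul (q : M10 L) (a b : L) (x y : Fin 10 → L) :
    bq q (a • x) (b • y) = a * b * bq q x y := by
  rw [bq, bq, mulVec_smul, smul_dotProduct, dotProduct_smul, smul_eq_mul, smul_eq_mul, mul_assoc]

/-- Take `i` with `p i ≠ 0`, `e = ρ • (p i • y - y i • p)`, `c = p i • w - w i • p`, the matrix
`β a b = bq q (pw p (Pi.single a 1)) (pw p (Pi.single b 1))` and the relations `Pi.single i 1` and
`fun k => h ⬝ᵥ pw p (Pi.single k 1)` (`smgen_right`); apply `cs`. -/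
theorem step3 {h : Fin 10 → L} {q : M10 L} (hh : ∀ i, h i ∈ F) (hq : ∀ i j, q i j ∈ F)
    {p y w : Fin 5 → L} (hp : ∀ i, p i ∈ F) {ρ : L} (hρ : ρ ≠ 0) (hy : ∀ i, ρ * pw p y i ∈ F)
    (h1 : h ⬝ᵥ pw p y = 0) (h2 : h ⬝ᵥ pw p w = 0) (h3 : bq q (pw p y) (pw p y) = 0)
    (h4 : bq q (pw p w) (pw p w) = 0) (h5 : bs q (pw p w) (pw p y) ≠ 0)
    (h6 : ∃ z, h ⬝ᵥ pw p z ≠ 0) : One F (pw p w) := by
  obtain ⟨z, hz⟩ := h6
  obtain ⟨i, hi⟩ : ∃ i, p i ≠ 0 := Function.ne_iff.1 fun h0 : p = 0 => hz (by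
    rw [h0, smgen_zero_left, dotProduct_zero])
  have hP : ∀ s k, fielda_P p s k ∈ F := fun s k => fielda_pw hp (fielda_single k) s
  have e1 : pw p (ρ • (p i • y - y i • p)) = (ρ * p i) • pw p y := by
    rw [← fielda_Pv, mulVec_smul, fielda_line, mul_smul]
  have e2 : pw p (p i • w - w i • p) = p i • pw p w := by rw [← fielda_Pv, fielda_line]
  have e3 : ∀ x, (h ᵥ* fielda_P p) ⬝ᵥ x = h ⬝ᵥ pw p x := fun x => by
    rw [← dotProduct_mulVec, fielda_Pv]
  obtain ⟨θ, ρ', hρ', hc⟩ : One F (p i • w - w i • p) := by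
    refine cs (β := (fielda_P p)ᵀ * q * fielda_P p) (e := ρ • (p i • y - y i • p))
      (r := ![Pi.single i 1, h ᵥ* fielda_P p]) (fun a b => ?_) (fun k => ?_) (fun a k => ?_)
      (LinearIndependent.pair_iff.2 fun s t hst => ?_) (by simp) (fun a => ?_) (fun a => ?_)
      ?_ ?_ ?_
    · exact fielda_dp (fun k => fielda_dp (fun l => hP l a) fun l => hq l k) fun k => hP k b
    · have := minor_mem hy i k
      rwa [mul_comm (p k)] at this
    · fin_cases a
      exacts [fielda_single i k, fielda_dp hh fun l => hP l k]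
    · have a1 := congrArg (· ⬝ᵥ p) hst
      have a2 := congrArg (· ⬝ᵥ z) hst
      simp only [add_dotProduct, smul_dotProduct, e3, fielda_pp, dotProduct_zero, single_dotProduct,
        zero_dotProduct, smul_eq_mul, mul_zero, add_zero, one_mul, mul_eq_zero, hi, or_false] at a1
      simpa [a1, e3, hz] using a2
    · fin_cases a
      · simp [mul_comm]
      · exact (e3 _).trans (by rw [e2, dotProduct_smul, h2, smul_zero])
    · fin_cases a
      · simp [mul_comm]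
      · exact (e3 _).trans (by rw [e1, dotProduct_smul, h1, smul_zero])
    · rw [bq_mul, fielda_Pv, e2, fielda_smul, h4, mul_zero]
    · rw [bq_mul, fielda_Pv, e1, fielda_smul, h3, mul_zero]
    · rw [bs, bq_mul, bq_mul, fielda_Pv, fielda_Pv, e1, e2, fielda_smul, fielda_smul,
        mul_comm (p i), ← mul_add, add_comm]
      exact mul_ne_zero (mul_ne_zero (mul_ne_zero hρ hi) hi) h5
  refine ⟨θ, ρ' * p i, mul_ne_zero hρ' hi, fun s => ?_⟩
  have := fielda_pw (fun k => le_adj θ (hp k)) (y := ρ' • (p i • w - w i • p)) hc s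
  rwa [← fielda_Pv, mulVec_smul, fielda_line, ← mul_smul] at this

end Pool.Agent.GMO
end

-- merged part: Pool.Agent.Work.MP_274aea_ag_Odd.FieldB
section
/-! # The extension of odd degree is purely transcendental (PROOF.md, section 6) -/

set_option autoImplicit false

open Polynomial Matrix Pool.Agent.GM16 Pool.Agent.GM34

namespace Pool.Agent.GMO

section Ring

variable {A : Type*} [CommRing A]

def uu (x : Fin 6 → A) : Fin 5 → A := ![1, 0, x 0, x 1, x 2]

def vw (x : Fin 6 → A) : Fin 5 → A := ![0, 1, x 3, x 4, x 5]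

def xiy (x : Fin 6 → A) (y : Fin 3 → A) : Fin 10 → A := ∑ i, y i • xis x i

def ly (y : Fin 3 → A) : Fin 5 → A := ![0, 0, y 0, y 1, y 2]

theorem N_xiy (f : Fin 5 → A) (x : Fin 6 → A) (y : Fin 3 → A) : Nm f *ᵥ xiy x y =
    (f ⬝ᵥ ly y) • pch x - pw ((f ⬝ᵥ vw x) • uu x - (f ⬝ᵥ uu x) • vw x) (ly y) := by
  ext i
  fin_cases i <;> simp [Nm, xiy, xis, pch, pw, ly, uu, vw, mulVec, dotProduct,
    Fin.sum_univ_succ] <;> ring

theorem xiy_N (f : Fin 5 → A) (x : Fin 6 → A) (y : Fin 3 → A) :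
    xiy x y ⬝ᵥ Nm f *ᵥ xiy x y = 0 := by
  rw [N_xiy]
  simp [xiy, xis, pch, pw, ly, uu, vw, dotProduct, Fin.sum_univ_succ]
  ring

/-- In general the difference is `-∑ i, (ctM f *ᵥ η) (i + 1) * ξ i` over `i < 4`. -/
theorem p0_N {f : Fin 5 → A} {η : Fin 10 → A} (h : ctM f *ᵥ η = 0) (ξ : Fin 10 → A) :
    bs P0 η (Nm f *ᵥ ξ) = f 0 * (η ⬝ᵥ ξ) := by
  have h1 := congrFun h 1
  have h2 := congrFun h 2
  have h3 := congrFun h 3
  have h4 := congrFun h 4
  rw [bs_P0]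
  simp [Nm, ctM, mulVec, dotProduct, Fin.sum_univ_succ] at h1 h2 h3 h4 ⊢
  linear_combination -ξ 0 * h1 - ξ 1 * h2 - ξ 2 * h3 - ξ 3 * h4

end Ring

theorem fieldb_dot {A : Type*} [CommRing A] (m : Fin 10 → A) (x : Fin 6 → A) (y : Fin 3 → A) :
    m ⬝ᵥ xiy x y = psi m x ⬝ᵥ y := by
  simp only [xiy, dotProduct_sum, dotProduct_smul, smul_eq_mul]
  exact Finset.sum_congr rfl fun i _ => mul_comm _ _

theorem fieldb_sym {A : Type*} [CommRing A] (f : Fin 5 → A) (a b : Fin 10 → A) :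
    a ⬝ᵥ Nm f *ᵥ b = b ⬝ᵥ Nm f *ᵥ a := by
  rw [dotProduct_mulVec, ← mulVec_transpose, Nm_tr, dotProduct_comm]

theorem fieldb_bs {A : Type*} [CommRing A] (q : M10 A) (p : Fin 10 → A) (f : Fin 5 → A)
    (x : Fin 6 → A) (y : Fin 3 → A) :
    (fun i => bs q p (Nm f *ᵥ xis x i)) ⬝ᵥ y = bs q p (Nm f *ᵥ xiy x y) := by
  simp only [bs, bq, xiy, mulVec_sum, mulVec_smul, dotProduct_sum, sum_dotProduct,
    dotProduct_smul, smul_dotProduct, smul_eq_mul, ← Finset.sum_add_distrib]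
  exact Finset.sum_congr rfl fun i _ => by ring

/-- Take `y ≠ 0` in the kernel of the matrix of `GG`, `ξ = xiy x y`, `t = Nm f *ᵥ ξ`. Evaluate the
identity of `Con` at `ξ`: `2 * bq q t t = 0`. Since `G2 ≠ 0`, the third row does not kill `y`, so
`bs q (pch x) t ≠ 0`, and the first row is not zero. If `p = B • u - A • v` were zero then `t` would
be a multiple of `pch x`; so `A ≠ 0` or `B ≠ 0` and `pch x = pw p w`. -/
theorem geo {L : Type} [Field L] [CharZero L] {h : Fin 10 → L} {q : M10 L} {f : Fin 5 → L} {l : L}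
    {m μ : Fin 3 → Fin 10 → L} (H : Con h q f l m μ) {x : Fin 6 → L} (h1 : h ⬝ᵥ pch x = 0)
    (h2 : bq q (pch x) (pch x) = 0) (h3 : GG m x = 0) (h4 : G2 f q m x ≠ 0) :
    ∃ p y w : Fin 5 → L, pch x = pw p w ∧ ctM f *ᵥ pw p y = 0 ∧ (∀ a, bs P0 (m a) (pw p y) = 0) ∧
      h ⬝ᵥ pw p y = 0 ∧ bq q (pw p y) (pw p y) = 0 ∧ bs q (pw p w) (pw p y) ≠ 0 ∧
      ∃ z, h ⬝ᵥ pw p z ≠ 0 := by
  obtain ⟨y, hy, hk⟩ := Matrix.exists_mulVec_eq_zero_iff.2 h3
  have k1 : ∀ a, m a ⬝ᵥ xiy x y = 0 := fun a => (fieldb_dot _ _ _).trans (congrFun hk a)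
  have k2 : ∀ ξ, h ⬝ᵥ Nm f *ᵥ ξ = m 0 ⬝ᵥ ξ := fun ξ => by rw [H.1, fieldb_sym, dotProduct_comm]
  have k3 : bq q (Nm f *ᵥ xiy x y) (Nm f *ᵥ xiy x y) = 0 := by
    have e := congrArg (fun M => xiy x y ⬝ᵥ M *ᵥ xiy x y) H.2.2
    simp only [add_mulVec, smul_mulVec, sum_mulVec, sy_mulVec, dotProduct_add, dotProduct_smul,
      dotProduct_sum, xiy_N, k1, dotProduct_comm (xiy x y) (m _), smul_eq_mul, mul_zero,
      zero_mul, add_zero, Finset.sum_const_zero, ← mulVec_mulVec] at e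
    rw [fieldb_sym, dotProduct_comm, dotProduct_add, mulVec_transpose, dotProduct_comm _ (_ ᵥ* _),
      ← dotProduct_mulVec] at e
    exact add_self_eq_zero.1 e
  have k4 : bs q (pch x) (Nm f *ᵥ xiy x y) ≠ 0 := fun e =>
    h4 (Matrix.exists_mulVec_eq_zero_iff.1 ⟨y, hy, funext fun a => by
      fin_cases a
      · exact congrFun hk 0
      · exact congrFun hk 1
      · exact (fieldb_bs q _ f x y).trans e⟩)
  obtain ⟨w, hw⟩ : ∃ w, pch x = pw ((f ⬝ᵥ vw x) • uu x - (f ⬝ᵥ uu x) • vw x) w := by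
    by_cases hB : f ⬝ᵥ vw x = 0
    · by_cases hA : f ⬝ᵥ uu x = 0
      · refine (k4 ?_).elim
        rw [N_xiy, hA, hB, zero_smul, zero_smul, sub_zero, smgen_zero_left, sub_zero, bs]
        simp only [bq, mulVec_smul, dotProduct_smul, smul_dotProduct] at h2 ⊢
        rw [h2, smul_zero, add_zero]
      · refine ⟨(f ⬝ᵥ uu x)⁻¹ • uu x, funext fun s => ?_⟩
        change pw (uu x) (vw x) s = _
        simp only [tau_pw, Pi.sub_apply, Pi.smul_apply, smul_eq_mul]
        field_simp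
        ring
    · refine ⟨(f ⬝ᵥ vw x)⁻¹ • vw x, funext fun s => ?_⟩
      change pw (uu x) (vw x) s = _
      simp only [tau_pw, Pi.sub_apply, Pi.smul_apply, smul_eq_mul]
      field_simp
      ring
  have ht : pw ((f ⬝ᵥ vw x) • uu x - (f ⬝ᵥ uu x) • vw x) ((f ⬝ᵥ ly y) • w - ly y) =
      Nm f *ᵥ xiy x y := by
    rw [N_xiy, hw]
    funext s
    simp only [tau_pw, Pi.sub_apply, Pi.smul_apply, smul_eq_mul]
    ring
  refine ⟨_, (f ⬝ᵥ ly y) • w - ly y, w, hw, ?_, fun a => ?_, ?_, ?_, ?_, ?_⟩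
  · rw [ht, mulVec_mulVec, ct_Nm, zero_mulVec]
  · rw [ht, p0_N (H.2.1 a), k1, mul_zero]
  · rw [ht, k2, k1]
  · rw [ht, k3]
  · rw [ht, ← hw]
    exact k4
  · by_contra hz
    push Not at hz
    refine h4 (det_eq_zero_of_row_eq_zero 0 fun i => ?_)
    have e : xis x i = xiy x (Pi.single i 1) := by simp [xiy, Pi.single_apply]
    change m 0 ⬝ᵥ xis x i = 0
    rw [← k2, e, N_xiy, dotProduct_sub, dotProduct_smul, h1, hz, smul_zero, sub_zero]

/-- `geo`, then `step1`, `step2`, `step3` over the fields `closure (range ∪ {s})` and three `adj`;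
rescale `p`; the coordinate zero of `pch x` is one. -/
theorem core {L : Type} [Field L] [Algebra ℂ L] {h : Fin 10 → ℂ} {q : M10 ℂ} {f : Fin 5 → ℂ[X]}
    {l : ℂ[X]} {m μ : Fin 3 → Fin 10 → ℂ[X]} (H : Con (C ∘ h) (q.map C) f l m μ) (hG : Gam m ≠ 0)
    (hf : f 0 ≠ 0) {s : L} (hs : Transcendental ℂ s) {x : Fin 6 → L}
    (h1 : (algebraMap ℂ L ∘ h) ⬝ᵥ pch x = 0)
    (h2 : bq (q.map (algebraMap ℂ L)) (pch x) (pch x) = 0)
    (h3 : GG (fun a => aeval s ∘ m a) x = 0)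
    (h4 : G2 (aeval s ∘ f) (q.map (algebraMap ℂ L)) (fun a => aeval s ∘ m a) x ≠ 0) :
    ∃ y : Fin 4 → L, y 0 = s ∧ ∀ F : Subfield L, (∀ c, algebraMap ℂ L c ∈ F) → (∀ i, y i ∈ F) →
      ∀ i, x i ∈ F := by
  have H' := map_Con (aeval s : ℂ[X] →ₐ[ℂ] L).toRingHom H
  have e1 : (aeval s : ℂ[X] →ₐ[ℂ] L).toRingHom ∘ C ∘ h = algebraMap ℂ L ∘ h :=
    funext fun i => aeval_C s _
  have e2 : (q.map C).map (aeval s : ℂ[X] →ₐ[ℂ] L).toRingHom = q.map (algebraMap ℂ L) :=
    Matrix.ext fun i j => aeval_C s _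
  rw [e1, e2] at H'
  have : CharZero L := charZero_of_injective_algebraMap (algebraMap ℂ L).injective
  obtain ⟨p, y, w, g1, g2, g3, g4, g5, g6, z, g7⟩ := geo H' h1 h2 h3 h4
  set F0 := Subfield.closure (Set.range (algebraMap ℂ L) ∪ {s})
  have c0 : ∀ c, algebraMap ℂ L c ∈ F0 := fun c => Subfield.subset_closure (Or.inl ⟨c, rfl⟩)
  obtain ⟨θ, ρ, hρ, r1⟩ := step1 hs hG hf g2 (congrFun (plk_pw p y) 0) g3 c0
    (Subfield.subset_closure (Or.inr rfl))
  obtain ⟨κ, σ, hσ, r2⟩ := step2 hρ r1 fun e => g6 (by simp [e, bs, bq])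
  have sc : ∀ v : Fin 5 → L, pw (σ • p) (σ⁻¹ • v) = pw p v := fun v => funext fun s => by
    simp only [tau_pw, Pi.smul_apply, smul_eq_mul]
    field_simp
  have c2 : ∀ c, algebraMap ℂ L c ∈ adj (adj F0 θ) κ := fun c => le_adj _ (le_adj _ (c0 c))
  obtain ⟨χ, τ, hτ, r3⟩ := step3 (F := adj (adj F0 θ) κ) (h := algebraMap ℂ L ∘ h)
    (q := q.map (algebraMap ℂ L)) (fun i => c2 _) (fun i j => c2 _) (p := σ • p) (y := σ⁻¹ • y)
    (w := σ⁻¹ • w) r2 hρ (fun i => by rw [sc]; exact le_adj _ (r1 i)) (by rw [sc]; exact g4)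
    (by rw [sc, ← g1]; exact h1) (by rw [sc]; exact g5) (by rw [sc, ← g1]; exact h2)
    (by rw [sc, sc]; exact g6) ⟨σ⁻¹ • z, by rw [sc]; exact g7⟩
  rw [sc, ← g1] at r3
  refine ⟨![s, θ, κ, χ], rfl, fun F hF hy => ?_⟩
  have l : adj (adj (adj F0 θ) κ) χ ≤ F := adj_le (adj_le (adj_le (Subfield.closure_le.2
    (Set.union_subset (Set.range_subset_iff.2 hF) (Set.singleton_subset_iff.2 (hy 0)))) (hy 1))
    (hy 2)) (hy 3)
  have t0 : τ ∈ F := by simpa [pch, pw] using l (r3 0)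
  have t1 : ∀ i, pch x i ∈ F := fun i => by
    have := F.mul_mem (F.inv_mem t0) (l (r3 i))
    rwa [inv_mul_cancel_left₀ hτ] at this
  intro i
  fin_cases i
  · simpa [pch, pw] using t1 4
  · simpa [pch, pw] using t1 5
  · simpa [pch, pw] using t1 6
  · simpa [pch, pw] using t1 1
  · simpa [pch, pw] using t1 2
  · simpa [pch, pw] using t1 3

/-- `kr_many` with `p = ⊥`, `q = J` and the two generators. -/
theorem trdeg_ge {h : Fin 10 → ℂ} {q : M10 ℂ} (hp : (JN h q).IsPrime) :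
    4 ≤ Algebra.trdeg ℂ (MvPolynomial (Fin 6) ℂ ⧸ JN h q) := by
  obtain ⟨r, -, -, h2, h3, h4⟩ := Pool.Agent.Work.MP_ffcd14_ag.kr_many ⊥ (JN h q) bot_le
    ![(fun i => MvPolynomial.C (h i)) ⬝ᵥ pch MvPolynomial.X,
      bq (q.map MvPolynomial.C) (pch MvPolynomial.X) (pch MvPolynomial.X)]
    fun j => by fin_cases j <;> exact Ideal.subset_span (by simp)
  obtain rfl : r = JN h q := h2.antisymm (Ideal.span_le.2 (Set.insert_subset (h3 0)
    (Set.singleton_subset_iff.2 (h3 1))))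
  rw [(AlgEquiv.quotientBot ℂ _).trdeg_eq, MvPolynomial.trdeg_of_isDomain] at h4
  simp only [Cardinal.mk_fintype, Fintype.card_fin, Cardinal.lift_id, Nat.card_eq_fintype_card]
    at h4
  rw [show ((6 : ℕ) : Cardinal) = 4 + ((2 : ℕ) : Cardinal) by norm_num] at h4
  exact (Cardinal.add_nat_le_add_nat_iff 2).1 h4

/-- `Algebra.IsAlgebraic.isTranscendenceBasis_of_le_trdeg_of_finite`,
`AlgebraicIndependent.aevalEquivField`. -/
theorem equiv_of_gen {L : Type} [Field L] [Algebra ℂ L] (y : Fin 4 → L)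
    (hy : ∀ F : Subfield L, (∀ c, algebraMap ℂ L c ∈ F) → (∀ i, y i ∈ F) → F = ⊤)
    (ht : 4 ≤ Algebra.trdeg ℂ L) : Nonempty (L ≃ₐ[ℂ] Om) := by
  have hs : IntermediateField.adjoin ℂ (Set.range y) = ⊤ := by
    apply IntermediateField.toSubfield_injective
    exact hy _ (fun c => IntermediateField.algebraMap_mem _ c)
      fun i => IntermediateField.subset_adjoin ℂ _ ⟨i, rfl⟩
  have : Algebra.IsAlgebraic (Algebra.adjoin ℂ (Set.range y)) L := by
    rw [← IntermediateField.isAlgebraic_adjoin_iff_top, hs, Algebra.isAlgebraic_iff_isIntegral]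
    exact Algebra.isIntegral_of_surjective IntermediateField.topEquiv.surjective
  have hb := Algebra.IsAlgebraic.isTranscendenceBasis_of_le_trdeg_of_finite ℂ y (by simpa using ht)
  exact ⟨(hb.1.aevalEquivField.trans
    ((IntermediateField.equivOfEq hs).trans IntermediateField.topEquiv)).symm⟩

theorem odd_factor {K : Type} [Field K] {g : K[X]} (h : Odd g.natDegree) :
    ∃ p : K[X], Irreducible p ∧ p ∣ g ∧ Odd p.natDegree := by
  induction g using WfDvdMonoid.induction_on_irreducible with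
  | zero => simp at h
  | unit u hu => simp [natDegree_eq_zero_of_isUnit hu] at h
  | mul a p ha hp ih =>
    rw [natDegree_mul hp.ne_zero ha] at h
    by_cases ho : Odd p.natDegree
    · exact ⟨p, hp, dvd_mul_right _ _, ho⟩
    · obtain ⟨p', h1, h2, h3⟩ := ih ((Nat.odd_add'.1 h).2 (Nat.not_odd_iff_even.1 ho))
      exact ⟨p', h1, h2.mul_left _, h3⟩

/-- Coprimality at one point of the variety gives coprimality at the generic point
(`res_ne`, `resultant_map_map`, `cop_of_res`). -/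
theorem spread {R K : Type} [CommRing R] [Field K] (π : R →+* K) (ev : R →+* ℂ)
    (h : ∀ a, π a = 0 → ev a = 0) {f g : R[X]} {m : ℕ} (hm : m ≠ 0) (hf : f.natDegree ≤ m)
    (hg : g.natDegree ≤ m) (hc : (f.map ev).coeff m ≠ 0) (hfg : IsCoprime (f.map ev) (g.map ev)) :
    (f.map π).natDegree = m ∧ IsCoprime (f.map π) (g.map π) := by
  refine ⟨natDegree_eq_of_le_of_coeff_ne_zero (natDegree_map_le.trans hf) fun e => hc ?_,
    cop_of_res (natDegree_map_le.trans hf) (natDegree_map_le.trans hg) hm fun e =>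
      res_ne (natDegree_map_le.trans hf) hc (natDegree_map_le.trans hg) hfg ?_⟩
  · rw [coeff_map] at e ⊢
    exact h _ e
  · rw [resultant_map_map] at e ⊢
    exact h _ e

theorem odd_range {K L : Type} [Field K] [Field L] [Algebra ℂ K] [Algebra ℂ L] [Algebra K L]
    [IsScalarTower ℂ K L] (e : L ≃ₐ[ℂ] Om) (h : Odd (Module.finrank K L)) :
    ∃ ι : K →ₐ[ℂ] Om, Odd (Module.finrank ι.range Om) := by
  refine ⟨e.toAlgHom.comp (IsScalarTower.toAlgHom ℂ K L), ?_⟩
  rwa [← Algebra.finrank_eq_of_equiv_equiv (AlgEquiv.ofInjective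
    (e.toAlgHom.comp (IsScalarTower.toAlgHom ℂ K L)) (RingHom.injective _)).toRingEquiv
    e.toRingEquiv (RingHom.ext fun _ => rfl)]

noncomputable def fieldb_G (m : Fin 3 → Fin 10 → ℂ[X]) : (MvPolynomial (Fin 6) ℂ)[X] :=
  GG (fun a i => (m a i).map MvPolynomial.C) (C ∘ MvPolynomial.X)

noncomputable def fieldb_G2 (f : Fin 5 → ℂ[X]) (q : M10 ℂ) (m : Fin 3 → Fin 10 → ℂ[X]) :
    (MvPolynomial (Fin 6) ℂ)[X] :=
  G2 (fun i => (f i).map MvPolynomial.C) ((q.map MvPolynomial.C).map C)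
    (fun a i => (m a i).map MvPolynomial.C) (C ∘ MvPolynomial.X)

section

variable {L : Type} [Field L] [Algebra ℂ L] (ψ : MvPolynomial (Fin 6) ℂ →ₐ[ℂ] L)

theorem fieldb_h (h : Fin 10 → ℂ) : ψ ((fun i => MvPolynomial.C (h i)) ⬝ᵥ pch MvPolynomial.X) =
    (algebraMap ℂ L ∘ h) ⬝ᵥ pch (ψ ∘ MvPolynomial.X) := by
  refine (ψ.toRingHom.map_dotProduct _ _).trans ?_
  rw [primeb_map_pch]
  exact congrArg (· ⬝ᵥ _) (funext fun i => ψ.commutes _)

theorem fieldb_q (q : M10 ℂ) :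
    ψ (bq (q.map MvPolynomial.C) (pch MvPolynomial.X) (pch MvPolynomial.X)) =
      bq (q.map (algebraMap ℂ L)) (pch (ψ ∘ MvPolynomial.X)) (pch (ψ ∘ MvPolynomial.X)) := by
  refine (map_bq ψ.toRingHom _ _ _).trans ?_
  rw [primeb_map_pch]
  exact congrArg (bq · _ _) (Matrix.ext fun i j => ψ.commutes _)

theorem fieldb_ker {h : Fin 10 → ℂ} {q : M10 ℂ}
    (h1 : (algebraMap ℂ L ∘ h) ⬝ᵥ pch (ψ ∘ MvPolynomial.X) = 0)
    (h2 : bq (q.map (algebraMap ℂ L)) (pch (ψ ∘ MvPolynomial.X)) (pch (ψ ∘ MvPolynomial.X)) = 0)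
    {a : MvPolynomial (Fin 6) ℂ} (ha : a ∈ JN h q) : ψ a = 0 :=
  (Ideal.span_le (I := RingHom.ker ψ)).2 (Set.insert_subset ((fieldb_h ψ h).trans h1)
    (Set.singleton_subset_iff.2 ((fieldb_q ψ q).trans h2))) ha

end

/-- `R = MvPolynomial (Fin 6) ℂ`, `K` the fraction field of `R ⧸ J`, `π : R → K`. The polynomials
`GG`, `G2` over `R[X]` at the point `C ∘ X` map to the polynomials over `K` and to those at the
witness points (`map_GG`, `map_G2` for `mapRingHom`). `L = AdjoinRoot p` for an odd irreducible factor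
`p`. If the root were algebraic over `ℂ` it would be a constant `c`; then `GG` at `c` lies in `J`, so
`c` is a common root at both witness points. -/
theorem odd_of_data {h : Fin 10 → ℂ} {q : M10 ℂ} (hp : (JN h q).IsPrime) (H : Data h q) :
    OddN h q := by
  obtain ⟨e, f, l, m, μ, z, he, df, dm, H, hz, d1, d2, d3, hG, hf⟩ := H
  set R := MvPolynomial (Fin 6) ℂ
  set K := FractionRing (R ⧸ JN h q)
  let π : R →ₐ[ℂ] K := (IsScalarTower.toAlgHom ℂ (R ⧸ JN h q) K).comp (Ideal.Quotient.mkₐ ℂ _)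
  have kπ : ∀ a, π a = 0 ↔ a ∈ JN h q := fun a =>
    (map_eq_zero_iff _ (IsFractionRing.injective (R ⧸ JN h q) K)).trans
      Ideal.Quotient.eq_zero_iff_mem
  have kz : ∀ j a, π.toRingHom a = 0 → (MvPolynomial.aeval (z j) : R →ₐ[ℂ] ℂ).toRingHom a = 0 :=
    fun j a ha => by
      have u : (MvPolynomial.aeval (z j) : R →ₐ[ℂ] ℂ) ∘ MvPolynomial.X = z j :=
        funext fun i => MvPolynomial.aeval_X _ i
      refine fieldb_ker (MvPolynomial.aeval (z j)) ?_ ?_ ((kπ a).1 ha)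
      · rw [u]
        exact (hz j).1
      · rw [u]
        exact (hz j).2
  have w1 : ∀ j, (fieldb_G m).map (MvPolynomial.aeval (z j) : R →ₐ[ℂ] ℂ).toRingHom =
      GG m (C ∘ z j) := fun j => by
    refine (map_GG (A := R[X]) (B := ℂ[X]) (mapRingHom _) _ _).trans ?_
    congr 1 <;> ext <;> simp [R]
  have w2 : (fieldb_G2 f q m).map (MvPolynomial.aeval (z 0) : R →ₐ[ℂ] ℂ).toRingHom =
      G2 f (q.map C) m (C ∘ z 0) := by
    refine (map_G2 (A := R[X]) (B := ℂ[X]) (mapRingHom _) _ _ _ _).trans ?_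
    congr 1 <;> ext <;> simp [R]
  obtain ⟨s1, s2⟩ := spread π.toRingHom _ (kz 0) (f := fieldb_G m) (g := fieldb_G2 f q m)
    (m := 3 * e) (by have := he.pos; omega)
    (deg_GG (fun a i => natDegree_map_le.trans (dm a i)) _)
    (deg_G2 (fun i => natDegree_map_le.trans (df i)) (fun a i => natDegree_map_le.trans (dm a i))
      _ _) (by rwa [w1]) (by rwa [w1, w2])
  obtain ⟨p, p1, p2, p3⟩ := odd_factor (g := (fieldb_G m).map π.toRingHom)
    (by rw [s1]; exact Odd.mul (by decide) he)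
  have : Fact (Irreducible p) := ⟨p1⟩
  set L := AdjoinRoot p
  set s : L := AdjoinRoot.root p
  let ψ : R →ₐ[ℂ] L := (IsScalarTower.toAlgHom ℂ K L).comp π
  have kφ : ∀ g : R[X], eval₂RingHom ψ.toRingHom s g = aeval s (g.map π.toRingHom) := fun g => by
    rw [aeval_def, eval₂_map]
    rfl
  have r1 : aeval s ((fieldb_G m).map π.toRingHom) = 0 := by
    rw [AdjoinRoot.aeval_eq, AdjoinRoot.mk_eq_zero]
    exact p2
  have r2 : aeval s ((fieldb_G2 f q m).map π.toRingHom) ≠ 0 := fun r => by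
    obtain ⟨a, b, hab⟩ := s2
    have := congrArg (aeval s) hab
    rw [map_add, map_mul, map_mul, r1, r, map_one, mul_zero, mul_zero, add_zero] at this
    exact zero_ne_one this
  have hs : Transcendental ℂ s := fun ha => by
    obtain ⟨c, hc⟩ := minpoly.mem_range_of_degree_eq_one ℂ s
      (IsAlgClosed.degree_eq_one_of_irreducible ℂ (minpoly.irreducible ha.isIntegral))
    have u : π ((fieldb_G m).eval (MvPolynomial.C c)) = 0 := by
      apply (algebraMap K L).injective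
      rw [map_zero, ← r1, ← kφ, coe_eval₂RingHom, ← hc, ← ψ.commutes c]
      exact (eval₂_hom ψ.toRingHom _).symm
    have v : ∀ j, (GG m (C ∘ z j)).eval c = 0 := fun j => by
      rw [← w1, eval_map, ← kz j _ u, ← eval₂_hom]
      simp
    exact cop_iff.1 d2 c (v 0) (v 1)
  have a1 : ∀ g : ℂ[X], eval₂RingHom ψ.toRingHom s (g.map MvPolynomial.C) = aeval s g :=
    fun g => by
      rw [coe_eval₂RingHom, eval₂_map, aeval_def]
      exact congrArg (eval₂ · s g) ψ.comp_algebraMap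
  have a2 : eval₂RingHom ψ.toRingHom s ∘ C ∘ MvPolynomial.X = ψ ∘ MvPolynomial.X :=
    funext fun i => eval₂_C _ _
  have a3 : ∀ a ∈ JN h q, ψ a = 0 := fun a ha =>
    (congrArg (algebraMap K L) ((kπ a).2 ha)).trans (map_zero _)
  obtain ⟨y, y0, hy⟩ := core H hG hf hs (x := ψ ∘ MvPolynomial.X)
    ((fieldb_h ψ h).symm.trans (a3 _ (Ideal.subset_span (by simp))))
    ((fieldb_q ψ q).symm.trans (a3 _ (Ideal.subset_span (by simp))))
    (by
      rw [← kφ, fieldb_G, map_GG, a2] at r1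
      simpa only [Function.comp_def, a1] using r1)
    (by
      rw [← kφ, fieldb_G2, map_G2, a2] at r2
      have : ((q.map MvPolynomial.C).map C).map (eval₂RingHom ψ.toRingHom s) =
        q.map (algebraMap ℂ L) := Matrix.ext fun i j => (eval₂_C _ _).trans (ψ.commutes _)
      rw [this] at r2
      simpa only [Function.comp_def, a1] using r2)
  refine (equiv_of_gen y (fun F hF hF' => ?_) ((trdeg_ge hp).trans (trdeg_le_of_injective
    (IsScalarTower.toAlgHom ℂ (R ⧸ JN h q) L) ?_))).elim fun ε => odd_range ε ?_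
  · have b1 : ∀ a, ψ a ∈ F := fun a => by
      induction a using MvPolynomial.induction_on with
      | C c => exact (ψ.commutes c).symm ▸ hF c
      | add a b ha hb => exact map_add ψ a b ▸ F.add_mem ha hb
      | mul_X a i ha => exact map_mul ψ a _ ▸ F.mul_mem ha (hy F hF hF' i)
    have b2 : ∀ k : K, algebraMap K L k ∈ F := fun k => by
      obtain ⟨a, b, -, rfl⟩ := IsFractionRing.div_surjective (A := R ⧸ JN h q) k
      obtain ⟨a, rfl⟩ := Ideal.Quotient.mk_surjective a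
      obtain ⟨b, rfl⟩ := Ideal.Quotient.mk_surjective b
      rw [map_div₀]
      exact F.div_mem (b1 a) (b1 b)
    refine eq_top_iff.2 fun t _ => ?_
    obtain ⟨g, rfl⟩ := AdjoinRoot.mk_surjective t
    rw [← AdjoinRoot.aeval_eq, aeval_eq_sum_range]
    exact F.sum_mem fun i _ => by
      rw [Algebra.smul_def]
      exact F.mul_mem (b2 _) (F.pow_mem (y0 ▸ hF' 0 : s ∈ F) i)
  · exact (algebraMap K L).injective.comp (IsFractionRing.injective (R ⧸ JN h q) K)
  · rwa [(AdjoinRoot.powerBasis p1.ne_zero).finrank, AdjoinRoot.powerBasis_dim]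

end Pool.Agent.GMO
end

-- merged part: Pool.Agent.Work.MP_274aea_ag_Odd.Main
section
/-! # Assembly -/

set_option autoImplicit false

open Polynomial Matrix Pool.Agent.GM16 Pool.Agent.GM34

namespace Pool.Agent.GMO

section Ev

variable {V A : Type} [CommRing A] [Algebra ℂ A] (x : V → A)

theorem main_X : ((MvPolynomial.aeval x : MvPolynomial V ℂ →ₐ[ℂ] A) : MvPolynomial V ℂ →+* A) ∘
    MvPolynomial.X = x := funext fun i => MvPolynomial.aeval_X x i

theorem main_C {ι : Type} (v : ι → ℂ) :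
    ((MvPolynomial.aeval x : MvPolynomial V ℂ →ₐ[ℂ] A) : MvPolynomial V ℂ →+* A) ∘
      MvPolynomial.C ∘ v = algebraMap ℂ A ∘ v := funext fun i => MvPolynomial.aeval_C x (v i)

theorem main_M (q : M10 ℂ) : (q.map MvPolynomial.C).map
    ((MvPolynomial.aeval x : MvPolynomial V ℂ →ₐ[ℂ] A) : MvPolynomial V ℂ →+* A) =
      q.map (algebraMap ℂ A) := Matrix.ext fun i j => MvPolynomial.aeval_C x (q i j)

end Ev

variable (νh : Fin 10 → ℂ) (νq : M10 ℂ) {e : ℕ}

theorem main_const {x : Va → ℂ[X]} (hx : Dg (dV e) x) : ∃ (r σ : ℂ) (z : Fin 2 → Fin 6 → ℂ),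
    xr x = C r ∧ xs x = C σ ∧ ∀ j, xz x j = C ∘ z j :=
  ⟨_, _, fun j i => (xz x j i).coeff 0, eq_C_of_natDegree_le_zero (hx _),
    eq_C_of_natDegree_le_zero (hx vS), fun _ => funext fun _ => eq_C_of_natDegree_le_zero (hx _)⟩

theorem main_m3 {x : Va → ℂ[X]} (hx : Dg (dV e) x) (a : Fin 3) (i : Fin 10) :
    (m3 (C ∘ νh) x a i).natDegree ≤ e := by
  fin_cases a <;> exact dg_mm hx _ i

noncomputable def uG (j : Fin 2) : MvPolynomial Va ℂ :=
  GG (m3 (MvPolynomial.C ∘ νh) MvPolynomial.X) (xz MvPolynomial.X j)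

noncomputable def uG2 : MvPolynomial Va ℂ :=
  G2 (xf MvPolynomial.X) (qS (νq.map MvPolynomial.C) (xr MvPolynomial.X) (xs MvPolynomial.X))
    (m3 (MvPolynomial.C ∘ νh) MvPolynomial.X) (xz MvPolynomial.X 0)

theorem ev_m3 (x : Va → ℂ[X]) : (fun a => ((MvPolynomial.aeval x : MvPolynomial Va ℂ →ₐ[ℂ] ℂ[X]) :
    MvPolynomial Va ℂ →+* ℂ[X]) ∘ m3 (MvPolynomial.C ∘ νh) MvPolynomial.X a) = m3 (C ∘ νh) x := by
  rw [map_m3, main_X, main_C]
  rfl

theorem ev_uG (x : Va → ℂ[X]) (j : Fin 2) :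
    MvPolynomial.aeval x (uG νh j) = GG (m3 (C ∘ νh) x) (xz x j) := by
  refine (map_GG (MvPolynomial.aeval x : MvPolynomial Va ℂ →ₐ[ℂ] ℂ[X]).toRingHom _ _).trans ?_
  rw [← ev_m3]
  exact congrArg _ (funext fun _ => MvPolynomial.aeval_X x _)

theorem ev_uG2 (x : Va → ℂ[X]) : MvPolynomial.aeval x (uG2 νh νq) =
    G2 (xf x) (qS (νq.map C) (xr x) (xs x)) (m3 (C ∘ νh) x) (xz x 0) := by
  refine (map_G2 ((MvPolynomial.aeval x : MvPolynomial Va ℂ →ₐ[ℂ] ℂ[X]) :
    MvPolynomial Va ℂ →+* ℂ[X]) _ _ _ _).trans ?_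
  rw [ev_m3, map_qS, main_M]
  simp only [Function.comp_def, xf, xr, xs, xz, RingHom.coe_coe, MvPolynomial.aeval_X]
  rfl

theorem ev_Gam (x : Va → ℂ[X]) :
    MvPolynomial.aeval x (Gam (m3 (MvPolynomial.C ∘ νh) MvPolynomial.X)) = Gam (m3 (C ∘ νh) x) := by
  rw [← ev_m3]
  exact map_Gam ((MvPolynomial.aeval x : MvPolynomial Va ℂ →ₐ[ℂ] ℂ[X]) :
    MvPolynomial Va ℂ →+* ℂ[X]) _

theorem ev_Red {A : Type} [CommRing A] [Algebra ℂ A] (x : Va → A) (y : Eqn → A) (l : Rl) :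
    MvPolynomial.aeval (Sum.elim x y) (Red (MvPolynomial.C ∘ νh) (MvPolynomial.X ∘ Sum.inl)
      (MvPolynomial.X ∘ Sum.inr) l) = Red (algebraMap ℂ A ∘ νh) x y l := by
  have := congrFun (map_Red ((MvPolynomial.aeval (Sum.elim x y) :
    MvPolynomial (Va ⊕ Eqn) ℂ →ₐ[ℂ] A) : MvPolynomial (Va ⊕ Eqn) ℂ →+* A) (MvPolynomial.C ∘ νh)
    (MvPolynomial.X ∘ Sum.inl) (MvPolynomial.X ∘ Sum.inr)) l
  rwa [main_C, ← Function.comp_assoc, ← Function.comp_assoc, main_X] at this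

theorem ev_g (g : ℂ[X][X]) (a b : Va) (x : Va → ℂ[X]) {r σ : ℂ} (ha : x a = C r) (hb : x b = C σ) :
    MvPolynomial.aeval x (g.eval₂ (eval₂RingHom MvPolynomial.C (MvPolynomial.X a))
      (MvPolynomial.X b) : MvPolynomial Va ℂ) = C (g.evalEval r σ) := by
  induction g using Polynomial.induction_on' with
  | add p q hp hq => simp only [eval₂_add, map_add, hp, hq, evalEval_add]
  | monomial n c =>
    induction c using Polynomial.induction_on' with
    | add p q hp hq => simp only [eval₂_add, map_add, hp, hq, evalEval_add]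
    | monomial k c => simp [ha, hb, evalEval, eval_monomial]

theorem persist (n : ℕ) (g : ℂ[X][X]) (hg : (g.coeff 0).eval (rn n) ≠ 0) :
    ∃ r σ : ℂ, σ ≠ 0 ∧ g.evalEval r σ ≠ 0 ∧ Data (hS νh σ) (qS νq r σ) := by
  obtain ⟨f, l, hp, hl, h0, ho⟩ := curve n
  obtain ⟨b, c, d, hn, w1, w2, w3⟩ := wit_ex hp
  obtain ⟨x0, hb, rfl⟩ := base_ex (νh := νh) (νq := νq) hp hl h0 ho b hn
  have hd := hb.dg
  have dG : ∀ j, ∀ x : Va → ℂ[X], Dg (dV (2 * n + 1)) x →
      (MvPolynomial.aeval x (uG νh j)).natDegree ≤ 3 * (2 * n + 1) := fun j x hx => by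
    obtain ⟨r, σ, z, -, -, h3⟩ := main_const hx
    rw [ev_uG, h3]
    exact deg_GG (main_m3 νh hx) _
  have dG2 : ∀ x : Va → ℂ[X], Dg (dV (2 * n + 1)) x →
      (MvPolynomial.aeval x (uG2 νh νq)).natDegree ≤ 3 * (2 * n + 1) := fun x hx => by
    obtain ⟨r, σ, z, h1, h2, h3⟩ := main_const hx
    rw [ev_uG2, h1, h2, h3, ← map_qS]
    exact deg_G2 (e := 2 * n + 1) (fun i => hx (.inl i)) (main_m3 νh hx) _ _
  have e1 : ∀ j, MvPolynomial.aeval x0 (uG νh j) = GG (n3 (xf x0)) (C ∘ wit b (c j) (d j)) :=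
    fun j => by rw [ev_uG, m3_zero _ hb.s0, hb.z0]
  have e2 : MvPolynomial.aeval x0 (uG2 νh νq) =
      G2 (xf x0) q0 (n3 (xf x0)) (C ∘ wit b (c 0) (d 0)) := by
    rw [ev_uG2, m3_zero _ hb.s0, hb.z0, hb.s0, qS, zero_smul, add_zero]
  rw [← e1 0] at w1 w2 w3
  rw [← e1 1] at w2
  rw [← e2] at w3
  have f0 := fun i => (hp.1 i).1
  have n1 := near_coeff hd _ _ w1
  have n2 := near_cop hd (uG νh 0) (uG νh 1) (by omega) (fun x hx => ⟨dG 0 x hx, dG 1 x hx⟩) w1 w2
  have n3 := near_cop hd (uG νh 0) (uG2 νh νq) (by omega) (fun x hx => ⟨dG 0 x hx, dG2 x hx⟩) w1 w3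
  have n4 := near_ne hd (Gam (m3 (MvPolynomial.C ∘ νh) MvPolynomial.X)) (by
    rw [ev_Gam, m3_zero _ hb.s0, gam_n3]
    exact mul_ne_zero (mul_ne_zero (mul_ne_zero two_ne_zero (pow_ne_zero _ (f0 0)))
      (pow_ne_zero _ (f0 1))) (f0 4))
  have n5 := near_ne hd (MvPolynomial.X (.inl 0)) (by rw [MvPolynomial.aeval_X]; exact f0 0)
  have n6 := near_ne hd _ (by
    rw [ev_g g _ vS x0 hb.r0 (hb.s0.trans C_0.symm)]
    rwa [C_ne_zero, evalEval, C_0, ← coeff_zero_eq_eval_zero])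
  obtain ⟨x, hx, ⟨⟨⟨⟨⟨p1, p2⟩, p3⟩, p4⟩, p5⟩, p6⟩, hs, hF⟩ := ift_poly (dE (2 * n + 1))
    (FF (MvPolynomial.C ∘ νh) (νq.map MvPolynomial.C) MvPolynomial.X)
    (Red (MvPolynomial.C ∘ νh) (MvPolynomial.X ∘ Sum.inl) (MvPolynomial.X ∘ Sum.inr)) vS x0 rfl
    hb.s0 hd (fun k => (aeval_FF x0 k).trans (congrFun hb.eq k))
    (fun x hx k => by simp only [aeval_FF]; exact dg_FF hx k)
    (fun x l => by simp only [aeval_FF, ev_Red]; exact congrFun (red_FF _ _ x) l)
    (fun y y' l => by simp only [ev_Red, red_add, Pi.add_apply])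
    (fun x c y l => by
      rw [ev_Red, ev_Red, show c • y = (C c : ℂ[X]) • y from funext fun _ => smul_eq_C_mul _,
        red_smul, smul_eq_C_mul]
      rfl)
    (fun y hy h => by
      obtain ⟨v, h1, h2, h3⟩ := surj hb hy (funext fun l => (ev_Red νh x0 y l).symm.trans (h l))
      exact ⟨v, h1, h2, fun k => by rw [aeval_FF]; exact congrFun h3 k⟩)
    (((((n1.and n2).and n3).and n4).and n5).and n6)
  obtain ⟨r, σ, z, h1, h2, h3⟩ := main_const hx
  have hF' : FF (C ∘ νh) (νq.map C) x = 0 := funext fun k => (aeval_FF x k).symm.trans (hF k)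
  have hc := con_of _ _ hF'
  rw [ev_g g _ vS x h1 h2, C_ne_zero] at p6
  rw [ev_uG, ev_uG2, h1, h2, h3, ← map_qS] at p3
  rw [ev_uG, ev_uG, h3, h3] at p2
  rw [ev_uG, h3] at p1
  rw [ev_Gam] at p4
  rw [MvPolynomial.aeval_X] at p5
  rw [h1, h2, ← map_hS, ← map_qS] at hc
  refine ⟨r, σ, fun h => hs (h2.trans (by rw [h, C_0])), p6, 2 * n + 1, _, _, _, _, z,
    odd_two_mul_add_one n, fun i => hx (.inl i), main_m3 νh hx, hc, fun j => ⟨C_injective ?_,
    C_injective ?_⟩, p1, p2, p3, p4, p5⟩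
  · rw [C_0, RingHom.map_dotProduct, map_hS, primeb_map_pch, ← h2, ← h3]
    exact congrFun hF' (.inr (.inr (j, 0)))
  · rw [C_0, map_bq, map_qS, primeb_map_pch, ← h1, ← h2, ← h3]
    exact congrFun hF' (.inr (.inr (j, 1)))

theorem rn_inj : Function.Injective rn := by
  have h : StrictMono fun n : ℕ => (2 * (2 ^ (n + 1) - (2 ^ n)⁻¹) : ℝ) := fun a b h => by
    have h1 : (2 : ℝ) ^ (a + 1) < 2 ^ (b + 1) := pow_lt_pow_right₀ one_lt_two (by omega)
    have h2 : ((2 : ℝ) ^ b)⁻¹ < (2 ^ a)⁻¹ :=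
      inv_strictAnti₀ (by positivity) (pow_lt_pow_right₀ one_lt_two h)
    linarith
  intro a b e
  refine h.injective (Complex.ofReal_injective ?_)
  simpa [rn] using e

theorem dense (f : MvPolynomial Par ℂ) (hf : f ≠ 0) :
    ∃ t, MvPolynomial.eval t f ≠ 0 ∧ Data (hv t) (qm t) := by
  obtain ⟨t, ht⟩ : ∃ t, MvPolynomial.eval t f ≠ 0 := by
    by_contra! h
    exact hf (MvPolynomial.funext fun t => by rw [h, map_zero])
  set νh := hv t - (ell 1 + ell 2)
  set νq := qm t - q0 - qb 0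
  set g : ℂ[X][X] := MvPolynomial.eval₂ (C.comp C)
    (mkP (hS (C ∘ C ∘ νh) X) (qS ((νq.map C).map C) (C X) X)) f
  have hg : ∀ r σ, g.evalEval r σ = MvPolynomial.eval (mkP (hS νh σ) (qS νq r σ)) f := by
    intro r σ
    have e : ((evalEvalRingHom r σ).comp (C.comp C) : ℂ →+* ℂ) = RingHom.id ℂ := by
      ext c
      simp
    have := MvPolynomial.eval₂_comp_left (evalEvalRingHom r σ) (C.comp C)
      (mkP (hS (C ∘ C ∘ νh) X) (qS ((νq.map C).map C) (C X) X)) f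
    rw [e] at this
    refine this.trans (congrArg (fun t => MvPolynomial.eval t f) ?_)
    rw [map_mkP, map_hS, map_qS, Matrix.map_map, Matrix.map_map]
    simp [Function.comp_def]
  have g0 : g ≠ 0 := fun h => ht (by
    have := hg 0 1
    rw [h, evalEval_zero] at this
    rw [this, ← mkP_self t]
    simp [hS, qS, q1, νh, νq])
  obtain ⟨g', h1, h2⟩ := exists_eq_pow_rootMultiplicity_mul_and_not_dvd g g0 0
  rw [C_0, sub_zero] at h1 h2
  rw [X_dvd_iff] at h2
  obtain ⟨n, hn⟩ : ∃ n, (g'.coeff 0).eval (rn n) ≠ 0 := by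
    by_contra! h
    exact h2 (eq_zero_of_infinite_isRoot _ ((Set.infinite_range_of_injective rn_inj).mono
      (by rintro _ ⟨n, rfl⟩; exact h n)))
  obtain ⟨r, σ, hs, h3, h4⟩ := persist νh νq n g' hn
  refine ⟨mkP (hS νh σ) (qS νq r σ), ?_, by rwa [hv_mkP, qm_mkP]⟩
  rw [← hg, h1, evalEval_mul, evalEval_pow, evalEval_X]
  exact mul_ne_zero (pow_ne_zero _ hs) h3

theorem main (f : MvPolynomial Par ℂ) (hf : f ≠ 0) :
    ∃ t, MvPolynomial.eval t f ≠ 0 ∧ IsSmoothGM t ∧ (JN (hv t) (qm t)).IsPrime ∧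
      OddN (hv t) (qm t) := by
  obtain ⟨g, hg, hs⟩ := sm_poly
  obtain ⟨t, ht, hd⟩ := dense (f * g) (mul_ne_zero hf hg)
  rw [map_mul] at ht
  obtain ⟨h1, h2⟩ := hs t (right_ne_zero_of_mul ht)
  exact ⟨t, left_ne_zero_of_mul ht, (smooth_iff t).2 h1, h2, odd_of_data h2 hd⟩

end Pool.Agent.GMO
end
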