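import Pool.Agent.Work.MP_274aea_ag_Odd.Defs
import Pool.Agent.Work.MP_274aea_ag_D34.Num2

-- merged part: Pool.Agent.Work.MP_274aea_ag_Odd.Poly
section
/-! # Polynomial lemmas -/

set_option autoImplicit false

open Polynomial Matrix Pool.Agent.GM16 Pool.Agent.GM34

namespace Pool.Agent.GMO

@[simp] theorem du_fst {R : Type*} [CommRing R] (a b : R) : (du a b).fst = a := by simp [du]

@[simp] theorem du_snd {R : Type*} [CommRing R] (a b : R) : (du a b).snd = b := by simp [du]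

theorem dn_du {ι R : Type*} [CommRing R] (x v : ι → R) (i : ι) : dn x v i = du (x i) (v i) := rfl

theorem du_mul_fst {R : Type*} [CommRing R] (a b : DualNumber R) :
    (a * b).fst = a.fst * b.fst := TrivSqZeroExt.fst_mul a b

theorem du_mul_snd {R : Type*} [CommRing R] (a b : DualNumber R) :
    (a * b).snd = a.fst * b.snd + a.snd * b.fst := DualNumber.snd_mul a b

theorem cop_dual {R : Type*} [CommRing R] {a b : DualNumber R} (h : IsCoprime a.fst b.fst) :
    IsCoprime a b := by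
  obtain ⟨u, v, h⟩ := h
  have hx : IsUnit (du u 0 * a + du v 0 * b) := by
    rw [TrivSqZeroExt.isUnit_iff_isUnit_fst, TrivSqZeroExt.fst_add, du_mul_fst, du_mul_fst, du_fst,
      du_fst, h]
    exact isUnit_one
  obtain ⟨w, hw⟩ := hx.exists_left_inv
  exact ⟨w * du u 0, w * du v 0, by rw [← hw]; ring⟩

theorem poly_add {R : Type*} [CommRing R] {p q : R[X]} {n : ℕ} (hp : p.natDegree ≤ n)
    (hq : q.natDegree ≤ n) : (p + q).natDegree ≤ n := natDegree_add_le_of_degree_le hp hq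

theorem poly_sub {R : Type*} [CommRing R] {p q : R[X]} {n : ℕ} (hp : p.natDegree ≤ n)
    (hq : q.natDegree ≤ n) : (p - q).natDegree ≤ n := (natDegree_sub_le p q).trans (max_le hp hq)

theorem poly_quot {f a : ℂ[X]} {k : ℕ} (hf : f ≠ 0) (h : (f * a).natDegree ≤ f.natDegree + k) :
    a.natDegree ≤ k := by
  rcases eq_or_ne a 0 with rfl | ha
  · exact natDegree_zero.trans_le k.zero_le
  · rw [natDegree_mul hf ha] at h
    omega

/-- `y = f * a + g * b` with degree bounds: `y = f a0 + g b0`, reduce `b0` modulo `f`. -/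
theorem bez {f g y : ℂ[X]} {k : ℕ} (h : IsCoprime f g) (hf : f ≠ 0) (hg : g.natDegree ≤ k)
    (hy : y.natDegree ≤ f.natDegree + k) :
    ∃ a b, a.natDegree ≤ k ∧ b.natDegree ≤ f.natDegree ∧ y = f * a + g * b := by
  obtain ⟨u, v, h⟩ := h
  have hb : (y * v % f).natDegree ≤ f.natDegree :=
    natDegree_le_natDegree (degree_mod_lt _ hf).le
  have he : y = f * (y * u + g * (y * v / f)) + g * (y * v % f) := by
    linear_combination -y * h - g * EuclideanDomain.div_add_mod (y * v) f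
  refine ⟨_, _, poly_quot hf ?_, hb, he⟩
  rw [eq_sub_of_add_eq he.symm]
  exact poly_sub hy ((natDegree_mul_le_of_le hg hb).trans (add_comm _ _).le)

theorem deg_quot {f a : ℂ[X]} {k : ℕ} (hf : f ≠ 0) (h : (f * a).natDegree ≤ f.natDegree + k) :
    a.natDegree ≤ k := by
  exact poly_quot hf h

/-- The cofactor in the dual numbers. -/
theorem quot_dual {w p : DP} {a : ℂ[X]} {k : ℕ} (hw : w.fst ≠ 0) (h : w ∣ p) (ha : p.fst = w.fst * a)
    (h1 : w.snd.natDegree ≤ w.fst.natDegree) (h2 : a.natDegree ≤ k)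
    (h3 : p.snd.natDegree ≤ w.fst.natDegree + k) :
    ∃ b : DP, p = w * b ∧ b.fst = a ∧ b.snd.natDegree ≤ k := by
  obtain ⟨b, rfl⟩ := h
  have hb : b.fst = a := mul_left_cancel₀ hw ((du_mul_fst w b).symm.trans ha)
  refine ⟨b, rfl, hb, poly_quot hw ?_⟩
  rw [eq_sub_of_add_eq (du_mul_snd w b).symm, hb]
  exact poly_sub h3 (natDegree_mul_le_of_le h1 h2)

/-- A deformation of a product of coprime factors is a product of deformations. -/
theorem bez_dual {f g : ℂ[X]} {p : DP} (h : IsCoprime f g) (hf : f ≠ 0) (hp : p.fst = f * g)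
    (hd : p.snd.natDegree ≤ f.natDegree + g.natDegree) :
    ∃ a b : DP, p = a * b ∧ a.fst = f ∧ b.fst = g ∧ a.snd.natDegree ≤ f.natDegree ∧
      b.snd.natDegree ≤ g.natDegree := by
  obtain ⟨a, b, ha, hb, he⟩ := bez h hf le_rfl hd
  refine ⟨du f b, du g a, TrivSqZeroExt.ext ?_ ?_, du_fst _ _, du_fst _ _, ?_, ?_⟩
  · rw [du_mul_fst, du_fst, du_fst, hp]
  · rw [du_mul_snd, du_fst, du_fst, du_snd, du_snd, he, mul_comm g]
  · rwa [du_snd]
  · rwa [du_snd]

theorem cop_iff {f g : ℂ[X]} : IsCoprime f g ↔ ∀ s, f.eval s = 0 → g.eval s ≠ 0 := by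
  rw [Polynomial.isCoprime_iff_aeval_ne_zero_of_isAlgClosed ℂ ℂ]
  simp only [coe_aeval_eq_eval, imp_iff_not_or, ne_eq]

/-- At a root of `H` the two values of `U`, `V` are not both zero, so at most one `w` is bad. -/
theorem gen_cop {U V H : ℂ[X]} (h : ∀ s, H.eval s = 0 → U.eval s = 0 → V.eval s ≠ 0) (hH : H ≠ 0) :
    ∀ᶠ w in Filter.cofinite, IsCoprime (U + C w * V) H := by
  refine ((finite_setOfPred_isRoot hH).image fun s => -U.eval s / V.eval s).subset fun w hw => ?_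
  simp only [Set.mem_compl_iff, Set.mem_ofPred_eq, cop_iff, not_forall, not_not, eval_add, eval_mul,
    eval_C] at hw
  obtain ⟨s, h1, h2⟩ := hw
  have hV : V.eval s ≠ 0 := fun h0 => h s h2 (by rwa [h0, mul_zero, add_zero] at h1) h0
  exact ⟨s, h2, (div_eq_iff hV).2 (by linear_combination -h1)⟩

theorem gen_coeff (U : ℂ[X]) {V : ℂ[X]} {e : ℕ} (h : V.coeff e ≠ 0) :
    ∀ᶠ w in Filter.cofinite, (U + C w * V).coeff e ≠ 0 := by
  refine (Set.finite_singleton (-U.coeff e / V.coeff e)).subset fun w hw => ?_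
  simp only [Set.mem_compl_iff, Set.mem_ofPred_eq, not_not, coeff_add, coeff_C_mul] at hw
  exact ((div_eq_iff h).2 (by linear_combination -hw)).symm

theorem res_ne {K : Type*} [Field K] {f g : K[X]} {m n : ℕ} (hf : f.natDegree ≤ m)
    (hc : f.coeff m ≠ 0) (hg : g.natDegree ≤ n) (h : IsCoprime f g) : resultant f g m n ≠ 0 := by
  obtain rfl : m = f.natDegree := le_antisymm (le_natDegree_of_ne_zero hc) hf
  obtain ⟨k, rfl⟩ := Nat.exists_eq_add_of_le hg
  rw [resultant_add_right_deg _ _ _ _ _ le_rfl]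
  exact mul_ne_zero (pow_ne_zero _ hc) (resultant_ne_zero f g h)

theorem cop_of_res {K : Type*} [Field K] {f g : K[X]} {m n : ℕ} (hf : f.natDegree ≤ m)
    (hg : g.natDegree ≤ n) (hm : m ≠ 0) (h : resultant f g m n ≠ 0) : IsCoprime f g := by
  obtain ⟨p, q, -, -, he⟩ := exists_mul_add_mul_eq_C_resultant f g hf hg (Or.inl hm)
  refine ⟨C (resultant f g m n)⁻¹ * p, C (resultant f g m n)⁻¹ * q, ?_⟩
  rw [mul_assoc, mul_assoc, ← mul_add, mul_comm p, mul_comm q, he, ← C_mul, inv_mul_cancel₀ h, C_1]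

section Deg

variable {R : Type*} [CommRing R]

theorem deg_dot {ι : Type*} [Fintype ι] {a b : ι → R[X]} {m n : ℕ} (ha : ∀ i, (a i).natDegree ≤ m)
    (hb : ∀ i, (b i).natDegree ≤ n) : (a ⬝ᵥ b).natDegree ≤ m + n := by
  exact natDegree_sum_le_of_forall_le _ _ fun i _ => natDegree_mul_le_of_le (ha i) (hb i)

theorem deg_mulVec {ι κ : Type*} [Fintype ι] {M : Matrix κ ι R[X]} {b : ι → R[X]} {m n : ℕ}
    (hM : ∀ k i, (M k i).natDegree ≤ m) (hb : ∀ i, (b i).natDegree ≤ n) (k : κ) :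
    ((M *ᵥ b) k).natDegree ≤ m + n :=
  deg_dot (hM k) hb

theorem deg_mul {ι κ μ : Type*} [Fintype ι] {M : Matrix κ ι R[X]} {M' : Matrix ι μ R[X]} {m n : ℕ}
    (hM : ∀ k i, (M k i).natDegree ≤ m) (hM' : ∀ i j, (M' i j).natDegree ≤ n) (k : κ) (j : μ) :
    ((M * M') k j).natDegree ≤ m + n :=
  deg_dot (hM k) fun i => hM' i j

theorem deg_det3 {M : Matrix (Fin 3) (Fin 3) R[X]} {m : ℕ} (hM : ∀ i j, (M i j).natDegree ≤ m) :
    M.det.natDegree ≤ 3 * m := by
  have h : ∀ a b c d e f, (M a b * M c d * M e f).natDegree ≤ 3 * m := fun a b c d e f =>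
    (natDegree_mul_le_of_le (natDegree_mul_le_of_le (hM a b) (hM c d)) (hM e f)).trans (by omega)
  rw [det_fin_three]
  exact poly_sub (poly_add (poly_add (poly_sub (poly_sub (h ..) (h ..)) (h ..)) (h ..)) (h ..))
    (h ..)

theorem poly_cons {α : Type*} {n : ℕ} {P : α → Prop} {a : α} {v : Fin n → α} :
    (∀ i, P (vecCons a v i)) ↔ P a ∧ ∀ i, P (v i) := Fin.forall_fin_succ

theorem deg_Nm {f : Fin 5 → R[X]} {e : ℕ} (hf : ∀ i, (f i).natDegree ≤ e) (i j : Fin 10) :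
    (Nm f i j).natDegree ≤ e := by
  revert i j
  simp only [Nm, of_apply, poly_cons (P := fun v : Fin 10 → R[X] => ∀ j, (v j).natDegree ≤ e),
    poly_cons (P := fun p : R[X] => p.natDegree ≤ e), natDegree_neg, natDegree_zero, hf,
    e.zero_le, IsEmpty.forall_iff, and_self]

theorem deg_ctM {f : Fin 5 → R[X]} {e : ℕ} (hf : ∀ i, (f i).natDegree ≤ e) (i : Fin 5)
    (j : Fin 10) : (ctM f i j).natDegree ≤ e := by
  revert i j
  simp only [ctM, of_apply, poly_cons (P := fun v : Fin 10 → R[X] => ∀ j, (v j).natDegree ≤ e),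
    poly_cons (P := fun p : R[X] => p.natDegree ≤ e), natDegree_neg, natDegree_zero, hf,
    e.zero_le, IsEmpty.forall_iff, and_self]

theorem deg_xi0 {f : Fin 5 → R[X]} {e : ℕ} (hf : ∀ i, (f i).natDegree ≤ e) (i : Fin 10) :
    (xi0 f i).natDegree ≤ 2 * e := by
  have h1 : ∀ i j, (f i * f j).natDegree ≤ 2 * e := fun i j =>
    (natDegree_mul_le_of_le (hf i) (hf j)).trans (two_mul e).ge
  revert i
  simp only [xi0, poly_cons (P := fun p : R[X] => p.natDegree ≤ 2 * e), natDegree_zero, h1,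
    (2 * e).zero_le, IsEmpty.forall_iff, and_self]

theorem deg_sy {a b : Fin 10 → R[X]} {m n : ℕ} (ha : ∀ i, (a i).natDegree ≤ m)
    (hb : ∀ i, (b i).natDegree ≤ n) (i j : Fin 10) : (sy a b i j).natDegree ≤ m + n := by
  exact poly_add (natDegree_mul_le_of_le (ha i) (hb j))
    ((natDegree_mul_le_of_le (hb i) (ha j)).trans (add_comm _ _).le)

theorem poly_xis (x : Fin 6 → R) (i : Fin 3) (j : Fin 10) :
    (xis (C ∘ x : Fin 6 → R[X]) i j).natDegree ≤ 0 := by
  rw [← map_xis C x]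
  exact (natDegree_C _).le

theorem poly_psi {m : Fin 10 → R[X]} {e : ℕ} (hm : ∀ i, (m i).natDegree ≤ e) (x : Fin 6 → R)
    (i : Fin 3) : (psi m (C ∘ x) i).natDegree ≤ e := deg_dot (n := 0) hm (poly_xis x i)

theorem deg_GG {m : Fin 3 → Fin 10 → R[X]} {e : ℕ} (hm : ∀ a i, (m a i).natDegree ≤ e)
    (x : Fin 6 → R) : (GG m (C ∘ x)).natDegree ≤ 3 * e := by
  exact deg_det3 fun a i => poly_psi (hm a) x i

theorem deg_G2 {f : Fin 5 → R[X]} {m : Fin 3 → Fin 10 → R[X]} {e : ℕ}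
    (hf : ∀ i, (f i).natDegree ≤ e) (hm : ∀ a i, (m a i).natDegree ≤ e) (q : M10 R)
    (x : Fin 6 → R) : (G2 f (q.map C) m (C ∘ x)).natDegree ≤ 3 * e := by
  have hp : ∀ j, (pch (C ∘ x : Fin 6 → R[X]) j).natDegree ≤ 0 := fun j => by
    rw [← primeb_map_pch C x]
    exact (natDegree_C _).le
  have hq : ∀ k j, ((q.map C) k j).natDegree ≤ 0 := fun k j => (natDegree_C _).le
  refine deg_det3 fun a i => ?_
  have hN : ∀ k, ((Nm f *ᵥ xis (C ∘ x) i) k).natDegree ≤ e + 0 :=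
    deg_mulVec (deg_Nm hf) (poly_xis x i)
  fin_cases a
  · exact poly_psi (hm 0) x i
  · exact poly_psi (hm 1) x i
  · exact poly_add ((deg_dot hp (deg_mulVec hq hN)).trans (by omega))
      ((deg_dot hN (deg_mulVec hq hp)).trans (by omega))

end Deg

end Pool.Agent.GMO
end

-- merged part: Pool.Agent.Work.MP_274aea_ag_Odd.IFT
section
/-! # Implicit functions for families of polynomials, with redundant equations -/

set_option autoImplicit false

open Polynomial Matrix Pool.Agent.GM16 Pool.Agent.GM34 Topology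

namespace Pool.Agent.GMO

section Dual

variable {V A : Type} [CommRing A] [Algebra ℂ A]

theorem fst_dn (x v : V → A) (p : MvPolynomial V ℂ) :
    (MvPolynomial.aeval (dn x v) p).fst = MvPolynomial.aeval x p := by
  induction p using MvPolynomial.induction_on with
  | C a => simp [TrivSqZeroExt.algebraMap_eq_inl']
  | add p q hp hq => simp [hp, hq]
  | mul_X p i hp => simp [hp, dn]

theorem ift_C (x v : V → A) (a : ℂ) :
    (MvPolynomial.aeval (dn x v) (MvPolynomial.C a : MvPolynomial V ℂ)).snd = 0 := by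
  simp [TrivSqZeroExt.algebraMap_eq_inl']

theorem ift_step (x v : V → A) (p : MvPolynomial V ℂ) (i : V) :
    (MvPolynomial.aeval (dn x v) (p * MvPolynomial.X i)).snd =
      MvPolynomial.aeval x p * v i + (MvPolynomial.aeval (dn x v) p).snd * x i := by
  rw [map_mul, MvPolynomial.aeval_X, du_mul_snd, fst_dn, dn_du, du_snd, du_fst]

theorem snd_add (x v w : V → A) (p : MvPolynomial V ℂ) :
    (MvPolynomial.aeval (dn x (v + w)) p).snd =
      (MvPolynomial.aeval (dn x v) p).snd + (MvPolynomial.aeval (dn x w) p).snd := by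
  induction p using MvPolynomial.induction_on with
  | C a => simp only [ift_C, add_zero]
  | add p q hp hq =>
    simp only [map_add, TrivSqZeroExt.snd_add, hp, hq]
    ring
  | mul_X p i hp =>
    simp only [ift_step, hp, Pi.add_apply]
    ring

theorem snd_smul (x v : V → A) (c : ℂ) (p : MvPolynomial V ℂ) :
    (MvPolynomial.aeval (dn x (c • v)) p).snd = c • (MvPolynomial.aeval (dn x v) p).snd := by
  induction p using MvPolynomial.induction_on with
  | C a => simp only [ift_C, smul_zero]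
  | add p q hp hq => simp only [map_add, TrivSqZeroExt.snd_add, hp, hq, smul_add]
  | mul_X p i hp =>
    simp only [ift_step, hp, Pi.smul_apply, smul_add, mul_smul_comm, smul_mul_assoc]

end Dual

variable {V : Type} [Fintype V] {d : V → ℕ}

omit [Fintype V] in
theorem ift_coeff (c : Ix d → ℂ) (v : V) (n : ℕ) :
    (pv d c v).coeff n = if h : n < d v + 1 then c ⟨v, ⟨n, h⟩⟩ else 0 := by
  simp only [pv, finsetSum_coeff, coeff_monomial]
  split_ifs with h
  · rw [Finset.sum_eq_single ⟨n, h⟩]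
    · simp
    · intro b _ hb
      rw [if_neg]
      intro e
      exact hb (Fin.ext e)
    · simp
  · refine Finset.sum_eq_zero fun b _ => if_neg ?_
    intro e
    exact h (e ▸ b.2)

omit [Fintype V] in
theorem dg_pv (c : Ix d → ℂ) : Dg d (pv d c) := by
  intro v
  refine natDegree_le_iff_coeff_eq_zero.2 fun n hn => ?_
  rw [ift_coeff, dif_neg (by omega)]

omit [Fintype V] in
theorem cf_pv (c : Ix d → ℂ) : cf d (pv d c) = c := by
  funext i
  rw [cf, ift_coeff, dif_pos i.2.2]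

omit [Fintype V] in
theorem pv_cf {x : V → ℂ[X]} (h : Dg d x) : pv d (cf d x) = x := by
  funext v
  ext n
  rw [ift_coeff]
  split_ifs with hn
  · rfl
  · exact (coeff_eq_zero_of_natDegree_lt (lt_of_le_of_lt (h v) (by omega))).symm

omit [Fintype V] in
theorem ift_pv_add (c c' : Ix d → ℂ) : pv d (c + c') = pv d c + pv d c' := by
  funext v
  simp only [pv, Pi.add_apply, map_add, Finset.sum_add_distrib]

omit [Fintype V] in
theorem ift_pv_smul (a : ℂ) (c : Ix d → ℂ) : pv d (a • c) = a • pv d c := by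
  funext v
  simp only [pv, Pi.smul_apply, map_smul, Finset.smul_sum]

omit [Fintype V] in
theorem ift_lin (v : V) (n : ℕ) :
    ∃ L : (Ix d → ℂ) →L[ℂ] ℂ, ∀ c, L c = (pv d c v).coeff n := by
  by_cases h : n < d v + 1
  · exact ⟨ContinuousLinearMap.proj ⟨v, ⟨n, h⟩⟩, fun c => by rw [ift_coeff, dif_pos h]; rfl⟩
  · exact ⟨0, fun c => by rw [ift_coeff, dif_neg h]; rfl⟩

/-- Induction on `p` for all `n` at once; `coeff_mul` is a finite sum. -/
theorem coeff_deriv (c : Ix d → ℂ) (p : MvPolynomial V ℂ) (n : ℕ) :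
    ∃ L : (Ix d → ℂ) →L[ℂ] ℂ,
      HasStrictFDerivAt (fun z => (MvPolynomial.aeval (pv d z) p).coeff n) L c ∧
      ∀ w, L w = (MvPolynomial.aeval (dn (pv d c) (pv d w)) p).snd.coeff n := by
  induction p using MvPolynomial.induction_on generalizing n with
  | C a =>
    refine ⟨0, ?_, fun w => ?_⟩
    · simp only [MvPolynomial.aeval_C]
      exact hasStrictFDerivAt_const _ c
    · rw [ift_C]
      rfl
  | add p q hp hq =>
    obtain ⟨L, h1, h2⟩ := hp n
    obtain ⟨L', h1', h2'⟩ := hq n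
    refine ⟨L + L', ?_, fun w => ?_⟩
    · simp only [map_add, coeff_add]
      exact h1.add h1'
    · simp only [map_add, TrivSqZeroExt.snd_add, coeff_add, _root_.add_apply, h2, h2']
  | mul_X p i hp =>
    choose L h1 h2 using hp
    choose M hM using ift_lin (d := d) i
    have h3 : ∀ b, HasStrictFDerivAt (fun z => (pv d z i).coeff b) (M b) c := fun b => by
      have := (M b).hasStrictFDerivAt (x := c)
      rwa [show ((M b) : (Ix d → ℂ) → ℂ) = fun z => (pv d z i).coeff b from funext (hM b)] at this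
    refine ⟨∑ t ∈ Finset.HasAntidiagonal.antidiagonal n, ((MvPolynomial.aeval (pv d c) p).coeff t.1 • M t.2 +
      (pv d c i).coeff t.2 • L t.1), ?_, fun w => ?_⟩
    · simp only [map_mul, MvPolynomial.aeval_X, coeff_mul]
      exact HasStrictFDerivAt.fun_sum fun t _ => (h1 t.1).mul (h3 t.2)
    · rw [ift_step, coeff_add, coeff_mul, coeff_mul, ← Finset.sum_add_distrib,
        _root_.sum_apply]
      refine Finset.sum_congr rfl fun t _ => ?_
      simp only [_root_.add_apply, _root_.smul_apply, hM, h2, smul_eq_mul]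
      ring

theorem ift_cont {T W : Type} [TopologicalSpace T] (x : T → W → ℂ[X])
    (hx : ∀ w n, Continuous fun t => (x t w).coeff n) (p : MvPolynomial W ℂ) (n : ℕ) :
    Continuous fun t => (MvPolynomial.aeval (x t) p).coeff n := by
  induction p using MvPolynomial.induction_on generalizing n with
  | C a =>
    simp only [MvPolynomial.aeval_C]
    exact continuous_const
  | add p q hp hq =>
    simp only [map_add, coeff_add]
    exact (hp n).add (hq n)
  | mul_X p i hp =>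
    simp only [map_mul, MvPolynomial.aeval_X, coeff_mul]
    exact continuous_finsetSum _ fun t _ => (hp t.1).mul (hx i t.2)

omit [Fintype V] in
theorem ift_pv_cont (v : V) (n : ℕ) : Continuous fun z : Ix d → ℂ => (pv d z v).coeff n := by
  obtain ⟨L, hL⟩ := ift_lin (d := d) v n
  simp only [← hL]
  exact L.continuous

theorem coeff_cont (p : MvPolynomial V ℂ) (n : ℕ) :
    Continuous fun z => (MvPolynomial.aeval (pv d z) p).coeff n :=
  ift_cont (pv d) ift_pv_cont p n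

/-- A coefficient that vanishes identically has derivative zero. -/
theorem snd_deg {x v : V → ℂ[X]} (hx : Dg d x) (hv : Dg d v) {p : MvPolynomial V ℂ} {n : ℕ}
    (h : ∀ x : V → ℂ[X], Dg d x → (MvPolynomial.aeval x p).natDegree ≤ n) :
    (MvPolynomial.aeval (dn x v) p).snd.natDegree ≤ n := by
  refine natDegree_le_iff_coeff_eq_zero.2 fun m hm => ?_
  obtain ⟨L, h1, h2⟩ := coeff_deriv (cf d x) p m
  have h3 : (fun z => (MvPolynomial.aeval (pv d z) p).coeff m) = fun _ => 0 :=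
    funext fun z => coeff_eq_zero_of_natDegree_lt (lt_of_le_of_lt (h _ (dg_pv z)) hm)
  rw [h3] at h1
  have h4 : L = 0 := h1.hasFDerivAt.unique (hasFDerivAt_const _ _)
  have h5 := h2 (cf d v)
  rw [pv_cf hx, pv_cf hv, h4] at h5
  exact h5.symm

omit [Fintype V] in
theorem Near.and {x0 : V → ℂ[X]} {P Q : (V → ℂ[X]) → Prop} (hP : Near d x0 P)
    (hQ : Near d x0 Q) : Near d x0 fun x => P x ∧ Q x :=
  Filter.Eventually.and hP hQ

theorem near_coeff {x0 : V → ℂ[X]} (hx : Dg d x0) (p : MvPolynomial V ℂ) (n : ℕ)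
    (h : (MvPolynomial.aeval x0 p).coeff n ≠ 0) :
    Near d x0 fun x => (MvPolynomial.aeval x p).coeff n ≠ 0 := by
  refine (coeff_cont (d := d) p n).continuousAt.eventually_ne ?_
  rwa [pv_cf hx]

theorem near_ne {x0 : V → ℂ[X]} (hx : Dg d x0) (p : MvPolynomial V ℂ)
    (h : MvPolynomial.aeval x0 p ≠ 0) : Near d x0 fun x => MvPolynomial.aeval x p ≠ 0 := by
  refine (near_coeff hx p _ (leadingCoeff_ne_zero.2 h)).mono fun c hc e => hc ?_
  rw [e, coeff_zero]

/-- The resultant with fixed formal degrees is continuous; `res_ne`, `cop_of_res`. -/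
theorem near_cop {x0 : V → ℂ[X]} (hx : Dg d x0) (p p' : MvPolynomial V ℂ) {m : ℕ} (hm : m ≠ 0)
    (hd : ∀ x : V → ℂ[X], Dg d x → (MvPolynomial.aeval x p).natDegree ≤ m ∧
      (MvPolynomial.aeval x p').natDegree ≤ m)
    (hc : (MvPolynomial.aeval x0 p).coeff m ≠ 0)
    (h : IsCoprime (MvPolynomial.aeval x0 p) (MvPolynomial.aeval x0 p')) :
    Near d x0 fun x => IsCoprime (MvPolynomial.aeval x p) (MvPolynomial.aeval x p') := by
  have h1 : Continuous fun z : Ix d → ℂ =>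
      resultant (MvPolynomial.aeval (pv d z) p) (MvPolynomial.aeval (pv d z) p') m m := by
    refine Continuous.matrix_det (continuous_matrix fun i j => ?_)
    simp only [sylvester, of_apply]
    induction j using Fin.addCases with
    | left j =>
      simp only [Fin.addCases_left]
      split_ifs
      · exact coeff_cont _ _
      · exact continuous_const
    | right j =>
      simp only [Fin.addCases_right]
      split_ifs
      · exact coeff_cont _ _
      · exact continuous_const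
  have h2 : resultant (MvPolynomial.aeval (pv d (cf d x0)) p)
      (MvPolynomial.aeval (pv d (cf d x0)) p') m m ≠ 0 := by
    rw [pv_cf hx]
    exact res_ne (hd _ hx).1 hc (hd _ hx).2 h
  exact (h1.continuousAt.eventually_ne h2).mono fun c hc =>
    cop_of_res (hd _ (dg_pv c)).1 (hd _ (dg_pv c)).2 hm hc

/-- Take a complement `S'` of `S` and the projection `P` onto `S`. The map `x ↦ (P (G x), π x)` has
an onto derivative (`HasStrictFDerivAt.map_nhds_eq_of_surj`). For `x` near `x0` no nonzero `y` in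
`S'` has `R x y`: the unit sphere of `S'` is compact
(`IsCompact.eventually_forall_of_forall_eventually`). -/
theorem ift_red {E W : Type} [NormedAddCommGroup E] [NormedSpace ℂ E] [FiniteDimensional ℂ E]
    [NormedAddCommGroup W] [NormedSpace ℂ W] [FiniteDimensional ℂ W] {G : E → W} {D : E →L[ℂ] W}
    {x0 : E} (hG : HasStrictFDerivAt G D x0) (h0 : G x0 = 0) (π : E →L[ℂ] ℂ) (hπ : ∃ v, π v = 1)
    (S : Submodule ℂ W) (hS : ∀ y ∈ S, ∃ v, π v = 0 ∧ D v = y) (R : E → W → Prop)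
    (h1 : ∀ x, R x (G x)) (h2 : ∀ y, R x0 y → y ∈ S) (h3 : ∀ x (c : ℂ) y, R x y → R x (c • y))
    (h4 : IsClosed {p : E × W | R p.1 p.2}) {U : Set E} (hU : U ∈ 𝓝 x0) :
    ∃ x ∈ U, π x ≠ π x0 ∧ G x = 0 := by
  obtain ⟨S', hc⟩ := S.exists_isCompl
  have : CompleteSpace E := FiniteDimensional.complete ℂ E
  have : CompleteSpace S := FiniteDimensional.complete ℂ S
  have : ProperSpace W := FiniteDimensional.proper ℂ W
  let P : W →L[ℂ] S := LinearMap.toContinuousLinearMap (S.projectionOnto S' hc)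
  have hP1 : ∀ y : S, P y = y := fun y => Submodule.projectionOnto_apply_left hc y
  have hP2 : ∀ y, P y = 0 → y ∈ S' := fun y hy =>
    (Submodule.projectionOnto_apply_eq_zero_iff hc).1 hy
  have hH : HasStrictFDerivAt (fun x => (P (G x), π x)) ((P.comp D).prod π) x0 :=
    (P.hasStrictFDerivAt.comp x0 hG).prodMk π.hasStrictFDerivAt
  have hD : ((P.comp D).prod π).range = ⊤ := by
    rw [LinearMap.range_eq_top]
    rintro ⟨y, t⟩
    obtain ⟨v1, hv1⟩ := hπ
    obtain ⟨v, hv, hv'⟩ := hS _ (y - t • P (D v1)).2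
    refine ⟨v + t • v1, Prod.ext ?_ ?_⟩
    · change P (D (v + t • v1)) = y
      rw [map_add, map_add, map_smul, map_smul, hv', hP1, sub_add_cancel]
    · change π (v + t • v1) = t
      rw [map_add, map_smul, hv, hv1, zero_add, smul_eq_mul, mul_one]
  have hK : IsCompact (Metric.sphere (0 : W) 1 ∩ (S' : Set W)) :=
    (isCompact_sphere 0 1).inter_right S'.closed_of_finiteDimensional
  have hN : ∀ᶠ x in 𝓝 x0, ∀ y ∈ Metric.sphere (0 : W) 1 ∩ (S' : Set W), ¬ R x y := by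
    refine hK.eventually_forall_of_forall_eventually fun y hy => ?_
    refine h4.isOpen_compl.mem_nhds fun hr => ?_
    have e : y = 0 := (Submodule.disjoint_def.1 hc.disjoint) y (h2 y hr) hy.2
    have := hy.1
    rw [e] at this
    simp at this
  have h5 : (fun x => (P (G x), π x)) '' (U ∩ {x | ∀ y ∈ Metric.sphere (0 : W) 1 ∩ (S' : Set W),
      ¬ R x y}) ∈ 𝓝 (P (G x0), π x0) := by
    rw [← hH.map_nhds_eq_of_surj hD]
    exact Filter.image_mem_map (Filter.inter_mem hU hN)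
  rw [h0, map_zero] at h5
  have h6 : Continuous fun t : ℂ => ((0, t) : S × ℂ) := continuous_const.prodMk continuous_id
  have h7 := (h6.continuousAt (x := π x0)).preimage_mem_nhds h5
  obtain ⟨t, ⟨x, hx, e⟩, ht⟩ := Filter.nonempty_of_mem
    (Filter.inter_mem (mem_nhdsWithin_of_mem_nhds h7) (self_mem_nhdsWithin (a := π x0)
      (s := {π x0}ᶜ)))
  refine ⟨x, hx.1, ?_, ?_⟩
  · have e2 : π x = t := congrArg Prod.snd e
    rw [e2]
    exact ht
  · by_contra hne
    have e1 : G x ∈ S' := hP2 _ (congrArg Prod.fst e)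
    have hn : ‖G x‖ ≠ 0 := norm_ne_zero_iff.2 hne
    refine hx.2 (((‖G x‖⁻¹ : ℝ) : ℂ) • G x) ⟨?_, S'.smul_mem _ e1⟩ (h3 _ _ _ (h1 x))
    rw [mem_sphere_zero_iff_norm, norm_smul, Complex.norm_real, norm_inv, norm_norm,
      inv_mul_cancel₀ hn]

/-- Apply `ift_red` with `E = Ix d → ℂ`, `W = Ix D → ℂ`, `G c = cf D (F (pv d c))`, `π` the
coordinate `⟨s, 0⟩`. For closedness use `coeff_cont` for the variables `V ⊕ E` and the degrees
`Sum.elim d D`, or repeat the induction. -/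
theorem ift_poly {E Λ : Type} [Fintype E] (D : E → ℕ) (F : E → MvPolynomial V ℂ)
    (R : Λ → MvPolynomial (V ⊕ E) ℂ) (s : V) (x0 : V → ℂ[X]) (hs : d s = 0) (hs0 : x0 s = 0)
    (hx0 : Dg d x0) (h0 : ∀ k, MvPolynomial.aeval x0 (F k) = 0)
    (hD : ∀ x : V → ℂ[X], Dg d x → Dg D fun k => MvPolynomial.aeval x (F k))
    (hR : ∀ (x : V → ℂ[X]) l,
      MvPolynomial.aeval (Sum.elim x fun k => MvPolynomial.aeval x (F k)) (R l) = 0)
    (hadd : ∀ (y y' : E → ℂ[X]) l, MvPolynomial.aeval (Sum.elim x0 (y + y')) (R l) =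
      MvPolynomial.aeval (Sum.elim x0 y) (R l) + MvPolynomial.aeval (Sum.elim x0 y') (R l))
    (hsmul : ∀ (x : V → ℂ[X]) (c : ℂ) (y : E → ℂ[X]) l,
      MvPolynomial.aeval (Sum.elim x (c • y)) (R l) = c • MvPolynomial.aeval (Sum.elim x y) (R l))
    (hsurj : ∀ y : E → ℂ[X], Dg D y → (∀ l, MvPolynomial.aeval (Sum.elim x0 y) (R l) = 0) →
      ∃ v, Dg d v ∧ v s = 0 ∧ ∀ k, (MvPolynomial.aeval (dn x0 v) (F k)).snd = y k)
    {P : (V → ℂ[X]) → Prop} (hP : Near d x0 P) :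
    ∃ x, Dg d x ∧ P x ∧ x s ≠ 0 ∧ ∀ k, MvPolynomial.aeval x (F k) = 0 := by
  choose L hL hL' using fun i : Ix D => coeff_deriv (cf d x0) (F i.1) i.2
  let G : (Ix d → ℂ) → Ix D → ℂ := fun c => cf D fun k => MvPolynomial.aeval (pv d c) (F k)
  have hG : HasStrictFDerivAt G (ContinuousLinearMap.pi L) (cf d x0) :=
    hasStrictFDerivAt_pi.2 hL
  have hGp : ∀ c, pv D (G c) = fun k => MvPolynomial.aeval (pv d c) (F k) := fun c =>
    pv_cf (hD _ (dg_pv c))
  let S : Submodule ℂ (Ix D → ℂ) :=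
    { carrier := {y | ∀ l, MvPolynomial.aeval (Sum.elim x0 (pv D y)) (R l) = 0}
      add_mem' := fun {a b} ha hb l => by rw [ift_pv_add, hadd, ha l, hb l, add_zero]
      zero_mem' := fun l => by
        rw [← zero_smul ℂ (0 : Ix D → ℂ), ift_pv_smul, hsmul, zero_smul]
      smul_mem' := fun c a ha l => by rw [ift_pv_smul, hsmul, ha l, smul_zero] }
  let π : (Ix d → ℂ) →L[ℂ] ℂ := ContinuousLinearMap.proj ⟨s, 0⟩
  have hπ : ∀ c, π c = (pv d c s).coeff 0 := fun c => by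
    rw [ift_coeff, dif_pos (Nat.succ_pos _)]
    rfl
  refine (ift_red hG (funext fun i => ?_) π ⟨fun _ => 1, rfl⟩ S (fun y hy => ?_)
    (fun c y => ∀ l, MvPolynomial.aeval (Sum.elim (pv d c) (pv D y)) (R l) = 0)
    (fun c l => ?_) (fun y hy l => ?_) (fun c a y hy l => ?_) ?_ hP).elim fun c hc =>
      ⟨pv d c, dg_pv c, hc.1, fun e => hc.2.1 ?_, fun k => ?_⟩
  · change (MvPolynomial.aeval (pv d (cf d x0)) (F i.1)).coeff i.2 = 0
    rw [pv_cf hx0, h0, coeff_zero]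
  · obtain ⟨v, hv, hv0, hv1⟩ := hsurj (pv D y) (dg_pv y) hy
    refine ⟨cf d v, ?_, funext fun i => ?_⟩
    · rw [hπ, pv_cf hv, hv0, coeff_zero]
    · change L i (cf d v) = y i
      rw [hL', pv_cf hx0, pv_cf hv, hv1]
      exact congrFun (cf_pv y) i
  · rw [hGp]
    exact hR _ l
  · have := hy l
    rwa [pv_cf hx0] at this
  · rw [ift_pv_smul, hsmul, hy l, smul_zero]
  · simp only [Set.ofPred_forall, Polynomial.ext_iff]
    refine isClosed_iInter fun l => isClosed_iInter fun n => isClosed_eq ?_ continuous_const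
    refine ift_cont (fun p : (Ix d → ℂ) × (Ix D → ℂ) => Sum.elim (pv d p.1) (pv D p.2))
      (fun w m => ?_) (R l) n
    rcases w with w | w
    · exact (ift_pv_cont w m).comp continuous_fst
    · exact (ift_pv_cont w m).comp continuous_snd
  · rw [hπ, hπ, pv_cf hx0, e, hs0]
  · rw [← congrFun (hGp c) k, hc.2.2, ← zero_smul ℂ (0 : Ix D → ℂ), ift_pv_smul, zero_smul]
    rfl

end Pool.Agent.GMO
end

-- merged part: Pool.Agent.Work.MP_274aea_ag_Odd.Bundle
section
/-! # Sections of the second exterior power of the kernel bundle (PROOF.md, section 4) -/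

set_option autoImplicit false

open Polynomial Matrix Pool.Agent.GM16 Pool.Agent.GM34

namespace Pool.Agent.GMO

section Ring

variable {A : Type*} [CommRing A]

def gam (f : Fin 5 → A) (η : Fin 10 → A) (j : Fin 5) : A :=
  f (j + 1) * f (j + 2) * (edg (j + 4) ⬝ᵥ η) + f (j + 4) * f (j + 3) * (edg (j + 1) ⬝ᵥ η) +
    f (j + 4) * f (j + 1) * (ell j ⬝ᵥ η)

theorem gam_zero (f : Fin 5 → A) (η : Fin 10 → A) : gam f η 0 = xi0 f ⬝ᵥ η := by
  simp [gam, xi0, edg, ell, dotProduct, Fin.sum_univ_succ]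
  ring

theorem gam_sub (f : Fin 5 → A) (η : Fin 10 → A) (i : Fin 5) :
    gam f η (i + 1) - gam f η (i + 4) = f i * (ctM f *ᵥ η) i := by
  fin_cases i <;> simp [gam, ctM, edg, ell, dotProduct, mulVec, Fin.sum_univ_succ] <;> ring

theorem bundle_edg (η : Fin 10 → A) : (fun j => edg j ⬝ᵥ η) = ![η 7, η 9, -η 3, η 0, η 4] := by
  funext j
  fin_cases j <;> simp [edg, dotProduct, Fin.sum_univ_succ]

theorem bundle_ell (η : Fin 10 → A) : (fun j => ell j ⬝ᵥ η) = ![η 6, -η 1, -η 5, -η 8, η 2] := by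
  funext j
  fin_cases j <;> simp [ell, dotProduct, Fin.sum_univ_succ]

theorem bundle_n (f : Fin 5 → A) : (fun i => Nm f *ᵥ ell i) =
    ![![0, f 3, -f 2, 0, 0, 0, 0, f 0, 0, 0], ![0, 0, 0, 0, 0, f 4, -f 3, 0, 0, f 1],
      ![0, f 4, 0, -f 2, 0, 0, 0, 0, f 0, 0], ![f 3, 0, -f 1, 0, 0, f 0, 0, 0, 0, 0],
      ![0, 0, 0, 0, f 4, 0, -f 2, 0, f 1, 0]] := by
  funext i k
  rw [← Nm_tr, mulVec_transpose, vecMul, congrFun (bundle_ell _) i]
  fin_cases i <;> fin_cases k <;> simp [Nm]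

theorem gam_n (f : Fin 5 → A) (i j : Fin 5) : gam f (Nm f *ᵥ ell i) j = 0 := by
  simp only [gam, congrFun (bundle_edg _) _, congrFun (bundle_ell _) _, congrFun (bundle_n f) i]
  fin_cases i <;> fin_cases j <;> simp <;> ring

theorem edg_n (f : Fin 5 → A) (i j : Fin 5) :
    edg j ⬝ᵥ Nm f *ᵥ ell i = if j = i then f i else 0 := by
  simp only [congrFun (bundle_edg _) _, congrFun (bundle_n f) i]
  fin_cases i <;> fin_cases j <;> simp

/-- Edges and diagonals are all coordinates. -/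
theorem coord_ext {η : Fin 10 → A} (h1 : ∀ j, edg j ⬝ᵥ η = 0) (h2 : ∀ j, ell j ⬝ᵥ η = 0) :
    η = 0 := by
  have a := (bundle_edg η).symm.trans (funext h1)
  have b := (bundle_ell η).symm.trans (funext h2)
  funext i
  fin_cases i
  exacts [congrFun a 3, neg_eq_zero.1 (congrFun b 1), congrFun b 4, neg_eq_zero.1 (congrFun a 2),
    congrFun a 4, neg_eq_zero.1 (congrFun b 2), congrFun b 0, congrFun a 0,
    neg_eq_zero.1 (congrFun b 3), congrFun a 1]

theorem coord_mk (x y : Fin 5 → A) :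
    ∃ η : Fin 10 → A, (∀ j, edg j ⬝ᵥ η = x j) ∧ (∀ j, ell j ⬝ᵥ η = y j) ∧
      ∀ i, ∃ j, η i = x j ∨ η i = -x j ∨ η i = y j ∨ η i = -y j :=
  ⟨![x 3, -y 1, y 4, -x 2, x 4, -y 2, y 0, x 0, -y 3, x 1], fun j => by
    rw [congrFun (bundle_edg _) j]
    fin_cases j <;> simp, fun j => by
    rw [congrFun (bundle_ell _) j]
    fin_cases j <;> simp, fun i => by
    fin_cases i
    exacts [⟨3, .inl rfl⟩, ⟨1, .inr (.inr (.inr rfl))⟩, ⟨4, .inr (.inr (.inl rfl))⟩,
      ⟨2, .inr (.inl rfl)⟩, ⟨4, .inl rfl⟩, ⟨2, .inr (.inr (.inr rfl))⟩, ⟨0, .inr (.inr (.inl rfl))⟩,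
      ⟨0, .inl rfl⟩, ⟨3, .inr (.inr (.inr rfl))⟩, ⟨1, .inl rfl⟩]⟩

theorem bundle_gam_lin (f g : Fin 5 → A) (η : Fin 10 → A) (j : Fin 5) :
    gam f (η - ∑ i, g i • Nm f *ᵥ ell i) j = gam f η j := by
  have h : gam f (η - ∑ i, g i • Nm f *ᵥ ell i) j =
      gam f η j - ∑ i, g i * gam f (Nm f *ᵥ ell i) j := by
    simp only [gam, dotProduct_sub, dotProduct_add, dotProduct_smul, smul_eq_mul,
      Fin.sum_univ_five]
    ring
  simp only [h, gam_n, mul_zero, Finset.sum_const_zero, sub_zero]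

theorem bundle_gam_all {f : Fin 5 → A} {η : Fin 10 → A} (h : ctM f *ᵥ η = 0) (j : Fin 5) :
    gam f η j = xi0 f ⬝ᵥ η := by
  have k : ∀ i, gam f η (i + 1) = gam f η (i + 4) := fun i =>
    sub_eq_zero.1 (by rw [gam_sub, h, Pi.zero_apply, mul_zero])
  have k1 : gam f η 2 = gam f η 0 := k 1
  have k4 : gam f η 0 = gam f η 3 := k 4
  have k2 : gam f η 3 = gam f η 1 := k 2
  have k0 : gam f η 1 = gam f η 4 := k 0
  rw [← gam_zero]
  fin_cases j
  exacts [rfl, (k4.trans k2).symm, k1, k4.symm, ((k4.trans k2).trans k0).symm]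

theorem bundle_ct_n (f : Fin 5 → A) (η : Fin 10 → A) : ctM f *ᵥ Nm f *ᵥ η = 0 := by
  rw [mulVec_mulVec, ct_Nm, zero_mulVec]

theorem bundle_ct_sy {f : Fin 5 → A} {a : Fin 10 → A} (h : ctM f *ᵥ a = 0) (η : Fin 10 → A) :
    ctM f * sy a (Nm f *ᵥ η) = 0 := by
  rw [mul_sy, h, bundle_ct_n, zero_vecMulVec, zero_vecMulVec, add_zero]

theorem bundle_sy_add (a b c : Fin 10 → A) : sy (a + b) c = sy a c + sy b c := by
  simp only [sy, add_vecMulVec, vecMulVec_add]
  abel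

theorem bundle_sy_smul (r : A) (a c : Fin 10 → A) : sy (r • a) c = r • sy a c := by
  simp only [sy, smul_vecMulVec, vecMulVec_smul, smul_add]

theorem bundle_deg_edg {η : Fin 10 → A[X]} {m : ℕ} (h : ∀ i, (η i).natDegree ≤ m) (j : Fin 5) :
    (edg j ⬝ᵥ η).natDegree ≤ m := by
  rw [congrFun (bundle_edg η) j]
  fin_cases j <;> simp [h]

theorem bundle_deg_n {f : Fin 5 → A[X]} {e : ℕ} (h : ∀ i, (f i).natDegree ≤ e) (j : Fin 5)
    (i : Fin 10) : ((Nm f *ᵥ ell j) i).natDegree ≤ e := by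
  rw [congrFun (bundle_n f) j]
  fin_cases j <;> fin_cases i <;> simp [h]

end Ring

variable {e : ℕ} {f : Fin 5 → ℂ[X]}

theorem bundle_fin : ∀ j : Fin 5, j + 1 + 4 = j ∧ j + 4 + 2 = j + 1 ∧ j + 4 + 3 = j + 2 ∧
    j + 1 + 2 = j + 3 ∧ j + 1 + 3 = j + 4 ∧ j + 4 ≠ j + 1 := by
  decide

theorem bundle_add {a b : ℂ[X]} {m : ℕ} (ha : a.natDegree ≤ m) (hb : b.natDegree ≤ m) :
    (a + b).natDegree ≤ m :=
  natDegree_add_le_of_degree_le ha hb

theorem bundle_sub {a b : ℂ[X]} {m : ℕ} (ha : a.natDegree ≤ m) (hb : b.natDegree ≤ m) :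
    (a - b).natDegree ≤ m :=
  (natDegree_sub_le a b).trans (max_le ha hb)

theorem bundle_mul (hf : Pent e f) (i : Fin 5) {a : ℂ[X]} {m : ℕ} (ha : a.natDegree ≤ m) :
    (f i * a).natDegree ≤ e + m :=
  natDegree_mul_le_of_le (hf.1 i).2.le ha

theorem bundle_quot (hf : Pent e f) (i : Fin 5) {a : ℂ[X]} {m : ℕ}
    (h : (f i * a).natDegree ≤ e + m) : a.natDegree ≤ m :=
  deg_quot (hf.1 i).1 ((hf.1 i).2.symm ▸ h)

theorem bundle_cancel (hf : Pent e f) (i : Fin 5) {η : Fin 10 → ℂ[X]}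
    (h : ctM f *ᵥ (f i • η) = 0) : ctM f *ᵥ η = 0 := by
  rw [mulVec_smul] at h
  exact funext fun k => (mul_eq_zero.1 (congrFun h k)).resolve_left (hf.1 i).1

/-- `y j = f 0 * A j + f 1 * B j` for `j = 2, 3, 4` (`bez`), then
`f 0 * (y 0 + ∑ f j * A j) + f 1 * (y 1 + ∑ f j * B j) = 0` gives the coordinate `η 0`. Take
`η = ![c, A 2, A 3, A 4, B 2, B 3, B 4, 0, 0, 0]`. -/
theorem lemA (hf : Pent e f) {y : Fin 5 → ℂ[X]} (hy : ∀ i, (y i).natDegree ≤ 2 * e)
    (h : f ⬝ᵥ y = 0) : ∃ η : Fin 10 → ℂ[X], (∀ i, (η i).natDegree ≤ e) ∧ ctM f *ᵥ η = y := by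
  have hy' : ∀ j, (y j).natDegree ≤ e + e := fun j => two_mul e ▸ hy j
  choose a b ha hb hab using fun j => bez (hf.2 0 1 (by decide)) (hf.1 0).1 (hf.1 1).2.le
    (show (y j).natDegree ≤ (f 0).natDegree + e from (hf.1 0).2.symm ▸ hy' j)
  rw [(hf.1 0).2] at hb
  have h1 : f 0 * (y 0 + f 2 * a 2 + f 3 * a 3 + f 4 * a 4) +
      f 1 * (y 1 + f 2 * b 2 + f 3 * b 3 + f 4 * b 4) = 0 := by
    rw [dotProduct, Fin.sum_univ_five, hab 2, hab 3, hab 4] at h
    linear_combination h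
  obtain ⟨c, hc⟩ : f 0 ∣ y 1 + f 2 * b 2 + f 3 * b 3 + f 4 * b 4 :=
    (hf.2 0 1 (by decide)).dvd_of_dvd_mul_left
      ⟨-(y 0 + f 2 * a 2 + f 3 * a 3 + f 4 * a 4), by linear_combination h1⟩
  have h2 : y 0 + f 2 * a 2 + f 3 * a 3 + f 4 * a 4 + f 1 * c = 0 :=
    mul_left_cancel₀ (hf.1 0).1 (by rw [hc] at h1; linear_combination h1)
  have hd : c.natDegree ≤ e := bundle_quot hf 0 (hc ▸ bundle_add (bundle_add (bundle_add (hy' 1)
    (bundle_mul hf 2 (hb 2))) (bundle_mul hf 3 (hb 3))) (bundle_mul hf 4 (hb 4)))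
  refine ⟨![c, a 2, a 3, a 4, b 2, b 3, b 4, 0, 0, 0], fun i => ?_, funext fun i => ?_⟩
  · fin_cases i <;> simp [ha, hb, hd]
  · fin_cases i <;> simp [ctM, mulVec, dotProduct, Fin.sum_univ_succ]
    · linear_combination -h2
    · linear_combination -hc
    exacts [(hab 2).symm, (hab 3).symm, (hab 4).symm]

/-- All `gam f η j` vanish, so `f j ∣ edg j ⬝ᵥ η`. -/
theorem lemB1 (hf : Pent e f) {η : Fin 10 → ℂ[X]} (h1 : ctM f *ᵥ η = 0) (h2 : xi0 f ⬝ᵥ η = 0) :
    ∃ g : Fin 5 → ℂ[X], (∀ j, edg j ⬝ᵥ η = f j * g j) ∧ η = ∑ j, g j • Nm f *ᵥ ell j := by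
  have hg : ∀ j, gam f η j = 0 := fun j => (bundle_gam_all h1 j).trans h2
  have hd : ∀ j, f (j + 4) ∣ edg (j + 4) ⬝ᵥ η := fun j =>
    ((hf.2 (j + 4) (j + 1) (by revert j; decide)).mul_right
      (hf.2 (j + 4) (j + 2) (by revert j; decide))).dvd_of_dvd_mul_left
      ⟨-(f (j + 3) * (edg (j + 1) ⬝ᵥ η) + f (j + 1) * (ell j ⬝ᵥ η)), by
        have := hg j
        rw [gam] at this
        linear_combination this⟩
  have hd' : ∀ j, f j ∣ edg j ⬝ᵥ η := fun j => by
    have := hd (j + 1)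
    rwa [(bundle_fin j).1] at this
  choose g hg' using hd'
  have h3 : ∀ j, edg j ⬝ᵥ (η - ∑ i, g i • Nm f *ᵥ ell i) = 0 := fun j => by
    simp only [dotProduct_sub, dotProduct_sum, dotProduct_smul, edg_n, smul_eq_mul, mul_ite,
      mul_zero, Finset.sum_ite_eq, Finset.mem_univ, if_true, hg' j]
    ring
  refine ⟨g, hg', sub_eq_zero.1 (coord_ext h3 fun j => ?_)⟩
  have h4 := (bundle_gam_lin f g η j).trans (hg j)
  rw [gam, h3, h3, mul_zero, mul_zero, zero_add, zero_add] at h4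
  exact (mul_eq_zero.1 h4).resolve_left (mul_ne_zero (hf.1 _).1 (hf.1 _).1)

/-- Solve `f k ∣ g - f (k + 2) * f (k + 3) * x k` with `x k` of degree at most `e`, then divide
`g - f (j + 1) * f (j + 2) * x (j + 4) - f (j + 4) * f (j + 3) * x (j + 1)` by
`f (j + 4) * f (j + 1)`. -/
theorem lemB2 (hf : Pent e f) {g : ℂ[X]} (hg : g.natDegree ≤ 3 * e) :
    ∃ η : Fin 10 → ℂ[X], (∀ i, (η i).natDegree ≤ e) ∧ ctM f *ᵥ η = 0 ∧ xi0 f ⬝ᵥ η = g := by
  choose a x ha hx hax using fun k : Fin 5 => bez (k := e + e) (y := g)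
    ((hf.2 k (k + 2) (by revert k; decide)).mul_right (hf.2 k (k + 3) (by revert k; decide)))
    (hf.1 k).1 (bundle_mul hf _ (hf.1 _).2.le) (by rw [(hf.1 k).2]; omega)
  simp only [fun k => (hf.1 k).2] at hx
  have hy : ∀ j : Fin 5, f (j + 4) * f (j + 1) ∣
      g - f (j + 1) * f (j + 2) * x (j + 4) - f (j + 4) * f (j + 3) * x (j + 1) := fun j => by
    have h1 := hax (j + 4)
    have h2 := hax (j + 1)
    obtain ⟨-, e1, e2, e3, e4, e5⟩ := bundle_fin j
    rw [e1, e2] at h1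
    rw [e3, e4] at h2
    exact (hf.2 _ _ e5).mul_dvd
      ⟨a (j + 4) - f (j + 3) * x (j + 1), by linear_combination h1⟩
      ⟨a (j + 1) - f (j + 2) * x (j + 4), by linear_combination h2⟩
  choose y hy using hy
  have h3 : ∀ i k l, (f i * f k * x l).natDegree ≤ e + (e + e) := fun i k l =>
    mul_assoc (f i) (f k) (x l) ▸ bundle_mul hf i (bundle_mul hf k (hx l))
  have hd : ∀ j, (y j).natDegree ≤ e := fun j =>
    bundle_quot hf (j + 1) (bundle_quot hf (j + 4) (by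
      rw [← mul_assoc, ← hy j]
      exact bundle_sub (bundle_sub (by omega) (h3 _ _ _)) (h3 _ _ _)))
  obtain ⟨η, h4, h5, h6⟩ := coord_mk x y
  have h7 : ∀ j, gam f η j = g := fun j => by
    rw [gam, h4, h4, h5, ← hy j]
    ring
  refine ⟨η, fun i => ?_, funext fun i => ?_, (gam_zero f η).symm.trans (h7 0)⟩
  · obtain ⟨j, h | h | h | h⟩ := h6 i <;> simp only [h, natDegree_neg, hx, hd]
  · have := gam_sub f η i
    rw [h7, h7, sub_self] at this
    exact (mul_eq_zero.1 this.symm).resolve_left (hf.1 i).1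

theorem bundle_rest (hf : Pent e f) {Y : M10 ℂ[X]} (hs : Yᵀ = Y) (hc : ctM f * Y = 0)
    (hd : ∀ i j, (Y i j).natDegree ≤ 2 * e) (h0 : Y *ᵥ xi0 f = 0) :
    ∃ ζ : Fin 5 → Fin 10 → ℂ[X], (∀ a i, (ζ a i).natDegree ≤ e) ∧ (∀ a, ctM f *ᵥ ζ a = 0) ∧
      Y = ∑ a, sy (ζ a) (Nm f *ᵥ ell a) := by
  have hr : ∀ c, ctM f *ᵥ Y c = 0 := fun c => funext fun k => by
    have := congrFun (congrFun hc k) c
    rwa [← hs] at this
  choose B h1 h2 using fun c => lemB1 hf (hr c) ((dotProduct_comm _ _).trans (congrFun h0 c))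
  have h3 : Y = ∑ a, vecMulVec (fun c => B c a) (Nm f *ᵥ ell a) := by
    ext1 c i
    rw [h2 c, Finset.sum_apply, Matrix.sum_apply]
    rfl
  have h4 : Y + Y = ∑ a, sy (fun c => B c a) (Nm f *ᵥ ell a) := by
    have := congrArg transpose h3
    rw [hs, transpose_sum] at this
    simp only [transpose_vecMulVec] at this
    simp only [sy, Finset.sum_add_distrib, ← h3, ← this]
  refine ⟨fun a => C (2⁻¹ : ℂ) • fun c => B c a, fun a c => ?_, fun a => ?_, ?_⟩
  · refine (natDegree_C_mul_le _ _).trans (bundle_quot hf a ?_)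
    rw [← h1 c a, ← two_mul]
    exact bundle_deg_edg (hd c) a
  · have : (f a • fun c => B c a) = Y *ᵥ edg a :=
      funext fun c => (h1 c a).symm.trans (dotProduct_comm _ _)
    rw [mulVec_smul, bundle_cancel hf a (by rw [this, mulVec_mulVec, hc, zero_mulVec]), smul_zero]
  · simp only [bundle_sy_smul]
    rw [← Finset.smul_sum, ← h4, ← two_smul ℂ[X], smul_smul, ← map_ofNat C 2, ← map_mul,
      inv_mul_cancel₀ two_ne_zero, map_one, one_smul]

theorem lemB (hf : Pent e f) {Y : M10 ℂ[X]} (hs : Yᵀ = Y) (hc : ctM f * Y = 0)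
    (hd : ∀ i j, (Y i j).natDegree ≤ 2 * e) (h0 : xi0 f ⬝ᵥ Y *ᵥ xi0 f = 0) :
    ∃ ζ : Fin 5 → Fin 10 → ℂ[X], (∀ a i, (ζ a i).natDegree ≤ e) ∧ (∀ a, ctM f *ᵥ ζ a = 0) ∧
      Y = ∑ a, sy (ζ a) (Nm f *ᵥ ell a) := by
  have he : ∀ i, (f i).natDegree ≤ e := fun i => (hf.1 i).2.le
  obtain ⟨g, h1, h2⟩ := lemB1 hf (η := Y *ᵥ xi0 f) (by rw [mulVec_mulVec, hc, zero_mulVec]) h0
  choose η h3 h4 h5 using fun j => lemB2 hf (g := g j) (bundle_quot hf j (by
    rw [← h1 j]
    exact (bundle_deg_edg (deg_mulVec hd (deg_xi0 he)) j).trans (by omega)))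
  obtain ⟨ζ, h6, h7, h8⟩ := bundle_rest hf (Y := Y - ∑ a, sy (η a) (Nm f *ᵥ ell a))
    (by simp only [transpose_sub, transpose_sum, sy_tr, hs])
    (by simp only [Matrix.mul_sub, Matrix.mul_sum, hc, bundle_ct_sy (h4 _), Finset.sum_const_zero,
      sub_zero])
    (fun i j => bundle_sub (hd i j) (by
      rw [Matrix.sum_apply, two_mul]
      exact natDegree_sum_le_of_forall_le _ _ fun a _ => deg_sy (h3 a) (bundle_deg_n he a) i j))
    (by simp only [sub_mulVec, sum_mulVec, sy_mulVec, dotProduct_comm _ (xi0 f), xi0_n, h5,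
      zero_smul, zero_add, ← h2, sub_self])
  refine ⟨fun a => η a + ζ a, fun a i => bundle_add (h3 a i) (h6 a i), fun a => ?_, ?_⟩
  · rw [mulVec_add, h4, h7, add_zero]
  · simp only [bundle_sy_add, Finset.sum_add_distrib, ← h8, add_sub_cancel]

/-- `η = ![ζ 2, ζ 3, ζ 0, ζ 4, ζ 1 - ζ 2]`. -/
theorem lemB' (hf : Pent e f) (νh : Fin 10 → ℂ[X]) {Y : M10 ℂ[X]} (hs : Yᵀ = Y)
    (hc : ctM f * Y = 0) (hd : ∀ i j, (Y i j).natDegree ≤ 2 * e) (h0 : xi0 f ⬝ᵥ Y *ᵥ xi0 f = 0) :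
    ∃ η : Fin 5 → Fin 10 → ℂ[X], (∀ a i, (η a i).natDegree ≤ e) ∧ (∀ a, ctM f *ᵥ η a = 0) ∧
      Y = ∑ a, sy (η a) (Nm f *ᵥ lp νh 0 a) := by
  obtain ⟨ζ, h1, h2, h3⟩ := lemB hf hs hc hd h0
  refine ⟨![ζ 2, ζ 3, ζ 0, ζ 4, ζ 1 - ζ 2], fun a i => ?_, fun a => ?_, ?_⟩
  · fin_cases a
    exacts [h1 2 i, h1 3 i, h1 0 i, h1 4 i, bundle_sub (h1 1 i) (h1 2 i)]
  · fin_cases a
    exacts [h2 2, h2 3, h2 0, h2 4, (mulVec_sub _ _ _).trans (by rw [h2, h2, sub_zero])]
  · rw [h3, Fin.sum_univ_five, Fin.sum_univ_five]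
    simp only [lp, hS, zero_smul, add_zero, cons_val, cons_val_zero, cons_val_one, mulVec_add, sy,
      add_vecMulVec, vecMulVec_add, sub_vecMulVec, vecMulVec_sub]
    abel

end Pool.Agent.GMO
end

-- merged part: Pool.Agent.Work.MP_274aea_ag_Odd.Wit
section
/-! # The two witness points, and the open conditions on the parameter (PROOF.md, 1 and 5) -/

set_option autoImplicit false

open Polynomial Matrix Pool.Agent.GM16 Pool.Agent.GM34

namespace Pool.Agent.GMO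

section Ring

variable {A : Type*} [CommRing A]

theorem wit_n3 (f : Fin 5 → A) : n3 f = ![![0, f 4, 0, -f 2, 0, f 4, -f 3, 0, f 0, f 1],
    ![f 3, 0, -f 1, 0, 0, f 0, 0, 0, 0, 0], ![0, 0, 0, 0, f 4, 0, -f 2, 0, f 1, 0]] := by
  ext a i
  fin_cases a <;> fin_cases i <;> simp [n3, Nm, ell]

theorem wit_xis (b c d : A) : xis (wit b c d) = ![![b * c, 0, 0, -b, 0, c, 0, 0, 0, 1],
    ![-(d * c), 0, 0, d, -c, 0, b, 0, -1, 0], ![-(b * b), b, -d, 0, 0, -b, 0, 1, 0, 0]] := by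
  simp [xis, wit]

theorem wit_bq (x y : Fin 10 → A) : bq q0 x y = -(x 6 * y 8) - x 1 * y 2 := by
  rw [bq, q0, add_mulVec, vecMulVec_mulVec, vecMulVec_mulVec]
  simp [ell, dotProduct, Fin.sum_univ_succ]
  ring

theorem wit_bs (f : Fin 5 → A) (b c d : A) (y : Fin 10 → A) :
    bs q0 (pch (wit b c d)) (Nm f *ᵥ y) =
      -b * (f 4 * y 4 - f 2 * y 6 + f 1 * y 8) - d * c * (f 3 * y 1 - f 2 * y 2 + f 0 * y 7) := by
  simp [bs, wit_bq, pch, pw, wit, Nm, dotProduct, Fin.sum_univ_succ]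
  ring

theorem wit_GG (f : Fin 5 → A) (b c d : A) : GG (n3 f) (wit b c d) =
    (f 1 + b * f 2 + c * f 4) ^ 2 * (d * f 1 - b * (f 0 + b * f 3)) := by
  simp [GG, det_fin_three, psi, wit_n3, wit_xis, dotProduct, Fin.sum_univ_succ]
  ring

theorem wit_G2 (f : Fin 5 → A) (b c d : A) : G2 f q0 (n3 f) (wit b c d) =
    -(c ^ 2 * d) * (f 0 + b * f 3 + d * f 2) * ((f 0 + b * f 3 + d * f 2) * (f 0 + b * f 3) -
      d * f 3 * (f 1 + b * f 2 + c * f 4)) - b * GG (n3 f) (wit b c d) := by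
  rw [wit_GG]
  simp [G2, det_fin_three, psi, wit_n3, wit_xis, wit_bs, dotProduct, Fin.sum_univ_succ]
  ring

theorem gam_n3 (f : Fin 5 → A) : Gam (n3 f) = 2 * f 0 ^ 3 * f 1 ^ 2 * f 4 := by
  simp [Gam, det_fin_three, bs_P0, wit_n3]
  ring

theorem wit_h (b c d a a' : A) :
    (ell 1 + ell 2) ⬝ᵥ pch (wit b c d + ![0, a, a', 0, 0, 0]) = a := by
  simp [ell, pch, pw, wit, dotProduct, Fin.sum_univ_succ]

theorem wit_q (b c d a a' : A) : bq q0 (pch (wit b c d + ![0, a, a', 0, 0, 0]))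
    (pch (wit b c d + ![0, a, a', 0, 0, 0])) = a' * (d * c - a' * b) := by
  simp [wit_bq, pch, pw, wit]

theorem wit_map {B : Type*} [CommRing B] (g : A → B) (h : g 0 = 0) (b c d : A) :
    g ∘ wit b c d = wit (g b) (g c) (g d) := by
  simp only [wit, maps2_cons, maps2_nil, h]

/-- The tangency functional. -/
def wit_w (t : Par → A) (p : Fin 10 → A) (a b : A) : Fin 10 → A :=
  a • hv t + b • (p ᵥ* qm t + qm t *ᵥ p)

theorem wit_dot (t : Par → A) (p : Fin 10 → A) (a b : A) (τ : Fin 10 → A) :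
    wit_w t p a b ⬝ᵥ τ = a * hv t ⬝ᵥ τ + b * bs (qm t) p τ := by
  rw [wit_w, add_dotProduct, smul_dotProduct, smul_dotProduct, add_dotProduct, bs, bq, bq,
    dotProduct_comm τ, dotProduct_mulVec p]
  rfl

/-- The incidence system. -/
def wit_sys (t : Par → A) (u v : Fin 5 → A) (γ : Fin 10 → A) (k : Fin 4 → A) :
    Fin 4 ⊕ Fin 5 ⊕ Fin 5 → A :=
  Sum.elim ![hv t ⬝ᵥ pw u v, bq (qm t) (pw u v) (pw u v), γ ⬝ᵥ pw u v - 1,
      k 0 * k 2 + k 1 * k 3 - 1]
    (Sum.elim (fun r => wit_w t (pw u v) (k 0) (k 1) ⬝ᵥ pw (Pi.single r 1) v)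
      fun r => wit_w t (pw u v) (k 0) (k 1) ⬝ᵥ pw u (Pi.single r 1))

theorem wit_smap {B : Type*} [CommRing B] (g : A →+* B) (t : Par → A) (u v : Fin 5 → A)
    (γ : Fin 10 → A) (k : Fin 4 → A) (i : Fin 4 ⊕ Fin 5 ⊕ Fin 5) :
    g (wit_sys t u v γ k i) = wit_sys (g ∘ t) (g ∘ u) (g ∘ v) (g ∘ γ) (g ∘ k) i := by
  have he : ∀ r : Fin 5, g ∘ (Pi.single r 1 : Fin 5 → A) = Pi.single r 1 := fun r => by
    ext j
    by_cases hj : j = r <;> simp [hj]
  rcases i with i | i | i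
  · fin_cases i <;> simp [wit_sys, g.map_dotProduct, map_bq, map_pw, map_hv, map_qm]
  all_goals simp only [wit_sys, Sum.elim_inl, Sum.elim_inr, wit_dot, map_add, map_mul,
    g.map_dotProduct, map_bs, map_pw, map_hv, map_qm, he, Function.comp_apply]

end Ring

theorem wit_pick {P : ℂ → Prop} (h : ∀ᶠ w in Filter.cofinite, P w) : ∃ w, w ≠ 0 ∧ P w :=
  ((Filter.eventually_cofinite_ne 0).and h).exists

/-- Choose `b`, then `d`, then `c`, then `d'`, `c'` by `gen_cop`, `gen_coeff`; a cofinite set of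
complex numbers contains a nonzero one. With `D = f 0 + b f 3`, `U = f 1 + b f 2`: `b` makes `D`
coprime to `f 1`, `f 2` and `U` coprime to `f 4`, `U ≠ 0`; `d` makes `t = d f 1 - b D` of exact degree
and coprime to `f 3 * f 4`, and `B = D + d f 2` nonzero and coprime to `U` (then `t = d U - b B` is
coprime to `B`); `c` makes `A = U + c f 4` of exact degree and coprime to `B * D`, and
`B f 0 - c d f 3 f 4` coprime to `t`. -/
theorem wit_ex {e : ℕ} {f : Fin 5 → ℂ[X]} (hf : Pent e f) :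
    ∃ (b : ℂ) (c d : Fin 2 → ℂ), (∀ j, c j ≠ 0 ∧ d j ≠ 0) ∧
      (GG (n3 f) (C ∘ wit b (c 0) (d 0))).coeff (3 * e) ≠ 0 ∧
      IsCoprime (GG (n3 f) (C ∘ wit b (c 0) (d 0))) (GG (n3 f) (C ∘ wit b (c 1) (d 1))) ∧
      IsCoprime (GG (n3 f) (C ∘ wit b (c 0) (d 0))) (G2 f q0 (n3 f) (C ∘ wit b (c 0) (d 0))) := by
  have lc : ∀ i, (f i).coeff e ≠ 0 := fun i => (hf.1 i).2 ▸ leadingCoeff_ne_zero.2 (hf.1 i).1
  have cp : ∀ i j, i ≠ j → ∀ s, (f i).eval s = 0 → (f j).eval s ≠ 0 := fun i j h =>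
    cop_iff.1 (hf.2 i j h)
  have nz : ∀ {p : ℂ[X]} {n : ℕ}, p.coeff n ≠ 0 → p ≠ 0 := fun h k => h (by rw [k, coeff_zero])
  have dg : ∀ (p : ℂ[X]) (w : ℂ) (i : Fin 5), p.natDegree ≤ e → (p + C w * f i).natDegree ≤ e :=
    fun p w i h => natDegree_add_le_of_degree_le h ((natDegree_C_mul_le _ _).trans (hf.1 i).2.le)
  obtain ⟨b, b0, ⟨⟨b1, b2⟩, b3⟩, b4, b5⟩ := wit_pick
    ((((gen_cop (U := f 0) (V := f 3) (fun s _ => cp 0 3 (by decide) s) (hf.1 1).1).and
      (gen_cop (U := f 0) (V := f 3) (fun s _ => cp 0 3 (by decide) s) (hf.1 2).1)).and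
      (gen_cop (U := f 1) (V := f 2) (fun s _ => cp 1 2 (by decide) s) (hf.1 4).1)).and
      ((gen_coeff (f 1) (lc 2)).and (gen_coeff (f 0) (lc 3))))
  have dD := dg _ b 3 (hf.1 0).2.le
  have dU := dg _ b 2 (hf.1 1).2.le
  have e1 : ∀ c d : ℂ, GG (n3 f) (C ∘ wit b c d) = (f 1 + C b * f 2 + C c * f 4) ^ 2 *
      (-(C b * (f 0 + C b * f 3)) + C d * f 1) := fun c d => by
    rw [wit_map _ C_0, wit_GG, neg_add_eq_sub]
  have k1 : ∀ s, (-(C b * (f 0 + C b * f 3))).eval s = 0 → (f 1).eval s ≠ 0 := fun s h =>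
    cop_iff.1 b1 s (by simpa [b0, -eval_add] using h)
  obtain ⟨d, d0, ⟨d1, d2⟩, d3, d4⟩ := wit_pick
    (((gen_coeff (-(C b * (f 0 + C b * f 3))) (lc 1)).and
      (gen_cop (fun s _ => k1 s) (mul_ne_zero (hf.1 3).1 (hf.1 4).1))).and
      ((gen_coeff (f 0 + C b * f 3) (lc 2)).and (gen_cop (fun s _ => cop_iff.1 b2 s) (nz b4))))
  obtain ⟨c, c0, ⟨c1, c2⟩, c3⟩ := wit_pick (((gen_coeff (f 1 + C b * f 2) (lc 4)).and
    (gen_cop (fun s _ => cop_iff.1 b3 s) (mul_ne_zero (nz d3) (nz b5)))).and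
    (gen_cop (U := (f 0 + C b * f 3 + C d * f 2) * f 0) (V := -(C d * (f 3 * f 4)))
      (fun s h _ => by simpa [d0, -eval_mul, eval_C_mul] using cop_iff.1 d2 s h) (nz d1)))
  have g0 : (GG (n3 f) (C ∘ wit b c d)).coeff (3 * e) ≠ 0 := by
    rw [e1, show 3 * e = 2 * e + e by ring, coeff_mul_add_eq_of_natDegree_le
      (natDegree_pow_le_of_le 2 (dg _ c 4 dU)) (dg _ d 1 ?_), coeff_pow_of_natDegree_le (dg _ c 4 dU)]
    · exact mul_ne_zero (pow_ne_zero _ c1) d1
    · rw [natDegree_neg]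
      exact (natDegree_C_mul_le _ _).trans dD
  obtain ⟨d', d0', d1'⟩ := wit_pick (gen_cop (fun s _ => k1 s) (nz g0))
  obtain ⟨c', c0', c1'⟩ := wit_pick (gen_cop (fun s _ => cop_iff.1 b3 s) (nz g0))
  refine ⟨b, ![c, c'], ![d, d'], Fin.forall_fin_two.2 ⟨⟨c0, d0⟩, c0', d0'⟩, g0, ?_,
    cop_iff.2 fun s h => ?_⟩
  · rw [e1 (![c, c'] 1)]
    exact (c1'.pow_left.mul_left d1').symm
  change eval s (GG (n3 f) (C ∘ wit b c d)) = 0 at h
  change eval s (G2 f q0 (n3 f) (C ∘ wit b c d)) ≠ 0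
  rw [wit_map _ C_0] at h ⊢
  rw [wit_G2, eval_sub, eval_C_mul, h]
  rw [wit_GG] at h
  have r1 := cop_iff.1 c2 s
  have r2 := cop_iff.1 c3.symm s
  have r3 := cop_iff.1 d4 s
  simp only [eval_add, eval_sub, eval_mul, eval_neg, eval_pow, eval_C] at h r1 r2 r3 ⊢
  rw [mul_zero, sub_zero]
  refine mul_ne_zero (mul_ne_zero (by simp [c0, d0]) fun k => ?_) fun k => ?_ <;>
    rcases mul_eq_zero.1 h with h | h
  · exact r1 (pow_eq_zero_iff two_ne_zero |>.1 h) (by rw [k, zero_mul])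
  · exact r3 k (mul_left_cancel₀ d0 (by linear_combination h + b * k))
  · rw [pow_eq_zero_iff two_ne_zero] at h
    exact r1 h (by linear_combination k + d * eval s (f 3) * h)
  · exact r2 (by linear_combination h) (by linear_combination k + eval s (f 3) * h)

/-- `generic_or` for the incidence system in `u, v, a, b` and multipliers that express
`pw u v ≠ 0` and `(a, b) ≠ 0` (model: `generic_smooth`). In the second case take a derivation `D`
with `D t = δ` (`exists_deriv`, `bertini_dpw`): `a * δH p + b * δQ p p = 0` for all `δ`, so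
`a * p i = 0` and `b * p i ^ 2 = 0`. -/
theorem sm_gen : ∃ g : MvPolynomial Par ℂ, g ≠ 0 ∧
    ∀ t, MvPolynomial.eval t g ≠ 0 → SmoothN (hv t) (qm t) := by
  rcases generic_or (τ := Par) (σ := Fin 5 ⊕ Fin 5 ⊕ Fin 10 ⊕ Fin 4)
    (wit_sys (fun s => .X (.inl s)) (fun s => .X (.inr (.inl s)))
      (fun s => .X (.inr (.inr (.inl s)))) (fun s => .X (.inr (.inr (.inr (.inl s)))))
      fun s => .X (.inr (.inr (.inr (.inr s))))) with ⟨g, h0, hg⟩ | ⟨K, _, _, φ, hθ, hφ⟩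
  · refine ⟨g, h0, fun t ht u v hl hH hQ a b hs => by_contra fun hab => ht ?_⟩
    obtain ⟨i, hi⟩ := Function.ne_iff.1 (pw_ne.1 hl)
    obtain ⟨α, β, h1⟩ : ∃ α β, a * α + b * β = 1 := by
      rcases not_and_or.1 hab with h | h
      exacts [⟨a⁻¹, 0, by simp [h]⟩, ⟨0, b⁻¹, by simp [h]⟩]
    refine hg t (Sum.elim u (Sum.elim v (Sum.elim (Pi.single i (pw u v i)⁻¹) ![a, b, α, β])))
      fun q => ?_
    rw [wit_smap]
    simp only [Function.comp_def, MvPolynomial.eval_X, Sum.elim_inl, Sum.elim_inr]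
    rcases q with q | q | q
    · fin_cases q
      exacts [hH, hQ, sub_eq_zero.2 ((single_dotProduct _ _ _).trans (inv_mul_cancel₀ hi)),
        sub_eq_zero.2 h1]
    · have := hs (Pi.single q 1) 0
      rwa [smgen_zero_right, add_zero, ← wit_dot] at this
    · have := hs 0 (Pi.single q 1)
      rwa [smgen_zero_left, zero_add, ← wit_dot] at this
  have k := fun i => (wit_smap φ.toRingHom _ _ _ _ _ i).symm.trans (hφ i)
  change AlgebraicIndependent ℂ (φ.toRingHom ∘ fun s => .X (.inl s)) at hθ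
  generalize φ.toRingHom ∘ (fun s => MvPolynomial.X (Sum.inl s)) = t at hθ k
  generalize φ.toRingHom ∘ (fun s => MvPolynomial.X (Sum.inr (Sum.inl s))) = u at k
  generalize φ.toRingHom ∘ (fun s => MvPolynomial.X (Sum.inr (Sum.inr (Sum.inl s)))) = v at k
  generalize φ.toRingHom ∘ (fun s => MvPolynomial.X (Sum.inr (Sum.inr (Sum.inr (Sum.inl s))))) = γ
    at k
  generalize φ.toRingHom ∘ (fun s => MvPolynomial.X (Sum.inr (Sum.inr (Sum.inr (Sum.inr s))))) = m
    at k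
  obtain ⟨D, hD⟩ := exists_deriv hθ (mkP (m 2 • γ) (m 3 • vecMulVec γ γ))
  have dd : ∀ x y : Fin 10 → K, D (x ⬝ᵥ y) = (D ∘ x) ⬝ᵥ y + x ⬝ᵥ (D ∘ y) := fun x y => by
    simp [dotProduct, Finset.sum_add_distrib, mul_comm, add_comm]
  have dm : D ∘ (qm t *ᵥ pw u v) = (m 3 • vecMulVec γ γ) *ᵥ pw u v + qm t *ᵥ (D ∘ pw u v) :=
    _root_.funext fun i => (dd _ _).trans (congrArg (· ⬝ᵥ _ + _) (_root_.funext fun j =>
      (hD _).trans (congrFun (congrFun (qm_mkP (m 2 • γ) (m 3 • vecMulVec γ γ)) i) j)))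
  have dh : D ∘ hv t = m 2 • γ := funext fun i => (hD _).trans (congrFun (hv_mkP _ _) i)
  have h2 : γ ⬝ᵥ pw u v = 1 := sub_eq_zero.1 (k (.inl 2))
  have h3 : m 0 * m 2 + m 1 * m 3 - 1 = 0 := k (.inl 3)
  have h0 : D (hv t ⬝ᵥ pw u v) = D 0 := congrArg D (k (.inl 0))
  have h1 : D (pw u v ⬝ᵥ qm t *ᵥ pw u v) = D 0 := congrArg D (k (.inl 1))
  have h4 : wit_w t (pw u v) (m 0) (m 1) ⬝ᵥ (D ∘ pw u v) = 0 := by
    rw [bertini_dpw, dotProduct_add, smgen_left, smgen_right _ u, Finset.sum_eq_zero,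
      Finset.sum_eq_zero, add_zero]
    exacts [fun r _ => mul_eq_zero_of_right _ (k (.inr (.inr r))),
      fun r _ => mul_eq_zero_of_right _ (k (.inr (.inl r)))]
  rw [dd, map_zero] at h0 h1
  rw [dh, smul_dotProduct, h2] at h0
  rw [dm, dotProduct_add, smul_mulVec, vecMulVec_mulVec, h2, dotProduct_smul, dotProduct_smul,
    dotProduct_comm _ γ, h2] at h1
  rw [wit_dot, bs, bq, bq] at h4
  simp only [smul_eq_mul, MulOpposite.op_one, one_smul] at h0 h1
  exact absurd (show (1 : K) = 0 by linear_combination m 0 * h0 + m 1 * h1 - h3 - h4) one_ne_zero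

/-- Multiply by `gpr (hv X) (qm X)`; `map_gpr`, `num2_g`, `prime_of`. -/
theorem sm_poly : ∃ g : MvPolynomial Par ℂ, g ≠ 0 ∧
    ∀ t, MvPolynomial.eval t g ≠ 0 → SmoothN (hv t) (qm t) ∧ (JN (hv t) (qm t)).IsPrime := by
  obtain ⟨g, h0, hg⟩ := sm_gen
  have k : ∀ t : Par → ℂ, MvPolynomial.eval t (gpr (hv .X) (qm .X)) = gpr (hv t) (qm t) :=
    fun t => by
      rw [map_gpr, map_hv, map_qm, show MvPolynomial.eval t ∘ .X = t from
        funext MvPolynomial.eval_X]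
  refine ⟨g * gpr (hv .X) (qm .X), mul_ne_zero h0 fun h => num2_g ?_, fun t ht => ?_⟩
  · have := k (mkP (Int.castRingHom ℂ ∘ H0) (num2_q.map (Int.castRingHom ℂ)))
    rw [h, map_zero, hv_mkP, qm_mkP, ← map_gpr, eq_intCast] at this
    exact Int.cast_eq_zero.1 this.symm
  · rw [map_mul, k] at ht
    exact ⟨hg t (left_ne_zero_of_mul ht), (prime_of (right_ne_zero_of_mul ht)).1⟩

end Pool.Agent.GMO
end
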